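import Pool.Agent.Lib_helper43.HL.Hodge
import Pool.Agent.Lib_helper88.Hodge.SpTwo

/-!
Comparison of the two definitions of the Euler class: `HodgeEuler.IsEulerClass` and `eulerClass`.
-/

namespace Pool.Agent.HL

open Finsupp Matrix CategoryTheory

section bridge

theorem bd_eq {X : Type*} (k : ℕ) : (HodgeEuler.bd k : T X (k + 1) →ₗ[ℤ] T X k) = bd k := by
  refine Finsupp.lhom_ext' fun v => LinearMap.ext_ring ?_
  simp only [LinearMap.comp_apply, Finsupp.lsingle_apply, bd_single, HodgeEuler.bd,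
    Finsupp.linearCombination_single, one_smul]
  refine Finset.sum_congr rfl fun i _ => ?_
  rw [Finsupp.smul_single, smul_eq_mul, mul_one]
  rfl

variable {n : ℕ} {V : Type*} [AddCommGroup V] [Module ℝ V] (Φ : (Fin n → ℝ) ≃ₗ[ℝ] V)
  (b : Module.Basis (Fin n) ℝ V)

/-- The orientation sign of the basis `b` with respect to the standard basis. -/
noncomputable def lamb : ℝ := b.det (fun i => Φ (Pi.basisFun ℝ (Fin n) i))

theorem lamb_ne : lamb Φ b ≠ 0 := by
  have h := b.isUnit_det ((Pi.basisFun ℝ (Fin n)).map Φ)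
  have h2 : b.det ((Pi.basisFun ℝ (Fin n)).map Φ) = lamb Φ b := by
    rw [lamb]
    congr 1
  rw [h2] at h
  exact h.ne_zero

theorem det_Phi (v : Fin n → Fin n → ℝ) :
    b.det (fun i => Φ (v i)) = lamb Φ b * (Matrix.of v).det := by
  have h1 : (b.det.compLinearMap Φ.toLinearMap) =
      (b.det.compLinearMap Φ.toLinearMap) (Pi.basisFun ℝ (Fin n)) • (Pi.basisFun ℝ (Fin n)).det :=
    AlternatingMap.eq_smul_basis_det _ _
  have h2 := congrArg (fun f => f v) h1
  simp only [AlternatingMap.compLinearMap_apply, AlternatingMap.smul_apply, smul_eq_mul,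
    Pi.basisFun_det_apply] at h2
  exact h2

/-- Cramer coordinates. -/
theorem cramer (v : Fin n → Fin n → ℝ) (β : Fin n → ℝ) (p : Fin n → ℝ) (hp : p = ∑ j, β j • v j)
    (i : Fin n) : (Matrix.of (Function.update v i p)).det = β i * (Matrix.of v).det := by
  have h1 : Matrix.of (Function.update v i p) = (Matrix.of v).updateRow i (∑ j, β j • (Matrix.of v) j) := by
    rw [hp]
    rfl
  rw [h1, Matrix.det_updateRow_sum]
  simp

theorem crossing_eq (p : Fin n → ℝ) (v : Fin n → Fin n → ℝ) :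
    HodgeEuler.crossing b (Φ p) (fun i => Φ (v i)) = (SignType.sign (lamb Φ b) : ℤ) * phi p v := by
  classical
  have hup : ∀ i, b.det (Function.update (fun i => Φ (v i)) i (Φ p)) =
      lamb Φ b * (Matrix.of (Function.update v i p)).det := by
    intro i
    rw [← det_Phi]
    congr 1
    funext j
    by_cases h : j = i
    · subst h; simp
    · simp [Function.update_of_ne h]
  have hl := lamb_ne Φ b
  by_cases hdet : (Matrix.of v).det = 0
  · rw [HodgeEuler.crossing, phi, det_Phi, hdet]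
    simp
  · have hiff : (∀ i, 0 < b.det (fun i => Φ (v i)) *
        b.det (Function.update (fun i => Φ (v i)) i (Φ p))) ↔
        ∃ β : Fin n → ℝ, (∀ j, 0 < β j) ∧ p = ∑ j, β j • v j := by
      constructor
      · intro h
        obtain ⟨β, hβ⟩ : ∃ β : Fin n → ℝ, p = ∑ j, β j • v j := by
          refine ⟨p ᵥ* (Matrix.of v)⁻¹, ?_⟩
          have h3 : (p ᵥ* (Matrix.of v)⁻¹) ᵥ* (Matrix.of v) = p := by
            rw [Matrix.vecMul_vecMul, Matrix.nonsing_inv_mul _ (Ne.isUnit hdet), Matrix.vecMul_one]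
          conv_lhs => rw [← h3]
          rw [Matrix.vecMul_eq_sum]
          rfl
        refine ⟨β, fun j => ?_, hβ⟩
        have h4 := h j
        rw [hup, det_Phi, cramer v β p hβ j] at h4
        have h5 : 0 < (lamb Φ b * (Matrix.of v).det) ^ 2 * β j := by
          calc (0 : ℝ) < _ := h4
            _ = _ := by ring
        exact pos_of_mul_pos_right h5 (sq_nonneg _) |>.trans_le le_rfl
      · rintro ⟨β, hβ, hp⟩ i
        rw [hup, det_Phi, cramer v β p hp i]
        have h5 : 0 < (lamb Φ b * (Matrix.of v).det) ^ 2 * β i :=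
          mul_pos (by positivity) (hβ i)
        calc (0 : ℝ) < _ := h5
          _ = _ := by ring
    rw [HodgeEuler.crossing, phi, det_Phi]
    by_cases hc : ∃ β : Fin n → ℝ, (∀ j, 0 < β j) ∧ p = ∑ j, β j • v j
    · have hc' := hiff.mpr hc
      simp only [det_Phi] at hc'
      rw [if_pos hc', if_pos hc, sign_mul, SignType.coe_mul]
    · have hc' := fun h => hc (hiff.mp h)
      simp only [det_Phi] at hc'
      rw [if_neg hc', if_neg hc, mul_zero]

theorem crossingNumber_eq (p : Fin n → ℝ) (x : T (Fin n → ℝ) n) :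
    HodgeEuler.crossingNumber b (Φ p) (tmap Φ n x) =
      (SignType.sign (lamb Φ b) : ℤ) * windAt p x := by
  have : (HodgeEuler.crossingNumber b (Φ p)).comp (tmap Φ n) =
      (SignType.sign (lamb Φ b) : ℤ) • windAt p := by
    refine Finsupp.lhom_ext' fun v => LinearMap.ext_ring ?_
    simp only [LinearMap.comp_apply, Finsupp.lsingle_apply, tmap_single, LinearMap.smul_apply,
      windAt_single, one_mul, HodgeEuler.crossingNumber, Finsupp.linearCombination_single,
      smul_eq_mul]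
    exact crossing_eq Φ b p v
  exact LinearMap.congr_fun this x

theorem isWinding_tmap {m : ℕ} (Φ : (Fin (m + 1) → ℝ) ≃ₗ[ℝ] V) (b : Module.Basis (Fin (m + 1)) ℝ V)
    (x : T (Fin (m + 1) → ℝ) (m + 1)) (hx : x ∈ KC (m + 1) (m + 1)) (hb : bd m x = 0) :
    HodgeEuler.IsWinding b (tmap Φ (m + 1) x) ((SignType.sign (lamb Φ b) : ℤ) * wind x) := by
  classical
  intro p hp
  obtain ⟨p', rfl⟩ := Φ.surjective p
  rw [crossingNumber_eq, wind_eq m x hx hb p' ?_]
  intro v hv i hmem
  have hinj : Function.Injective (fun v : Fin (m + 1) → Fin (m + 1) → ℝ => Φ ∘ v) := by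
    intro a c hac
    funext j
    exact Φ.injective (congrFun hac j)
  have hv' : (Φ ∘ v) ∈ (tmap Φ (m + 1) x).support := by
    have h1 : (tmap Φ (m + 1) x) = Finsupp.mapDomain (fun v => Φ ∘ v) x := rfl
    rw [h1, Finsupp.mapDomain_support_of_injective hinj]
    exact Finset.mem_image_of_mem _ hv
  apply hp (Φ ∘ v) hv' i
  have h2 : (Φ ∘ v) '' {j | j ≠ i} = Φ.toLinearMap '' (v '' {j | j ≠ i}) := by
    rw [Set.image_image]; rfl
  rw [h2, Submodule.span_image]
  exact Submodule.mem_map_of_mem hmem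

theorem avoids_tmap {k : ℕ} (x : T (Fin n → ℝ) k) (hx : x ∈ KC n k) :
    HodgeEuler.Avoids (tmap Φ k x) := by
  classical
  intro v hv h0
  have h1 := Finsupp.mapDomain_support hv
  rw [Finset.mem_image] at h1
  obtain ⟨u, hu, rfl⟩ := h1
  have h2 := mem_KC.mp hx u hu
  apply h2
  have h3 : Set.range (Φ ∘ u) = Φ.toLinearMap '' Set.range u := by
    rw [← Set.range_comp]; rfl
  rw [h3, ← LinearMap.image_convexHull] at h0
  obtain ⟨y, hy, hy0⟩ := h0
  have : y = 0 := Φ.injective (by rw [map_zero]; exact hy0)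
  rw [← this]; exact hy

end bridge

section bridge2

variable {G : Type} [Group G] {V : Type*} [AddCommGroup V] [Module ℝ V] [MulAction G V] {m : ℕ}
  (Φ : (Fin (m + 1) → ℝ) ≃ₗ[ℝ] V) (b : Module.Basis (Fin (m + 1)) ℝ V)
  (ρ : G →* Matrix (Fin (m + 1)) (Fin (m + 1)) ℝ)
  (hΦ : ∀ (γ : G) w, Φ (ρ γ *ᵥ w) = γ • Φ w)

/-- The sphere map of an admissible partial chain map. -/
noncomputable def toSphere {F : (k : ℕ) → T G k →ₗ[ℤ] T (Fin (m + 1) → ℝ) k} (hF : Adm ρ F)
    (hΦ : ∀ (γ : G) w, Φ (ρ γ *ᵥ w) = γ • Φ w) : HodgeEuler.SphereMap G V (m + 1) where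
  f k := (tmap Φ k) ∘ₗ (F k)
  f_zero e := by
    have : e = default := Subsingleton.elim _ _
    rw [this, LinearMap.comp_apply, hF.aug, tmap_single]
    congr 1
    exact Subsingleton.elim _ _
  comm k hk c := by
    rw [bd_eq, bd_eq, LinearMap.comp_apply, LinearMap.comp_apply, bd_tmap, hF.bdF k hk]
  equiv k hk γ c := by
    rw [LinearMap.comp_apply, LinearMap.comp_apply]
    have h1 : (HodgeEuler.act γ k : HodgeEuler.Cv G k →ₗ[ℤ] HodgeEuler.Cv G k) c = ac γ k c := rfl
    rw [h1, hF.equi k hk, lm, tmap_comp]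
    have h2 : ∀ y : T V k, (HodgeEuler.act γ k : HodgeEuler.Cv V k →ₗ[ℤ] HodgeEuler.Cv V k) y =
      tmap (fun x : V => γ • x) k y := fun y => rfl
    rw [h2, tmap_comp]
    congr 2
    funext w
    exact hΦ γ w
  avoids k hk x := avoids_tmap Φ _ (hF.off k hk _)

theorem isEulerClass_smul (hρ : ∀ g, 0 < (ρ g).det) (hΦ : ∀ (γ : G) w, Φ (ρ γ *ᵥ w) = γ • Φ w) :
    HodgeEuler.IsEulerClass b
      ((SignType.sign (lamb Φ b) : ℤ) • eulerClass (Nat.succ_ne_zero m) ρ hρ) := by
  set s : ℤ := (SignType.sign (lamb Φ b) : ℤ) with hs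
  have hF := FF_adm ρ fun g => (hρ g).ne'
  have hd := d_eCo' (Nat.succ_ne_zero m) hρ hF
  refine ⟨toSphere Φ ρ hF hΦ, s • groupCohomology.cocyclesMk (eCo (FF ρ)) hd, ?_, fun x => ?_⟩
  · rw [map_zsmul]; rfl
  · rw [map_zsmul, groupCohomology.iCocycles_mk]
    have h1 : (s • eCo (FF ρ) : (Fin (m + 1) → G) → ℤ) (fun j => (x j.castSucc)⁻¹ * x j.succ) =
        s * wind (FF ρ (m + 1) (bd (m + 1) (Finsupp.single x 1))) := by
      rw [← hom_eCo hρ hF, hom_single, one_mul, Pi.smul_apply, smul_eq_mul]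
    have h2 : (toSphere Φ ρ hF hΦ).f (m + 1) (HodgeEuler.bd (m + 1) (Finsupp.single x 1)) =
        tmap Φ (m + 1) (FF ρ (m + 1) (bd (m + 1) (Finsupp.single x 1))) := by
      rw [bd_eq]; rfl
    rw [h2]
    have h3 := isWinding_tmap Φ b (FF ρ (m + 1) (bd (m + 1) (Finsupp.single x 1)))
      (hF.off _ le_rfl _) (bd_F_bd hF (Nat.lt_succ_self m) _)
    rw [← hs, ← h1] at h3
    exact h3

end bridge2

section sp

theorem Phi_sp (g : ℕ) (A : Spl (Fin g)) (w : Fin (2 * g) → ℝ) :
    LinearEquiv.funCongrLeft ℝ ℝ (crd g) (spRep g A *ᵥ w) =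
      A • (LinearEquiv.funCongrLeft ℝ ℝ (crd g) w) := by
  rw [HodgeEuler.sp_smul_def]
  funext x
  simp only [LinearEquiv.funCongrLeft_apply, LinearMap.funLeft_apply, spRep, MonoidHom.coe_mk,
    OneHom.coe_mk, Matrix.reindex_apply, Matrix.mulVec, dotProduct, Matrix.submatrix_apply,
    Equiv.symm_apply_apply]
  rw [← Equiv.sum_comp (crd g)]
  simp only [Equiv.symm_apply_apply]

/-- The class `hodgeTop g` is, up to sign, the Euler class in the sense of `IsEulerClass`, for every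
orientation of `ℝ^{2g}`. -/
theorem isEulerClass_hodgeTop (g : ℕ) (hg : 2 * g ≠ 0)
    (b : Module.Basis (Fin (2 * g)) ℝ (Fin g ⊕ Fin g → ℝ)) :
    ∃ s : ℤ, (s = 1 ∨ s = -1) ∧ HodgeEuler.IsEulerClass b (s • hodgeTop g hg) := by
  obtain ⟨g', rfl⟩ : ∃ g', g = g' + 1 := ⟨g - 1, by omega⟩
  refine ⟨(SignType.sign (lamb (LinearEquiv.funCongrLeft ℝ ℝ (crd (g' + 1))) b) : ℤ), ?_,
    isEulerClass_smul (m := 2 * g' + 1) (LinearEquiv.funCongrLeft ℝ ℝ (crd (g' + 1))) b
      (spRep (g' + 1)) (spRep_pos (g' + 1)) (Phi_sp (g' + 1))⟩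
  rcases lt_or_gt_of_ne (lamb_ne (LinearEquiv.funCongrLeft ℝ ℝ (crd (g' + 1))) b) with h | h
  · right; rw [sign_neg h]; rfl
  · left; rw [sign_pos h]; rfl

/-- The order of a class is the order of its opposite. -/
theorem addOrderOf_unit_smul {A : Type*} [AddCommGroup A] (c : A) (s : ℤ) (hs : s = 1 ∨ s = -1) :
    addOrderOf (s • c) = addOrderOf c := by
  rcases hs with rfl | rfl
  · rw [one_smul]
  · rw [neg_one_smul, addOrderOf_neg]

/-- Every Euler class (for any orientation) has the order of `hodgeTop g`. -/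
theorem addOrderOf_of_isEulerClass (g : ℕ) (hg : 2 * g ≠ 0)
    (b : Module.Basis (Fin (2 * g)) ℝ (Fin g ⊕ Fin g → ℝ))
    (c : groupCohomology (Rep.trivial ℤ (Matrix.symplecticGroup (Fin g) ℤ) ℤ) (2 * g))
    (hc : HodgeEuler.IsEulerClass b c) : addOrderOf c = addOrderOf (hodgeTop g hg) := by
  obtain ⟨s, hs, hsb⟩ := isEulerClass_hodgeTop g hg b
  obtain ⟨g', rfl⟩ : ∃ g', g = g' + 1 := ⟨g - 1, by omega⟩
  have h := HodgeEuler.eulerClass_unique (n := 2 * g' + 1) b
    (fun A v => HodgeEuler.sp_det_invariant b A v) hc hsb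
  rw [h]
  exact addOrderOf_unit_smul _ s hs

end sp

end Pool.Agent.HL
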