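import Mathlib

/-!
Chains on tuples: `T X k` is the free abelian group on `k`-tuples of elements of `X`,
`bd` is the usual alternating boundary, `cone w` puts `w` in front.
-/

namespace Pool.Agent.HL

open Finsupp

/-- The free abelian group on `k`-tuples of elements of `X`. -/
abbrev T (X : Type*) (k : ℕ) := (Fin k → X) →₀ ℤ

section basic

variable {X Y : Type*}

/-- The alternating boundary of chains on tuples (down to the empty tuple). -/
noncomputable def bd (k : ℕ) : T X (k + 1) →ₗ[ℤ] T X k :=
  Finsupp.linearCombination ℤ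
    (fun v : Fin (k + 1) → X => ∑ i : Fin (k + 1), Finsupp.single (v ∘ i.succAbove) ((-1 : ℤ) ^ (i : ℕ)))

theorem bd_single (k : ℕ) (v : Fin (k + 1) → X) :
    bd k (Finsupp.single v 1) =
      ∑ i : Fin (k + 1), Finsupp.single (v ∘ i.succAbove) ((-1 : ℤ) ^ (i : ℕ)) := by
  simp [bd]

/-- Put the point `w` in front of all tuples. -/
noncomputable def cone (w : X) (k : ℕ) : T X k →ₗ[ℤ] T X (k + 1) :=
  Finsupp.lmapDomain ℤ ℤ (fun v => Fin.cons w v)

theorem cone_single (w : X) (k : ℕ) (v : Fin k → X) (a : ℤ) :
    cone w k (Finsupp.single v a) = Finsupp.single (Fin.cons w v) a := by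
  simp [cone]

/-- Functoriality of chains. -/
noncomputable def tmap (f : X → Y) (k : ℕ) : T X k →ₗ[ℤ] T Y k :=
  Finsupp.lmapDomain ℤ ℤ (fun v => f ∘ v)

theorem tmap_single (f : X → Y) (k : ℕ) (v : Fin k → X) (a : ℤ) :
    tmap f k (Finsupp.single v a) = Finsupp.single (f ∘ v) a := by
  simp [tmap]

theorem tmap_comp {Z : Type*} (f : Y → Z) (g : X → Y) (k : ℕ) (x : T X k) :
    tmap f k (tmap g k x) = tmap (f ∘ g) k x := by
  have : (tmap f k).comp (tmap g k) = tmap (f ∘ g) k := by
    refine Finsupp.lhom_ext' fun v => LinearMap.ext_ring ?_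
    simp [tmap_single, Function.comp_assoc]
  exact LinearMap.congr_fun this x

theorem tmap_id (k : ℕ) (x : T X k) : tmap (id : X → X) k x = x := by
  have : tmap (id : X → X) k = LinearMap.id := by
    refine Finsupp.lhom_ext' fun v => LinearMap.ext_ring ?_
    simp [tmap_single]
  rw [this]; rfl

theorem bd_tmap (f : X → Y) (k : ℕ) (x : T X (k + 1)) :
    bd k (tmap f (k + 1) x) = tmap f k (bd k x) := by
  have : (bd k).comp (tmap f (k + 1)) = (tmap f k).comp (bd k) := by
    refine Finsupp.lhom_ext' fun v => LinearMap.ext_ring ?_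
    simp only [LinearMap.comp_apply, Finsupp.lsingle_apply, tmap_single, bd_single, map_sum]
    rfl
  exact LinearMap.congr_fun this x

theorem tmap_cone (f : X → Y) (w : X) (k : ℕ) (x : T X k) :
    tmap f (k + 1) (cone w k x) = cone (f w) k (tmap f k x) := by
  have : (tmap f (k + 1)).comp (cone w k) = (cone (f w) k).comp (tmap f k) := by
    refine Finsupp.lhom_ext' fun v => LinearMap.ext_ring ?_
    simp only [LinearMap.comp_apply, Finsupp.lsingle_apply, tmap_single, cone_single]
    congr 1
    funext i
    refine Fin.cases ?_ (fun j => ?_) i <;> simp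
  exact LinearMap.congr_fun this x

theorem bd_cone (w : X) (k : ℕ) (x : T X (k + 1)) :
    bd (k + 1) (cone w (k + 1) x) = x - cone w k (bd k x) := by
  have : (bd (k + 1)).comp (cone w (k + 1)) = LinearMap.id - (cone w k).comp (bd k) := by
    refine Finsupp.lhom_ext' fun v => LinearMap.ext_ring ?_
    simp only [LinearMap.comp_apply, Finsupp.lsingle_apply, cone_single, bd_single,
      LinearMap.sub_apply, LinearMap.id_apply, map_sum]
    rw [Fin.sum_univ_succ]
    have h0 : (Fin.cons w v : Fin (k + 2) → X) ∘ (0 : Fin (k + 2)).succAbove = v := by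
      funext i; simp
    rw [h0]
    have h1 : ∀ i : Fin (k + 1), (Fin.cons w v : Fin (k + 2) → X) ∘ (i.succ).succAbove
        = Fin.cons w (v ∘ i.succAbove) := by
      intro i
      funext j
      refine Fin.cases ?_ (fun j => ?_) j <;> simp
    simp only [h1, Fin.val_succ, pow_succ, Fin.val_zero, pow_zero, mul_neg, mul_one,
      Finsupp.single_neg, Finset.sum_neg_distrib]
    rw [← sub_eq_add_neg]
  exact LinearMap.congr_fun this x

theorem bd_cone_zero (w : X) (x : T X 0) : bd 0 (cone w 0 x) = x := by
  have : (bd 0).comp (cone w 0) = LinearMap.id := by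
    refine Finsupp.lhom_ext' fun v => LinearMap.ext_ring ?_
    simp only [LinearMap.comp_apply, Finsupp.lsingle_apply, cone_single, bd_single,
      LinearMap.id_apply]
    rw [Fin.sum_univ_succ, Finset.univ_eq_empty, Finset.sum_empty, add_zero]
    have h : (Fin.cons w v : Fin 1 → X) ∘ (0 : Fin 1).succAbove = v := Subsingleton.elim _ _
    rw [h]
    simp
  exact LinearMap.congr_fun this x

theorem bd_bd (k : ℕ) (x : T X (k + 2)) : bd k (bd (k + 1) x) = 0 := by
  induction k with
  | zero =>
    have : (bd 0).comp (bd (X := X) (0 + 1)) = 0 := by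
      refine Finsupp.lhom_ext' fun v => LinearMap.ext_ring ?_
      simp only [LinearMap.comp_apply, Finsupp.lsingle_apply, LinearMap.zero_apply]
      have hv : Finsupp.single v (1 : ℤ) = cone (v 0) 1 (Finsupp.single (Fin.tail v) 1) := by
        rw [cone_single, Fin.cons_self_tail]
      rw [hv]
      erw [bd_cone (v 0) 0]
      rw [map_sub, bd_cone_zero, sub_self]
    exact LinearMap.congr_fun this x
  | succ k ih =>
    have : (bd (k + 1)).comp (bd (X := X) (k + 1 + 1)) = 0 := by
      refine Finsupp.lhom_ext' fun v => LinearMap.ext_ring ?_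
      simp only [LinearMap.comp_apply, Finsupp.lsingle_apply, LinearMap.zero_apply]
      have hv : Finsupp.single v (1 : ℤ) = cone (v 0) (k + 1 + 1) (Finsupp.single (Fin.tail v) 1) := by
        rw [cone_single, Fin.cons_self_tail]
      rw [hv, bd_cone, map_sub, bd_cone, ih, map_zero]
      abel
    exact LinearMap.congr_fun this x

end basic

section act

variable {G : Type*} [Group G] {X : Type*} [MulAction G X]

/-- The action of a group element on chains. -/
noncomputable def ac (g : G) (k : ℕ) : T X k →ₗ[ℤ] T X k := tmap (fun x => g • x) k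

theorem ac_single (g : G) (k : ℕ) (v : Fin k → X) (a : ℤ) :
    ac g k (Finsupp.single v a) = Finsupp.single (g • v) a := by
  rw [ac, tmap_single]; rfl

theorem ac_one (k : ℕ) (x : T X k) : ac (1 : G) k x = x := by
  have : (fun x : X => (1 : G) • x) = id := by funext x; simp
  rw [ac, this, tmap_id]

theorem ac_mul (g h : G) (k : ℕ) (x : T X k) : ac (g * h) k x = ac g k (ac h k x) := by
  rw [ac, ac, ac, tmap_comp]
  congr 2
  funext x
  simp [mul_smul]

theorem bd_ac (g : G) (k : ℕ) (x : T X (k + 1)) : bd k (ac g (k + 1) x) = ac g k (bd k x) :=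
  bd_tmap _ _ _

theorem ac_zero_deg (g : G) (x : T X 0) : ac g 0 x = x := by
  have : ac (X := X) g 0 = LinearMap.id := by
    refine Finsupp.lhom_ext' fun v => LinearMap.ext_ring ?_
    simp only [LinearMap.comp_apply, Finsupp.lsingle_apply, ac_single, LinearMap.id_apply]
    congr 1
    exact Subsingleton.elim _ _
  rw [this]; rfl

end act

end Pool.Agent.HL
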