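import Pool.Agent.Lib_helper43.HL.Key3

/-!
Bridge between the inhomogeneous cochains of Mathlib and functionals on chains of tuples.
-/

namespace Pool.Agent.HL

open Finsupp CategoryTheory

/-- The trivial integral representation. -/
noncomputable abbrev ZRep (G : Type) [Group G] : Rep ℤ G := Rep.trivial ℤ G ℤ

variable {G : Type} [Group G]

/-- The homogeneous functional of an inhomogeneous cochain. -/
noncomputable def hom (n : ℕ) (f : (Fin n → G) → ℤ) : T G (n + 1) →ₗ[ℤ] ℤ :=
  Finsupp.linearCombination ℤ (fun v : Fin (n + 1) → G => f (fun i => (v i.castSucc)⁻¹ * v i.succ))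

theorem hom_single (n : ℕ) (f : (Fin n → G) → ℤ) (v : Fin (n + 1) → G) (a : ℤ) :
    hom n f (Finsupp.single v a) = a * f (fun i => (v i.castSucc)⁻¹ * v i.succ) := by
  simp [hom]

theorem hom_ac (n : ℕ) (f : (Fin n → G) → ℤ) (g : G) (x : T G (n + 1)) :
    hom n f (ac g (n + 1) x) = hom n f x := by
  have : (hom n f).comp (ac g (n + 1)) = hom n f := by
    refine Finsupp.lhom_ext' fun v => LinearMap.ext_ring ?_
    simp only [LinearMap.comp_apply, Finsupp.lsingle_apply, ac_single, hom_single]
    congr 2
    funext i
    simp [mul_assoc]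
  exact LinearMap.congr_fun this x

theorem hom_add (n : ℕ) (f f' : (Fin n → G) → ℤ) : hom n (f + f') = hom n f + hom n f' := by
  refine Finsupp.lhom_ext' fun v => LinearMap.ext_ring ?_
  simp only [LinearMap.comp_apply, Finsupp.lsingle_apply, hom_single, LinearMap.add_apply,
    Pi.add_apply]
  ring

theorem hom_smul (n : ℕ) (a : ℤ) (f : (Fin n → G) → ℤ) : hom n (a • f) = a • hom n f := by
  refine Finsupp.lhom_ext' fun v => LinearMap.ext_ring ?_
  simp only [LinearMap.comp_apply, Finsupp.lsingle_apply, hom_single, LinearMap.smul_apply,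
    Pi.smul_apply, smul_eq_mul]
  ring

/-- The coboundary of inhomogeneous cochains corresponds to the boundary of chains. -/
theorem hom_bd (n : ℕ) (f : (Fin n → G) → ℤ) (x : T G (n + 2)) :
    hom n f (bd (n + 1) x) = hom (n + 1) (inhomogeneousCochains.d (ZRep G) n f) x := by
  have : (hom n f).comp (bd (n + 1)) = hom (n + 1) (inhomogeneousCochains.d (ZRep G) n f) := by
    refine Finsupp.lhom_ext' fun v => LinearMap.ext_ring ?_
    simp only [LinearMap.comp_apply, Finsupp.lsingle_apply, bd_single, map_sum, hom_single,
      one_mul]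
    rw [inhomogeneousCochains.d_hom_apply, Fin.sum_univ_succ]
    congr 1
    · simp only [Fin.val_zero, pow_zero, one_mul]
      simp [Function.comp_def]
    · refine Finset.sum_congr rfl fun j _ => ?_
      rw [Fin.val_succ]
      have : (fun k : Fin n => ((v ∘ j.succ.succAbove) k.castSucc)⁻¹ * (v ∘ j.succ.succAbove) k.succ)
          = j.contractNth (· * ·) (fun i => (v i.castSucc)⁻¹ * v i.succ) := by
        funext k
        rw [← Fin.inv_partialProd_mul_eq_contractNth]
        have hv := Fin.partialProd_left_inv v
        have h1 : ∀ i, v i = v 0 * Fin.partialProd (fun i => (v i.castSucc)⁻¹ * v i.succ) i := by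
          intro i
          conv_lhs => rw [← hv]
          rfl
        simp only [Function.comp_apply]
        rw [h1 (j.succ.succAbove k.castSucc), h1 (j.succ.succAbove k.succ), Fin.succ_succAbove_succ]
        group
      rw [this]
      rfl
  exact LinearMap.congr_fun this x

theorem d_smul' (n : ℕ) (a : ℤ) (f : (Fin n → G) → ℤ) :
    inhomogeneousCochains.d (ZRep G) n (a • f) = a • inhomogeneousCochains.d (ZRep G) n f :=
  map_smul _ _ _

/-- A class vanishes iff its cocycle is a coboundary. -/
theorem pi_eq_zero (n : ℕ) (x : groupCohomology.cocycles (ZRep G) (n + 1))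
    (h : groupCohomology.π (ZRep G) (n + 1) x = 0) :
    ∃ f : (Fin n → G) → ℤ, inhomogeneousCochains.d (ZRep G) n f =
      groupCohomology.iCocycles (ZRep G) (n + 1) x := by
  let K := groupCohomology.inhomogeneousCochains (ZRep G)
  have hrel : (ComplexShape.up ℕ).prev (n + 1) = n := by simp
  let S : ShortComplex (ModuleCat ℤ) := ShortComplex.mk (K.toCycles n (n + 1)) (K.homologyπ (n + 1))
    (K.toCycles_comp_homologyπ n (n + 1))
  have hS : S.Exact := ShortComplex.exact_of_g_is_cokernel S
    (K.homologyIsCokernel n (n + 1) hrel)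
  rw [ShortComplex.moduleCat_exact_iff] at hS
  obtain ⟨f, hf⟩ := hS x h
  refine ⟨f, ?_⟩
  rw [← hf]
  change _ = (K.iCycles (n + 1)) ((K.toCycles n (n + 1)) f)
  rw [← ModuleCat.comp_apply, HomologicalComplex.toCycles_i]
  rw [groupCohomology.inhomogeneousCochains.d_def]

theorem d_iCocycles (n : ℕ) (x : groupCohomology.cocycles (ZRep G) n) :
    inhomogeneousCochains.d (ZRep G) n (groupCohomology.iCocycles (ZRep G) n x) = 0 := by
  let K := groupCohomology.inhomogeneousCochains (ZRep G)
  have := K.iCycles_d n (n + 1)
  rw [groupCohomology.inhomogeneousCochains.d_def] at this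
  have h2 := congrArg (fun f => (ModuleCat.Hom.hom f) x) this
  simpa using h2

end Pool.Agent.HL
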