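import Mathlib

/-!
Combinatorics of the pairings occurring in the model chain.
-/

namespace Pool.Agent.HL

section comb

variable {g d l μ : ℕ} [NeZero l]

/-- The labels of the slots. -/
def Psi (B : Fin g → Fin d) (b : Fin g → ZMod l) (x : Fin g × Fin 2) : Fin d × ZMod l :=
  (B x.1, b x.1 + ((x.2 : ℕ) : ZMod l))

/-- All nonzero labels are covered. -/
def Good (B : Fin g → Fin d) (b : Fin g → ZMod l) : Prop :=
  ∀ j c, c ≠ 0 → ∃ x, Psi B b x = (j, c)

theorem good_bij (hl : l = 2 * μ + 1) (hg : g = μ * d) {B : Fin g → Fin d} {b : Fin g → ZMod l}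
    (h : Good B b) : Function.Injective (Psi B b) ∧ ∀ x, (Psi B b x).2 ≠ 0 := by
  classical
  let S : Finset (Fin d × ZMod l) := Finset.univ.filter fun x => x.2 ≠ 0
  have hS : S.card = 2 * g := by
    have h1 : S = Finset.univ ×ˢ (Finset.univ.filter fun c : ZMod l => c ≠ 0) := by
      ext x; simp [S]
    rw [h1, Finset.card_product, Finset.card_univ, Fintype.card_fin, Finset.filter_ne',
      Finset.card_erase_of_mem (Finset.mem_univ _), Finset.card_univ, ZMod.card, hl, hg]
    simp only [Nat.add_sub_cancel]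
    ring
  have hsub : S ⊆ Finset.univ.image (Psi B b) := by
    intro x hx
    rw [Finset.mem_filter] at hx
    obtain ⟨y, hy⟩ := h x.1 x.2 hx.2
    exact Finset.mem_image.mpr ⟨y, Finset.mem_univ _, hy⟩
  have hcard : (Finset.univ : Finset (Fin g × Fin 2)).card = 2 * g := by
    rw [Finset.card_univ, Fintype.card_prod, Fintype.card_fin, Fintype.card_fin, mul_comm]
  have himg : (Finset.univ.image (Psi B b)).card ≤ S.card := by
    rw [hS, ← hcard]; exact Finset.card_image_le
  have heq := Finset.eq_of_subset_of_card_le hsub himg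
  constructor
  · have : (Finset.univ.image (Psi B b)).card = (Finset.univ : Finset (Fin g × Fin 2)).card := by
      rw [← heq, hS, hcard]
    have h2 := Finset.card_image_iff.mp this
    intro x y hxy
    exact h2 (by simp) (by simp) hxy
  · intro x
    have : Psi B b x ∈ S := by rw [heq]; exact Finset.mem_image_of_mem _ (Finset.mem_univ _)
    exact (Finset.mem_filter.mp this).2

theorem val_add_one_lt {c : ZMod l} (h : c + 1 ≠ 0) : c.val + 1 < l := by
  have h1 := ZMod.val_lt c
  by_contra hcon
  have h2 : c.val + 1 = l := by omega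
  apply h
  have h3 : ((c.val + 1 : ℕ) : ZMod l) = 0 := by rw [h2]; simp
  rw [← h3]
  push_cast
  rw [ZMod.natCast_zmod_val]

theorem val_succ {c : ZMod l} (h : c + 1 ≠ 0) : (c + 1).val = c.val + 1 := by
  have h1 := val_add_one_lt h
  have h2 : (((c.val + 1 : ℕ)) : ZMod l) = c + 1 := by push_cast; rw [ZMod.natCast_zmod_val]
  rw [← h2, ZMod.val_cast_of_lt h1]

theorem val_pos' {c : ZMod l} (h : c ≠ 0) : 0 < c.val := by
  rcases Nat.eq_zero_or_pos c.val with h1 | h1
  · exact absurd ((ZMod.val_eq_zero c).mp h1) h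
  · exact h1

theorem good_ne (hl : l = 2 * μ + 1) (hg : g = μ * d) {B : Fin g → Fin d} {b : Fin g → ZMod l}
    (h : Good B b) (s : Fin g) : b s ≠ 0 ∧ b s + 1 ≠ 0 := by
  have h1 := (good_bij hl hg h).2
  constructor
  · have := h1 (s, 0)
    simpa [Psi] using this
  · have := h1 (s, 1)
    simpa [Psi] using this

/-- In a good configuration the values are odd. -/
theorem good_odd (hl : l = 2 * μ + 1) (hg : g = μ * d) {B : Fin g → Fin d} {b : Fin g → ZMod l}
    (h : Good B b) (s : Fin g) : Odd (b s).val := by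
  have hinj := (good_bij hl hg h).1
  have hne := good_ne hl hg h
  by_contra hcon
  rw [Nat.not_odd_iff_even] at hcon
  -- strong induction on the value
  have main : ∀ v : ℕ, ∀ s : Fin g, (b s).val = v → ¬ Even v := by
    intro v
    induction v using Nat.strong_induction_on with
    | _ v ih =>
      intro s hs hev
      have hpos : 0 < v := by rw [← hs]; exact val_pos' (hne s).1
      have hv2 : 2 ≤ v := by
        obtain ⟨w, hw⟩ := hev
        omega
      -- the label `v - 1`
      have hlt := ZMod.val_lt (b s)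
      have hc : (((v - 1 : ℕ)) : ZMod l) ≠ 0 := by
        intro h0
        have h1 : (((v - 1 : ℕ)) : ZMod l).val = v - 1 := ZMod.val_cast_of_lt (by omega)
        rw [h0, ZMod.val_zero] at h1
        omega
      obtain ⟨x, hx⟩ := h (B s) _ hc
      have hx1 : B x.1 = B s := congrArg Prod.fst hx
      have hx2 : b x.1 + ((x.2 : ℕ) : ZMod l) = (((v - 1 : ℕ)) : ZMod l) := congrArg Prod.snd hx
      have hxe : (x.2 : ℕ) = 0 ∨ (x.2 : ℕ) = 1 := by have := x.2.isLt; omega
      have hcast : (((v - 1 : ℕ)) : ZMod l) + 1 = b s := by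
        have : (((v - 1 + 1 : ℕ)) : ZMod l) = b s := by
          rw [Nat.sub_add_cancel (by omega), ← hs, ZMod.natCast_zmod_val]
        rw [← this]; push_cast; rfl
      rcases hxe with he | he
      · rw [he, Nat.cast_zero, add_zero] at hx2
        -- then `b x.1 + 1 = b s`
        have h2 : Psi B b (x.1, 1) = Psi B b (s, 0) := by
          simp only [Psi, Prod.mk.injEq]
          refine ⟨hx1, ?_⟩
          rw [hx2]
          simpa using hcast
        have h3 := hinj h2
        have h4 := congrArg Prod.snd h3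
        simp at h4
      · rw [he, Nat.cast_one] at hx2
        have h2 : (b x.1).val + 1 = v - 1 := by
          rw [← val_succ (hne x.1).2, hx2]
          exact ZMod.val_cast_of_lt (by omega)
        refine ih (v - 2) (by omega) x.1 (by omega) ?_
        obtain ⟨w, hw⟩ := hev
        exact ⟨w - 1, by omega⟩
  exact main _ s rfl hcon

theorem good_match (hl : l = 2 * μ + 1) (hg : g = μ * d) {B : Fin g → Fin d}
    {b b' : Fin g → ZMod l} (h : Good B b) (h' : Good B b') (s : Fin g) :
    ∃ s', B s' = B s ∧ b' s' = b s := by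
  obtain ⟨x, hx⟩ := h' (B s) (b s) (good_ne hl hg h s).1
  have hx1 : B x.1 = B s := congrArg Prod.fst hx
  have hx2 : b' x.1 + ((x.2 : ℕ) : ZMod l) = b s := congrArg Prod.snd hx
  have hxe : (x.2 : ℕ) = 0 ∨ (x.2 : ℕ) = 1 := by have := x.2.isLt; omega
  rcases hxe with he | he
  · rw [he, Nat.cast_zero, add_zero] at hx2
    exact ⟨x.1, hx1, hx2⟩
  · exfalso
    rw [he, Nat.cast_one] at hx2
    have h1 := good_odd hl hg h s
    have h2 := good_odd hl hg h' x.1
    rw [← hx2, val_succ (good_ne hl hg h' x.1).2] at h1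
    rw [Nat.odd_add_one] at h1
    exact h1 h2

theorem good_perm (hl : l = 2 * μ + 1) (hg : g = μ * d) {B : Fin g → Fin d}
    {b b' : Fin g → ZMod l} (h : Good B b) (h' : Good B b') :
    ∃ β : Equiv.Perm (Fin g), B ∘ β = B ∧ b' ∘ β = b := by
  choose f hf1 hf2 using good_match hl hg h h'
  have hinj : Function.Injective f := by
    intro s t hst
    have h1 : Psi B b (s, 0) = Psi B b (t, 0) := by
      simp only [Psi, Prod.mk.injEq]
      refine ⟨by rw [← hf1 s, ← hf1 t, hst], by rw [← hf2 s, ← hf2 t, hst]⟩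
    exact congrArg Prod.fst ((good_bij hl hg h).1 h1)
  have hbij : Function.Bijective f := Finite.injective_iff_bijective.mp hinj
  refine ⟨Equiv.ofBijective f hbij, ?_, ?_⟩
  · funext s; exact hf1 s
  · funext s; exact hf2 s

theorem good_comp {B : Fin g → Fin d} {b : Fin g → ZMod l} (h : Good B b)
    (β : Equiv.Perm (Fin g)) (hβ : B ∘ β = B) : Good B (b ∘ β) := by
  intro j c hc
  obtain ⟨x, hx⟩ := h j c hc
  refine ⟨(β.symm x.1, x.2), ?_⟩
  rw [← hx]
  have h1 : B (β.symm x.1) = B x.1 := by
    have := congrFun hβ (β.symm x.1)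
    simpa using this.symm
  simp only [Psi, Function.comp_apply, Equiv.apply_symm_apply, h1]

/-- The number of good configurations. -/
theorem good_count (hl : l = 2 * μ + 1) (hg : g = μ * d) {B : Fin g → Fin d}
    {b : Fin g → ZMod l} (h : Good B b) [DecidablePred (Good (l := l) B)] :
    (Finset.univ.filter (fun b' : Fin g → ZMod l => Good B b')).card =
      ∏ j : Fin d, (Fintype.card {s // B s = j}).factorial := by
  classical
  rw [← DomMulAct.stabilizer_card B, ← Fintype.card_coe]
  symm
  refine Fintype.card_congr (Equiv.ofBijective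
    (fun β : {β : Equiv.Perm (Fin g) // B ∘ β = B} =>
      (⟨b ∘ β.1, by
        rw [Finset.mem_filter]; exact ⟨Finset.mem_univ _, good_comp h β.1 β.2⟩⟩ :
        {x // x ∈ Finset.univ.filter (fun b' : Fin g → ZMod l => Good B b')})) ⟨?_, ?_⟩)
  · intro β β' hββ
    have h1 : b ∘ β.1 = b ∘ β'.1 := congrArg Subtype.val hββ
    apply Subtype.ext
    ext1 s
    have h2 : Psi B b (β.1 s, 0) = Psi B b (β'.1 s, 0) := by
      simp only [Psi, Prod.mk.injEq]
      refine ⟨?_, ?_⟩
      · have h3 := congrFun β.2 s
        have h4 := congrFun β'.2 s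
        simp only [Function.comp_apply] at h3 h4
        rw [h3, h4]
      · have h3 := congrFun h1 s
        simp only [Function.comp_apply] at h3
        rw [h3]
    exact congrArg Prod.fst ((good_bij hl hg h).1 h2)
  · rintro ⟨b', hb'⟩
    rw [Finset.mem_filter] at hb'
    obtain ⟨β, hβ1, hβ2⟩ := good_perm hl hg hb'.2 h
    exact ⟨⟨β, hβ1⟩, Subtype.ext hβ2⟩

theorem good_count_prime (hlp : l.Prime) (hl : l = 2 * μ + 1) (hg : g = μ * d) {B : Fin g → Fin d}
    (hB : ∀ j, Fintype.card {s // B s = j} = μ)
    {b : Fin g → ZMod l} (h : Good B b) [DecidablePred (Good (l := l) B)] :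
    ¬ l ∣ (Finset.univ.filter (fun b' : Fin g → ZMod l => Good B b')).card := by
  rw [good_count hl hg h]
  simp only [hB]
  rw [Finset.prod_const]
  intro hd
  have := hlp.dvd_of_dvd_pow hd
  rw [hlp.dvd_factorial] at this
  omega

end comb

end Pool.Agent.HL
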