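import Pool.Agent.Lib_helper43.HL.Hodge

/-!
Part D, abstract half: cyclic subgroups of order `N`.
-/

namespace Pool.Agent.HL

open Finsupp Matrix CategoryTheory

variable {G : Type} [Group G]

/-- The operators of the periodic resolution of a cyclic group of order `N`. -/
noncomputable def sn {X : Type*} [MulAction G X] (h : G) (N k j : ℕ) : T X j →ₗ[ℤ] T X j :=
  if Even k then ac h j - LinearMap.id else nm h N j

theorem sn_even {X : Type*} [MulAction G X] (h : G) (N k j : ℕ) (hk : Even k) (x : T X j) :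
    sn h N k j x = ac h j x - x := by
  rw [sn, if_pos hk]; rfl

theorem sn_odd {X : Type*} [MulAction G X] (h : G) (N k j : ℕ) (hk : ¬ Even k) (x : T X j) :
    sn h N k j x = nm h N j x := by
  rw [sn, if_neg hk]

theorem bd_sn {X : Type*} [MulAction G X] (h : G) (N k j : ℕ) (x : T X (j + 1)) :
    bd j (sn h N k (j + 1) x) = sn h N k j (bd j x) := by
  by_cases hk : Even k
  · rw [sn_even _ _ _ _ hk, sn_even _ _ _ _ hk, map_sub, bd_ac]
  · rw [sn_odd _ _ _ _ hk, sn_odd _ _ _ _ hk, bd_nm]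

theorem sn_sn {X : Type*} [MulAction G X] (h : G) (N : ℕ) (hN : h ^ N = 1) (k j : ℕ)
    (x : T X j) : sn h N (k + 1) j (sn h N k j x) = 0 := by
  by_cases hk : Even k
  · have hk' : ¬ Even (k + 1) := by rw [Nat.even_add_one]; simpa using hk
    rw [sn_even _ _ _ _ hk, sn_odd _ _ _ _ hk', map_sub, nm_ac, ac_nm, hN, ac_one, sub_self]
  · have hk' : Even (k + 1) := by rw [Nat.even_add_one]; exact hk
    rw [sn_odd _ _ _ _ hk, sn_even _ _ _ _ hk', ac_nm, hN, ac_one, sub_self]

theorem sn_two {X : Type*} [MulAction G X] (h : G) (N k j : ℕ) (x : T X j) :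
    sn h N (k + 2) j x = sn h N k j x := by
  by_cases hk : Even k
  · rw [sn_even _ _ _ _ hk, sn_even _ _ _ _ (by simpa [Nat.even_add] using hk)]
  · rw [sn_odd _ _ _ _ hk, sn_odd _ _ _ _ (by simpa [Nat.even_add] using hk)]

/-- The chains `c_k(h)` of the cyclic group generated by `h`. -/
noncomputable def cn (h : G) (N : ℕ) : (k : ℕ) → T G (k + 1)
  | 0 => Finsupp.single (fun _ => 1) 1
  | (k + 1) => cone 1 (k + 1) (sn h N k (k + 1) (cn h N k))

theorem bd_cn_zero (h : G) (N : ℕ) : bd 0 (cn h N 0) = Finsupp.single default 1 :=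
  bd_cz_zero (1 : G)

theorem bd_cn (h : G) (N : ℕ) (hN : h ^ N = 1) (k : ℕ) :
    bd (k + 1) (cn h N (k + 1)) = sn h N k (k + 1) (cn h N k) := by
  rw [cn, bd_cone, bd_sn]
  cases k with
  | zero =>
    have h1 : sn h N 0 0 (Finsupp.single default 1 : T G 0) = 0 := by
      rw [sn_even _ _ _ _ Even.zero, ac_zero_deg, sub_self]
    rw [bd_cn_zero, h1, map_zero, sub_zero]
  | succ k =>
    rw [bd_cn h N hN k, sn_sn h N hN, map_zero, sub_zero]

theorem nm_mul {X : Type*} [MulAction G X] (h : G) (L l j : ℕ) (x : T X j) :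
    nm h (L * l) j x = nm (h ^ L) l j (nm h L j x) := by
  induction l with
  | zero => simp [nm_apply]
  | succ l ih =>
    rw [nm_apply, Nat.mul_succ, Finset.sum_range_add, ← nm_apply, ih, nm_apply (h ^ L) (l + 1),
      Finset.sum_range_succ, ← nm_apply]
    congr 1
    rw [nm_apply, map_sum]
    refine Finset.sum_congr rfl fun i _ => ?_
    rw [← ac_mul, ← pow_mul, pow_add]

theorem nn_sn {X : Type*} [MulAction G X] (h : G) (L l : ℕ) (k j : ℕ)
    (x : T X j) : nn h L (k + 1) j (sn h (L * l) k j x) = sn (h ^ L) l k j (nn h L k j x) := by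
  by_cases hk : Even k
  · have hk' : ¬ Even (k + 1) := by rw [Nat.even_add_one]; simpa using hk
    rw [sn_even _ _ _ _ hk, nn_odd _ _ _ _ hk', nn_even _ _ _ _ hk, map_sub, nm_ac, ac_nm,
      sn_even _ _ _ _ hk]
  · have hk' : Even (k + 1) := by rw [Nat.even_add_one]; exact hk
    rw [sn_odd _ _ _ _ hk, nn_even _ _ _ _ hk', nn_odd _ _ _ _ hk, sn_odd _ _ _ _ hk, nm_mul]

/-- The comparison chains. -/
noncomputable def un (h : G) (L l : ℕ) : (k : ℕ) → T G (k + 1)
  | 0 => 0
  | (k + 1) => cone 1 (k + 1) (cn (h ^ L) l k - nn h L k (k + 1) (cn h (L * l) k) -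
      sn (h ^ L) l (k + 1) (k + 1) (un h L l k))

theorem bd_un (h : G) (L l : ℕ) (hN : h ^ (L * l) = 1) (k : ℕ) :
    bd (k + 1) (un h L l (k + 1)) = cn (h ^ L) l k - nn h L k (k + 1) (cn h (L * l) k) -
      sn (h ^ L) l (k + 1) (k + 1) (un h L l k) := by
  have hl : (h ^ L) ^ l = 1 := by rw [← pow_mul]; exact hN
  have h2 : un h L l (k + 1) = cone 1 (k + 1) (cn (h ^ L) l k -
      nn h L k (k + 1) (cn h (L * l) k) - sn (h ^ L) l (k + 1) (k + 1) (un h L l k)) := rfl
  rw [h2, bd_cone]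
  induction k with
  | zero =>
    have h1 : bd 0 (cn (h ^ L) l 0 - nn h L 0 (0 + 1) (cn h (L * l) 0) -
      sn (h ^ L) l (0 + 1) (0 + 1) (un h L l 0)) = 0 := by
      simp only [un, map_sub, map_zero, bd_nn, bd_cn_zero, sub_zero]
      rw [nn_even _ _ _ _ Even.zero, sub_self]
    rw [h1, map_zero, sub_zero]
  | succ k ih =>
    have ih' := ih rfl
    have h3 : un h L l (k + 1) = cone 1 (k + 1) (cn (h ^ L) l k -
      nn h L k (k + 1) (cn h (L * l) k) - sn (h ^ L) l (k + 1) (k + 1) (un h L l k)) := rfl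
    have h4 : bd (k + 1) (un h L l (k + 1)) = cn (h ^ L) l k -
      nn h L k (k + 1) (cn h (L * l) k) - sn (h ^ L) l (k + 1) (k + 1) (un h L l k) := by
      rw [h3, bd_cone]; exact ih'
    have h1 : bd (k + 1) (cn (h ^ L) l (k + 1) - nn h L (k + 1) (k + 1 + 1) (cn h (L * l) (k + 1))
        - sn (h ^ L) l (k + 1 + 1) (k + 1 + 1) (un h L l (k + 1))) = 0 := by
      simp only [map_sub, bd_cn _ _ hl, bd_cn _ _ hN, bd_nn, bd_sn, h4, nn_sn]
      rw [sn_sn _ _ hl, sn_two, sn_two]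
      simp
    rw [h1, map_zero, sub_zero]

/-- **D1 + D2.** If the cocycle `E` of even degree `n` takes on the chain `c_n(h^L)` a value prime
to the prime `l`, where `h` has `h ^ (L l) = 1` and `L` is a power of `l`, then `L l` divides
every `M` such that `M E` is a coboundary. -/
theorem cyc_dvd (h : G) (l a : ℕ) (hl : l.Prime) (hN : h ^ (l ^ a * l) = 1) (k : ℕ) (hk : Even k)
    (A : T G (k + 2) →ₗ[ℤ] ℤ) (E : T G (k + 3) →ₗ[ℤ] ℤ)
    (hA : ∀ (g : G) x, A (ac g (k + 2) x) = A x)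
    (hE : ∀ (g : G) x, E (ac g (k + 3) x) = E x)
    (hEb : ∀ x, E (bd (k + 3) x) = 0) (M : ℤ)
    (hAE : ∀ x, A (bd (k + 2) x) = M * E x)
    (hprime : ¬ (l : ℤ) ∣ E (cn (h ^ (l ^ a)) l (k + 2))) :
    ((l : ℤ) ^ (a + 1)) ∣ M := by
  set L := l ^ a with hL
  have hkk : Even (k + 2) := hk.add (by decide)
  have hkk' : ¬ Even (k + 2 + 1) := by rw [Nat.even_add_one]; simpa using hkk
  have h3 : E (cn (h ^ L) l (k + 2)) = E (cn h (L * l) (k + 2)) + l * E (un h L l (k + 2)) := by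
    have h4 := bd_un h L l hN (k + 2)
    have h5 := hEb (un h L l (k + 2 + 1))
    rw [nn_even _ _ _ _ hkk, sn_odd _ _ _ _ hkk'] at h4
    have h6 : bd (k + 3) (un h L l (k + 2 + 1)) = cn (h ^ L) l (k + 2) - cn h (L * l) (k + 2)
        - nm (h ^ L) l (k + 3) (un h L l (k + 2)) := h4
    rw [h6, map_sub, map_sub, nm_apply, map_sum] at h5
    simp only [hE, Finset.sum_const, Finset.card_range, nsmul_eq_mul] at h5
    linarith
  have h7 : M * E (cn h (L * l) (k + 2)) = ((L * l : ℕ) : ℤ) * A (cn h (L * l) (k + 1)) := by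
    have h8 := hAE (cn h (L * l) (k + 2))
    have hk' : ¬ Even (k + 1) := by rw [Nat.even_add_one]; simpa using hk
    have h9 : bd (k + 2) (cn h (L * l) (k + 2)) = nm h (L * l) (k + 2) (cn h (L * l) (k + 1)) := by
      have := bd_cn h (L * l) hN (k + 1)
      rw [sn_odd _ _ _ _ hk'] at this
      exact this
    rw [h9, nm_apply, map_sum] at h8
    simp only [hA, Finset.sum_const, Finset.card_range, nsmul_eq_mul] at h8
    exact h8.symm
  have hnd : ¬ (l : ℤ) ∣ E (cn h (L * l) (k + 2)) := by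
    intro hd
    apply hprime
    rw [h3]
    exact dvd_add hd (dvd_mul_right _ _)
  have hcop : IsCoprime ((l : ℤ) ^ (a + 1)) (E (cn h (L * l) (k + 2))) := by
    apply IsCoprime.pow_left
    rw [Int.isCoprime_iff_gcd_eq_one]
    have hp : Prime (l : ℤ) := Nat.prime_iff_prime_int.mp hl
    exact Int.isCoprime_iff_gcd_eq_one.mp ((Prime.coprime_iff_not_dvd hp).mpr hnd)
  have hdvd : ((l : ℤ) ^ (a + 1)) ∣ M * E (cn h (L * l) (k + 2)) := by
    rw [h7]
    refine Dvd.dvd.mul_right ?_ _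
    rw [hL]
    push_cast
    rw [pow_succ]
  exact hcop.dvd_of_dvd_mul_right hdvd

end Pool.Agent.HL
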