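import Pool.Agent.Lib_helper43.HL.Cyc

/-!
Part D: comparison of the Euler cocycle on a cyclic group of order `l` with a model chain.
-/

namespace Pool.Agent.HL

open Finsupp Matrix CategoryTheory

section sl

variable {n : ℕ}

/-- The operators of the periodic resolution, on chains of vectors. -/
noncomputable def sl (M : Matrix (Fin n) (Fin n) ℝ) (l k j : ℕ) :
    T (Fin n → ℝ) j →ₗ[ℤ] T (Fin n → ℝ) j :=
  if Even k then lm M j - LinearMap.id else ∑ i ∈ Finset.range l, lm (M ^ i) j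

theorem sl_even (M : Matrix (Fin n) (Fin n) ℝ) (l k j : ℕ) (hk : Even k) (x : T (Fin n → ℝ) j) :
    sl M l k j x = lm M j x - x := by
  rw [sl, if_pos hk]; rfl

theorem sl_odd (M : Matrix (Fin n) (Fin n) ℝ) (l k j : ℕ) (hk : ¬ Even k) (x : T (Fin n → ℝ) j) :
    sl M l k j x = ∑ i ∈ Finset.range l, lm (M ^ i) j x := by
  rw [sl, if_neg hk, LinearMap.sum_apply]

theorem bd_sl (M : Matrix (Fin n) (Fin n) ℝ) (l k j : ℕ) (x : T (Fin n → ℝ) (j + 1)) :
    bd j (sl M l k (j + 1) x) = sl M l k j (bd j x) := by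
  by_cases hk : Even k
  · rw [sl_even _ _ _ _ hk, sl_even _ _ _ _ hk, map_sub, bd_lm]
  · rw [sl_odd _ _ _ _ hk, sl_odd _ _ _ _ hk, map_sum]
    exact Finset.sum_congr rfl fun i _ => bd_lm _ _ _

theorem sum_lm_sub (M : Matrix (Fin n) (Fin n) ℝ) (l j : ℕ) (hM : M ^ l = 1)
    (x : T (Fin n → ℝ) j) :
    ∑ i ∈ Finset.range l, lm (M ^ i) j (lm M j x) = ∑ i ∈ Finset.range l, lm (M ^ i) j x := by
  have h1 : ∀ i, lm (M ^ i) j (lm M j x) = lm (M ^ (i + 1)) j x := by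
    intro i; rw [← lm_mul, pow_succ]
  simp only [h1]
  rw [← sub_eq_zero, ← Finset.sum_sub_distrib, Finset.sum_range_sub (fun i => lm (M ^ i) j x), hM,
    pow_zero, sub_self]

theorem lm_sum (M : Matrix (Fin n) (Fin n) ℝ) (l j : ℕ) (hM : M ^ l = 1)
    (x : T (Fin n → ℝ) j) :
    lm M j (∑ i ∈ Finset.range l, lm (M ^ i) j x) = ∑ i ∈ Finset.range l, lm (M ^ i) j x := by
  rw [map_sum]
  have h1 : ∀ i, lm M j (lm (M ^ i) j x) = lm (M ^ (i + 1)) j x := by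
    intro i; rw [← lm_mul, pow_succ']
  simp only [h1]
  rw [← sub_eq_zero, ← Finset.sum_sub_distrib, Finset.sum_range_sub (fun i => lm (M ^ i) j x), hM,
    pow_zero, sub_self]

theorem sl_sl (M : Matrix (Fin n) (Fin n) ℝ) (l k j : ℕ) (hM : M ^ l = 1)
    (x : T (Fin n → ℝ) j) : sl M l (k + 1) j (sl M l k j x) = 0 := by
  by_cases hk : Even k
  · have hk' : ¬ Even (k + 1) := by rw [Nat.even_add_one]; simpa using hk
    rw [sl_even _ _ _ _ hk, sl_odd _ _ _ _ hk']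
    simp only [map_sub, Finset.sum_sub_distrib]
    rw [sum_lm_sub M l j hM, sub_self]
  · have hk' : Even (k + 1) := by rw [Nat.even_add_one]; exact hk
    rw [sl_odd _ _ _ _ hk, sl_even _ _ _ _ hk', lm_sum M l j hM, sub_self]

theorem sl_two (M : Matrix (Fin n) (Fin n) ℝ) (l k j : ℕ) (x : T (Fin n → ℝ) j) :
    sl M l (k + 2) j x = sl M l k j x := by
  by_cases hk : Even k
  · rw [sl_even _ _ _ _ hk, sl_even _ _ _ _ (by simpa [Nat.even_add] using hk)]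
  · rw [sl_odd _ _ _ _ hk, sl_odd _ _ _ _ (by simpa [Nat.even_add] using hk)]

theorem det_pow_ne (M : Matrix (Fin n) (Fin n) ℝ) (hM : M.det ≠ 0) (i : ℕ) :
    (M ^ i).det ≠ 0 := by
  rw [Matrix.det_pow]; exact pow_ne_zero _ hM

theorem sl_KC (M : Matrix (Fin n) (Fin n) ℝ) (hM : M.det ≠ 0) (l k j : ℕ)
    (x : T (Fin n → ℝ) j) (hx : x ∈ KC n j) : sl M l k j x ∈ KC n j := by
  by_cases hk : Even k
  · rw [sl_even _ _ _ _ hk]
    exact Submodule.sub_mem _ (lm_KC _ hM x hx) hx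
  · rw [sl_odd _ _ _ _ hk]
    exact Submodule.sum_mem _ fun i _ => lm_KC _ (det_pow_ne M hM i) x hx

/-- Comparison lemma for a periodic matrix. -/
theorem compareN (m : ℕ) (M : Matrix (Fin (m + 1)) (Fin (m + 1)) ℝ) (hMd : M.det ≠ 0) (l : ℕ)
    (hM : M ^ l = 1) (r : ∀ k, T (Fin (m + 1) → ℝ) (k + 1))
    (hK : ∀ k ≤ m, r k ∈ KC (m + 1) (k + 1)) (h0 : bd 0 (r 0) = 0)
    (hr : ∀ k, k + 1 ≤ m → bd (k + 1) (r (k + 1)) = sl M l k (k + 1) (r k)) :
    ∃ ζ : T (Fin (m + 1) → ℝ) (m + 1), ζ ∈ KC (m + 1) (m + 1) ∧ bd m ζ = 0 ∧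
      sl M l m (m + 1) (r m) = sl M l m (m + 1) ζ := by
  let y : ∀ k, T (Fin (m + 1) → ℝ) (k + 1) := fun k =>
    Nat.rec (motive := fun k => T (Fin (m + 1) → ℝ) (k + 1)) 0
    (fun k yk => fil (k + 1) (r k - sl M l (k + 1) (k + 1) yk)) k
  have hy : ∀ k, y (k + 1) = fil (k + 1) (r k - sl M l (k + 1) (k + 1) (y k)) := fun k => rfl
  have hy0 : y 0 = 0 := rfl
  have hyK : ∀ k ≤ m, y k ∈ KC (m + 1) (k + 1) := by
    intro k
    induction k with
    | zero => intro _; rw [hy0]; exact Submodule.zero_mem _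
    | succ k ih =>
      intro hk
      rw [hy]
      exact fil_KC _ (Submodule.sub_mem _ (hK k (by omega)) (sl_KC _ hMd _ _ _ _ (ih (by omega))))
  have hcyc : ∀ k ≤ m, bd k (r k - sl M l (k + 1) (k + 1) (y k)) = 0 := by
    intro k
    induction k with
    | zero => intro _; rw [hy0, map_zero, sub_zero, h0]
    | succ k ih =>
      intro hk
      have h1 : bd (k + 1) (y (k + 1)) = r k - sl M l (k + 1) (k + 1) (y k) := by
        rw [hy, bd_fil (by omega) _ (ih (by omega))]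
      rw [map_sub, hr k hk, bd_sl, h1, map_sub, sl_sl _ _ _ _ hM, sub_zero, sl_two, sub_self]
  refine ⟨r m - sl M l (m + 1) (m + 1) (y m), Submodule.sub_mem _ (hK m le_rfl)
    (sl_KC _ hMd _ _ _ _ (hyK m le_rfl)), hcyc m le_rfl, ?_⟩
  rw [map_sub, ← sl_two M l m (m + 1) (sl M l (m + 1) (m + 1) (y m)), sl_sl _ _ _ _ hM, sub_zero]

end sl

variable {G : Type} [Group G]

/-- The value of the Euler cocycle on the top chain of a cyclic group of order `l` is congruent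
modulo `l` to the winding number of the norm of any model chain. -/
theorem eCo_cyc {m : ℕ} (hm : Odd m) (ρ : G →* Matrix (Fin (m + 1)) (Fin (m + 1)) ℝ)
    (hρ : ∀ g, 0 < (ρ g).det) {F : (k : ℕ) → T G k →ₗ[ℤ] T (Fin (m + 1) → ℝ) k} (hF : Adm ρ F)
    (u : G) (l : ℕ) (hu : u ^ l = 1)
    (σ : ∀ k, T (Fin (m + 1) → ℝ) (k + 1))
    (hK : ∀ k ≤ m, σ k ∈ KC (m + 1) (k + 1)) (h0 : bd 0 (σ 0) = Finsupp.single default 1)
    (hσ : ∀ k, k + 1 ≤ m → bd (k + 1) (σ (k + 1)) = sl (ρ u) l k (k + 1) (σ k))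
    (htop : bd m (sl (ρ u) l m (m + 1) (σ m)) = 0) :
    ∃ t : ℤ, hom (m + 1) (eCo F) (cn u l (m + 1)) =
      wind (sl (ρ u) l m (m + 1) (σ m)) + l * t := by
  have hm' : ¬ Even m := Nat.not_even_iff_odd.mpr hm
  have hU : (ρ u) ^ l = 1 := by rw [← map_pow, hu, map_one]
  have hUd : (ρ u).det ≠ 0 := (hρ u).ne'
  rw [hom_eCo hρ hF, bd_cn u l hu]
  have hFsn : ∀ k j, j ≤ m + 1 → ∀ x, F j (sn u l k j x) = sl (ρ u) l k j (F j x) := by
    intro k j hj x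
    by_cases hk : Even k
    · rw [sn_even _ _ _ _ hk, map_sub, hF.equi j hj, sl_even _ _ _ _ hk]
    · rw [sn_odd _ _ _ _ hk, nm_apply, map_sum, sl_odd _ _ _ _ hk]
      refine Finset.sum_congr rfl fun i _ => ?_
      rw [hF.equi j hj, map_pow]
  let s : ∀ k, T (Fin (m + 1) → ℝ) (k + 1) := fun k => F (k + 1) (cn u l k)
  have hsbd : ∀ k, k + 1 ≤ m → bd (k + 1) (s (k + 1)) = sl (ρ u) l k (k + 1) (s k) := by
    intro k hk
    change bd (k + 1) (F (k + 1 + 1) (cn u l (k + 1))) = _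
    rw [hF.bdF (k + 1) (by omega), bd_cn u l hu, hFsn _ _ (by omega)]
  have hs0 : bd 0 (s 0) = Finsupp.single default 1 := by
    change bd 0 (F (0 + 1) (cn u l 0)) = _
    rw [hF.bdF 0 (by omega), bd_cn_zero, hF.aug]
  obtain ⟨ζ, hζK, hζb, hζ⟩ := compareN m (ρ u) hUd l hU (fun k => s k - σ k)
    (fun k hk => Submodule.sub_mem _ (hF.off _ (by omega) _) (hK k hk))
    (by rw [map_sub, hs0, h0, sub_self])
    (fun k hk => by rw [map_sub, hsbd k hk, hσ k hk, map_sub])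
  have h1 : F (m + 1) (sn u l m (m + 1) (cn u l m)) =
      sl (ρ u) l m (m + 1) (σ m) + sl (ρ u) l m (m + 1) ζ := by
    rw [hFsn _ _ le_rfl, ← hζ, map_sub]
    change sl (ρ u) l m (m + 1) (s m) = _
    abel
  have hN : ∀ q : ℕ, (∑ i ∈ Finset.range q, lm (ρ u ^ i) (m + 1) ζ) ∈ KC (m + 1) (m + 1) ∧
      bd m (∑ i ∈ Finset.range q, lm (ρ u ^ i) (m + 1) ζ) = 0 ∧
      wind (∑ i ∈ Finset.range q, lm (ρ u ^ i) (m + 1) ζ) = q * wind ζ := by
    intro q
    induction q with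
    | zero => simp [wind_zero]
    | succ q ih =>
      obtain ⟨ih1, ih2, ih3⟩ := ih
      have hpos : 0 < (ρ u ^ q).det := by rw [Matrix.det_pow]; exact pow_pos (hρ u) q
      have hk1 := lm_KC (ρ u ^ q) hpos.ne' ζ hζK
      have hb1 : bd m (lm (ρ u ^ q) (m + 1) ζ) = 0 := by rw [bd_lm, hζb, map_zero]
      rw [Finset.sum_range_succ]
      refine ⟨Submodule.add_mem _ ih1 hk1, by rw [map_add, ih2, hb1, add_zero], ?_⟩
      rw [wind_add m _ _ ih1 hk1 ih2 hb1, ih3, wind_lm m _ hpos ζ hζK hζb]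
      push_cast
      ring
  have h2 : wind (sl (ρ u) l m (m + 1) ζ) = l * wind ζ := by
    rw [sl_odd _ _ _ _ hm']
    exact (hN l).2.2
  refine ⟨wind ζ, ?_⟩
  rw [h1, wind_add m _ _ (sl_KC _ hUd _ _ _ _ (hK m le_rfl)) (sl_KC _ hUd _ _ _ _ hζK) htop ?_, h2]
  rw [bd_sl, hζb, map_zero]

end Pool.Agent.HL
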