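import Pool.Agent.Lib_helper43.HL.WindC
import Pool.Agent.Lib_helper43.HL.Coho

/-!
The integral Euler class of the flat oriented vector bundle attached to an
orientation-preserving linear representation of a discrete group.
-/

namespace Pool.Agent.HL

open Finsupp Matrix CategoryTheory

variable {G : Type} [Group G] {n : ℕ}

/-- `F` is an admissible partial chain map for the representation `ρ`: a family of additive,
`G`-equivariant, augmentation-preserving maps in degrees `< n` from the standard (homogeneous bar)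
resolution of `G` to the affine chains of `ℝ^n ∖ {0}`, commuting with boundaries.
(The index `k` is the number of vertices, i.e. degree plus one.) -/
structure Adm (ρ : G →* Matrix (Fin n) (Fin n) ℝ) (F : (k : ℕ) → T G k →ₗ[ℤ] T (Fin n → ℝ) k) :
    Prop where
  aug : F 0 (Finsupp.single default 1) = Finsupp.single default 1
  off : ∀ k ≤ n, ∀ x, F k x ∈ KC n k
  equi : ∀ k ≤ n, ∀ (g : G) x, F k (ac g k x) = lm (ρ g) k (F k x)
  bdF : ∀ k < n, ∀ x, bd k (F (k + 1) x) = F k (bd k x)

/-- The obstruction cochain of a partial chain map: the winding number around the origin of the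
image of the boundary of the simplex `(1, g₁, g₁g₂, …)`. -/
noncomputable def eCo (F : (k : ℕ) → T G k →ₗ[ℤ] T (Fin n → ℝ) k) (g : Fin n → G) : ℤ :=
  wind (F n (bd n (Finsupp.single (Fin.partialProd g) 1)))

theorem T_zero_ext {X : Type*} (x : T X 0) : x = x default • Finsupp.single default 1 := by
  refine Finsupp.ext fun v => ?_
  have : v = default := Subsingleton.elim _ _
  rw [this]
  simp

theorem bd_F_bd {ρ : G →* Matrix (Fin n) (Fin n) ℝ} {F : (k : ℕ) → T G k →ₗ[ℤ] T (Fin n → ℝ) k}
    (hF : Adm ρ F) {k : ℕ} (hk : k < n) (x : T G (k + 2)) : bd k (F (k + 1) (bd (k + 1) x)) = 0 := by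
  rw [hF.bdF k hk, bd_bd, map_zero]

/-- The homogeneous form of the obstruction cochain. -/
theorem hom_eCo {m : ℕ} {ρ : G →* Matrix (Fin (m + 1)) (Fin (m + 1)) ℝ} (hρ : ∀ g, 0 < (ρ g).det)
    {F : (k : ℕ) → T G k →ₗ[ℤ] T (Fin (m + 1) → ℝ) k}
    (hF : Adm ρ F) (x : T G (m + 2)) :
    hom (m + 1) (eCo F) x = wind (F (m + 1) (bd (m + 1) x)) := by
  have hs : ∀ v : Fin (m + 2) → G, hom (m + 1) (eCo F) (Finsupp.single v 1) =
      wind (F (m + 1) (bd (m + 1) (Finsupp.single v 1))) := by
    intro v
    rw [hom_single, one_mul, eCo]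
    have h1 : Finsupp.single v (1 : ℤ) = ac (v 0) (m + 2)
        (Finsupp.single (Fin.partialProd fun i : Fin (m + 1) => (v i.castSucc)⁻¹ * v i.succ) 1) := by
      rw [ac_single, Fin.partialProd_left_inv]
    conv_rhs => rw [h1, bd_ac, hF.equi _ le_rfl]
    rw [wind_lm m _ (hρ _) _ (hF.off _ le_rfl _) (bd_F_bd hF (Nat.lt_succ_self m) _)]
  induction x using Finsupp.induction_linear with
  | zero => simp [wind_zero]
  | add x y hx hy =>
    rw [map_add, hx, hy, map_add, map_add, wind_add m _ _ (hF.off _ le_rfl _) (hF.off _ le_rfl _)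
      (bd_F_bd hF (Nat.lt_succ_self m) _) (bd_F_bd hF (Nat.lt_succ_self m) _)]
  | single v a =>
    have h1 : Finsupp.single v a = a • Finsupp.single v (1 : ℤ) := by simp
    rw [h1, map_smul, hs, map_smul, map_smul, wind_smul m _ _ (hF.off _ le_rfl _)
      (bd_F_bd hF (Nat.lt_succ_self m) _), smul_eq_mul]

theorem hom_ext' {k : ℕ} {f f' : (Fin k → G) → ℤ} (h : ∀ x, hom k f x = hom k f' x) : f = f' := by
  funext g
  have := h (Finsupp.single (Fin.partialProd g) 1)
  rw [hom_single, hom_single, one_mul, one_mul] at this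
  have h2 : (fun i : Fin k => (Fin.partialProd g i.castSucc)⁻¹ * Fin.partialProd g i.succ) = g := by
    funext i
    exact Fin.partialProd_right_inv g i
  rw [h2] at this
  exact this

/-- The obstruction cochain is a cocycle. -/
theorem d_eCo {m : ℕ} {ρ : G →* Matrix (Fin (m + 1)) (Fin (m + 1)) ℝ} (hρ : ∀ g, 0 < (ρ g).det)
    {F : (k : ℕ) → T G k →ₗ[ℤ] T (Fin (m + 1) → ℝ) k} (hF : Adm ρ F) :
    inhomogeneousCochains.d (ZRep G) (m + 1) (eCo F) = 0 := by
  apply hom_ext'
  intro x
  rw [← hom_bd, hom_eCo hρ hF, bd_bd, map_zero, wind_zero]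
  have := hom_smul (G := G) (m + 1 + 1) 0 0
  simp only [zero_smul] at this
  rw [this]
  rfl

/-- The canonical admissible partial chain map. -/
noncomputable def FF (ρ : G →* Matrix (Fin n) (Fin n) ℝ) : (k : ℕ) → T G k →ₗ[ℤ] T (Fin n → ℝ) k
  | 0 => Finsupp.linearCombination ℤ fun _ => Finsupp.single default 1
  | (k + 1) => Finsupp.linearCombination ℤ fun v : Fin (k + 1) → G =>
      lm (ρ (v 0)) (k + 1) (fil k (FF ρ k (bd k (Finsupp.single ((v 0)⁻¹ • v) 1))))

theorem FF_succ (ρ : G →* Matrix (Fin n) (Fin n) ℝ) (k : ℕ) (v : Fin (k + 1) → G) (a : ℤ) :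
    FF ρ (k + 1) (Finsupp.single v a) =
      a • lm (ρ (v 0)) (k + 1) (fil k (FF ρ k (bd k (Finsupp.single ((v 0)⁻¹ • v) 1)))) := by
  rw [FF, Finsupp.linearCombination_single]

theorem span_ind {X : Type*} {k : ℕ} {M : Type*} [AddCommGroup M] (f f' : T X k →ₗ[ℤ] M)
    (h : ∀ v, f (Finsupp.single v 1) = f' (Finsupp.single v 1)) (x : T X k) : f x = f' x := by
  have : f = f' := Finsupp.lhom_ext' fun v => LinearMap.ext_ring (h v)
  rw [this]

theorem FF_zero_single (ρ : G →* Matrix (Fin n) (Fin n) ℝ) (v : Fin 0 → G) (a : ℤ) :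
    FF ρ 0 (Finsupp.single v a) = a • Finsupp.single default 1 := by
  rw [FF, Finsupp.linearCombination_single]

theorem off_zero (v : Fin 0 → Fin n → ℝ) : v ∈ Off n 0 := by
  intro h
  rw [Set.range_eq_empty, convexHull_empty] at h
  exact h

theorem FF_adm (ρ : G →* Matrix (Fin n) (Fin n) ℝ) (hρ : ∀ g, (ρ g).det ≠ 0) : Adm ρ (FF ρ) := by
  have hoff : ∀ k, ∀ x, FF ρ k x ∈ KC n k := by
    intro k
    induction k with
    | zero =>
      intro x
      rw [mem_KC]
      intro v _
      exact off_zero v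
    | succ k ih =>
      intro x
      induction x using Finsupp.induction_linear with
      | zero => simp
      | add x y hx hy => rw [map_add]; exact Submodule.add_mem _ hx hy
      | single v a =>
        rw [FF_succ]
        exact Submodule.smul_mem _ _ (lm_KC _ (hρ _) _ (fil_KC _ (ih _)))
  have hequi : ∀ k, ∀ (g : G) x, FF ρ k (ac g k x) = lm (ρ g) k (FF ρ k x) := by
    intro k g x
    refine span_ind ((FF ρ k).comp (ac g k)) ((lm (ρ g) k).comp (FF ρ k)) (fun v => ?_) x
    simp only [LinearMap.comp_apply]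
    rw [ac_single]
    cases k with
    | zero =>
      rw [FF_zero_single, FF_zero_single, one_smul, lm_single]
      congr 1
      exact Subsingleton.elim _ _
    | succ k =>
      rw [FF_succ, FF_succ, one_smul, one_smul, ← lm_mul, ← map_mul]
      have h1 : (g • v) 0 = g * v 0 := rfl
      have h2 : ((g • v) 0)⁻¹ • (g • v) = (v 0)⁻¹ • v := by
        rw [h1, _root_.mul_inv_rev, mul_smul, inv_smul_smul]
      rw [h1] at h2 ⊢
      rw [h2]
  have hbd : ∀ k < n, ∀ x, bd k (FF ρ (k + 1) x) = FF ρ k (bd k x) := by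
    intro k
    induction k with
    | zero =>
      intro hk x
      refine span_ind ((bd 0).comp (FF ρ 1)) ((FF ρ 0).comp (bd 0)) (fun v => ?_) x
      simp only [LinearMap.comp_apply]
      rw [FF_succ, one_smul, bd_lm, bd_fil_zero hk, ← hequi, ← bd_ac, ac_single, smul_inv_smul]
    | succ k ih =>
      intro hk x
      refine span_ind ((bd (k + 1)).comp (FF ρ (k + 1 + 1))) ((FF ρ (k + 1)).comp (bd (k + 1)))
        (fun v => ?_) x
      simp only [LinearMap.comp_apply]
      rw [FF_succ, one_smul, bd_lm, bd_fil hk, ← hequi, ← bd_ac, ac_single, smul_inv_smul]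
      rw [ih (by omega), bd_bd, map_zero]
  exact ⟨by rw [FF_zero_single, one_smul], fun k _ x => hoff k x, fun k _ g x => hequi k g x, hbd⟩

end Pool.Agent.HL
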