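import Pool.Agent.Lib_helper43.HL.Euler

/-!
Independence of the Euler class of the choice of the partial chain map, and its definition.
-/

namespace Pool.Agent.HL

open Finsupp Matrix CategoryTheory

variable {G : Type} [Group G] {n : ℕ}

theorem hom_wind {m k : ℕ} (ρ : G →* Matrix (Fin (m + 1)) (Fin (m + 1)) ℝ)
    (hρ : ∀ g, 0 < (ρ g).det) (Φ : T G (k + 1) →ₗ[ℤ] T (Fin (m + 1) → ℝ) (m + 1))
    (hK : ∀ x, Φ x ∈ KC (m + 1) (m + 1)) (hb : ∀ x, bd m (Φ x) = 0)
    (he : ∀ (g : G) x, Φ (ac g (k + 1) x) = lm (ρ g) (m + 1) (Φ x)) (x : T G (k + 1)) :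
    hom k (fun g => wind (Φ (Finsupp.single (Fin.partialProd g) 1))) x = wind (Φ x) := by
  have hs : ∀ v : Fin (k + 1) → G,
      hom k (fun g => wind (Φ (Finsupp.single (Fin.partialProd g) 1))) (Finsupp.single v 1) =
      wind (Φ (Finsupp.single v 1)) := by
    intro v
    rw [hom_single, one_mul]
    have h1 : Finsupp.single v (1 : ℤ) = ac (v 0) (k + 1)
        (Finsupp.single (Fin.partialProd fun i : Fin k => (v i.castSucc)⁻¹ * v i.succ) 1) := by
      rw [ac_single, Fin.partialProd_left_inv]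
    conv_rhs => rw [h1, he]
    rw [wind_lm m _ (hρ _) _ (hK _) (hb _)]
  induction x using Finsupp.induction_linear with
  | zero => simp [wind_zero]
  | add x y hx hy =>
    rw [map_add, hx, hy, map_add, wind_add m _ _ (hK _) (hK _) (hb _) (hb _)]
  | single v a =>
    have h1 : Finsupp.single v a = a • Finsupp.single v (1 : ℤ) := by simp
    rw [h1, map_smul, hs, map_smul, wind_smul m _ _ (hK _) (hb _), smul_eq_mul]

/-- The chain homotopy between two partial chain maps. -/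
noncomputable def HH (ρ : G →* Matrix (Fin n) (Fin n) ℝ)
    (F F' : (k : ℕ) → T G k →ₗ[ℤ] T (Fin n → ℝ) k) :
    (k : ℕ) → T G k →ₗ[ℤ] T (Fin n → ℝ) (k + 1)
  | 0 => 0
  | (k + 1) => Finsupp.linearCombination ℤ fun v : Fin (k + 1) → G =>
      lm (ρ (v 0)) (k + 2) (fil (k + 1) (F (k + 1) (Finsupp.single ((v 0)⁻¹ • v) 1) -
        F' (k + 1) (Finsupp.single ((v 0)⁻¹ • v) 1) -
        HH ρ F F' k (bd k (Finsupp.single ((v 0)⁻¹ • v) 1))))

theorem HH_succ (ρ : G →* Matrix (Fin n) (Fin n) ℝ)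
    (F F' : (k : ℕ) → T G k →ₗ[ℤ] T (Fin n → ℝ) k) (k : ℕ) (v : Fin (k + 1) → G) :
    HH ρ F F' (k + 1) (Finsupp.single v 1) =
      lm (ρ (v 0)) (k + 2) (fil (k + 1) (F (k + 1) (Finsupp.single ((v 0)⁻¹ • v) 1) -
        F' (k + 1) (Finsupp.single ((v 0)⁻¹ • v) 1) -
        HH ρ F F' k (bd k (Finsupp.single ((v 0)⁻¹ • v) 1)))) := by
  rw [HH, Finsupp.linearCombination_single, one_smul]

theorem HH_equi (ρ : G →* Matrix (Fin n) (Fin n) ℝ)
    (F F' : (k : ℕ) → T G k →ₗ[ℤ] T (Fin n → ℝ) k) (k : ℕ) (g : G) (x : T G k) :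
    HH ρ F F' k (ac g k x) = lm (ρ g) (k + 1) (HH ρ F F' k x) := by
  refine span_ind ((HH ρ F F' k).comp (ac g k)) ((lm (ρ g) (k + 1)).comp (HH ρ F F' k))
    (fun v => ?_) x
  simp only [LinearMap.comp_apply]
  rw [ac_single]
  cases k with
  | zero => simp [HH]
  | succ k =>
    rw [HH_succ, HH_succ, ← lm_mul, ← map_mul]
    have h1 : (g • v) 0 = g * v 0 := rfl
    have h2 : ((g • v) 0)⁻¹ • (g • v) = (v 0)⁻¹ • v := by
      rw [h1, _root_.mul_inv_rev, mul_smul, inv_smul_smul]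
    rw [h1] at h2 ⊢
    rw [h2]

theorem HH_off (ρ : G →* Matrix (Fin n) (Fin n) ℝ) (hρ : ∀ g, (ρ g).det ≠ 0)
    {F F' : (k : ℕ) → T G k →ₗ[ℤ] T (Fin n → ℝ) k} (hF : Adm ρ F) (hF' : Adm ρ F')
    (k : ℕ) (hk : k ≤ n) (x : T G k) : HH ρ F F' k x ∈ KC n (k + 1) := by
  induction k with
  | zero => simp [HH]
  | succ k ih =>
    induction x using Finsupp.induction_linear with
    | zero => simp
    | add x y hx hy => rw [map_add]; exact Submodule.add_mem _ hx hy
    | single v a =>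
      have h1 : Finsupp.single v a = a • Finsupp.single v (1 : ℤ) := by simp
      rw [h1, map_smul, HH_succ]
      exact Submodule.smul_mem _ _ (lm_KC _ (hρ _) _ (fil_KC _
        (Submodule.sub_mem _ (Submodule.sub_mem _ (hF.off _ hk _) (hF'.off _ hk _))
          (ih (by omega) _))))

theorem F_zero_eq {ρ : G →* Matrix (Fin n) (Fin n) ℝ}
    {F F' : (k : ℕ) → T G k →ₗ[ℤ] T (Fin n → ℝ) k} (hF : Adm ρ F) (hF' : Adm ρ F')
    (x : T G 0) : F 0 x = F' 0 x := by
  rw [T_zero_ext x, map_smul, map_smul, hF.aug, hF'.aug]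

theorem HH_step (ρ : G →* Matrix (Fin n) (Fin n) ℝ)
    {F F' : (k : ℕ) → T G k →ₗ[ℤ] T (Fin n → ℝ) k} (hF : Adm ρ F) (hF' : Adm ρ F')
    (k : ℕ) (hk : k + 1 < n)
    (hA : ∀ s : T G (k + 1), bd k (F (k + 1) s - F' (k + 1) s - HH ρ F F' k (bd k s)) = 0)
    (x : T G (k + 1)) :
    bd (k + 1) (HH ρ F F' (k + 1) x) = F (k + 1) x - F' (k + 1) x - HH ρ F F' k (bd k x) := by
  refine span_ind ((bd (k + 1)).comp (HH ρ F F' (k + 1)))
    (F (k + 1) - F' (k + 1) - (HH ρ F F' k).comp (bd k)) (fun v => ?_) x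
  simp only [LinearMap.comp_apply, LinearMap.sub_apply]
  rw [HH_succ, bd_lm, bd_fil hk _ (hA _), map_sub, map_sub, ← hF.equi _ hk.le, ← hF'.equi _ hk.le,
    ← HH_equi, ← bd_ac, ac_single, smul_inv_smul]

theorem HH_cyc (ρ : G →* Matrix (Fin n) (Fin n) ℝ)
    {F F' : (k : ℕ) → T G k →ₗ[ℤ] T (Fin n → ℝ) k} (hF : Adm ρ F) (hF' : Adm ρ F')
    (k : ℕ) (hk : k < n) (s : T G (k + 1)) :
    bd k (F (k + 1) s - F' (k + 1) s - HH ρ F F' k (bd k s)) = 0 := by
  induction k with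
  | zero =>
    rw [map_sub, map_sub, hF.bdF 0 hk, hF'.bdF 0 hk, F_zero_eq hF hF', sub_self]
    simp [HH]
  | succ k ih =>
    rw [map_sub, map_sub, hF.bdF _ hk, hF'.bdF _ hk,
      HH_step ρ hF hF' k hk (fun s => ih (by omega) s), bd_bd, map_zero, sub_zero, sub_self]

/-- Two admissible partial chain maps have cohomologous obstruction cocycles. -/
theorem eCo_unique {m : ℕ} (ρ : G →* Matrix (Fin (m + 1)) (Fin (m + 1)) ℝ)
    (hρ : ∀ g, 0 < (ρ g).det)
    {F F' : (k : ℕ) → T G k →ₗ[ℤ] T (Fin (m + 1) → ℝ) k} (hF : Adm ρ F) (hF' : Adm ρ F') :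
    ∃ b : (Fin m → G) → ℤ, eCo F - eCo F' = inhomogeneousCochains.d (ZRep G) m b := by
  have hρ' : ∀ g, (ρ g).det ≠ 0 := fun g => (hρ g).ne'
  let Φ : T G (m + 1) →ₗ[ℤ] T (Fin (m + 1) → ℝ) (m + 1) :=
    F (m + 1) - F' (m + 1) - (HH ρ F F' m).comp (bd m)
  have hΦ : ∀ x, Φ x = F (m + 1) x - F' (m + 1) x - HH ρ F F' m (bd m x) := fun x => rfl
  have hK : ∀ x, Φ x ∈ KC (m + 1) (m + 1) := fun x =>
    Submodule.sub_mem _ (Submodule.sub_mem _ (hF.off _ le_rfl _) (hF'.off _ le_rfl _))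
      (HH_off ρ hρ' hF hF' m (Nat.le_succ m) _)
  have hb : ∀ x, bd m (Φ x) = 0 := fun x => HH_cyc ρ hF hF' m (Nat.lt_succ_self m) x
  have he : ∀ (g : G) x, Φ (ac g (m + 1) x) = lm (ρ g) (m + 1) (Φ x) := by
    intro g x
    rw [hΦ, hΦ, hF.equi _ le_rfl, hF'.equi _ le_rfl, bd_ac, HH_equi, map_sub, map_sub]
  refine ⟨fun g => wind (Φ (Finsupp.single (Fin.partialProd g) 1)), ?_⟩
  apply hom_ext'
  intro x
  rw [← hom_bd, hom_wind ρ hρ Φ hK hb he]
  have h1 : hom (m + 1) (eCo F - eCo F') x = hom (m + 1) (eCo F) x - hom (m + 1) (eCo F') x := by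
    have h2 := hom_add (G := G) (m + 1) (eCo F - eCo F') (eCo F')
    rw [sub_add_cancel] at h2
    rw [h2, LinearMap.add_apply, add_sub_cancel_right]
  rw [h1, hom_eCo hρ hF, hom_eCo hρ hF',
    ← wind_sub m _ _ (hF.off _ le_rfl _) (hF'.off _ le_rfl _)
      (bd_F_bd hF (Nat.lt_succ_self m) _) (bd_F_bd hF' (Nat.lt_succ_self m) _), hΦ, bd_bd,
    map_zero, sub_zero]

/-- The class of a cocycle. -/
noncomputable def cls {k : ℕ} (f : (Fin k → G) → ℤ)
    (hf : inhomogeneousCochains.d (ZRep G) k f = 0) : groupCohomology (ZRep G) k :=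
  groupCohomology.π (ZRep G) k (groupCohomology.cocyclesMk f hf)

theorem iCocycles_inj {k : ℕ} {x y : groupCohomology.cocycles (ZRep G) k}
    (h : groupCohomology.iCocycles (ZRep G) k x = groupCohomology.iCocycles (ZRep G) k y) :
    x = y :=
  (ModuleCat.mono_iff_injective (groupCohomology.iCocycles (ZRep G) k)).mp inferInstance h

theorem cls_eq {k : ℕ} (f f' : (Fin (k + 1) → G) → ℤ)
    (hf : inhomogeneousCochains.d (ZRep G) (k + 1) f = 0)
    (hf' : inhomogeneousCochains.d (ZRep G) (k + 1) f' = 0)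
    (b : (Fin k → G) → ℤ) (hb : f - f' = inhomogeneousCochains.d (ZRep G) k b) :
    cls f hf = cls f' hf' := by
  rw [cls, cls, ← sub_eq_zero, ← map_sub]
  let K := groupCohomology.inhomogeneousCochains (ZRep G)
  have h1 : groupCohomology.cocyclesMk f hf - groupCohomology.cocyclesMk f' hf' =
      groupCohomology.toCocycles (ZRep G) k (k + 1) b := by
    apply iCocycles_inj
    rw [map_sub, groupCohomology.iCocycles_mk, groupCohomology.iCocycles_mk, hb]
    change _ = (K.iCycles (k + 1)) ((K.toCycles k (k + 1)) b)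
    rw [← ModuleCat.comp_apply, HomologicalComplex.toCycles_i]
    rw [groupCohomology.inhomogeneousCochains.d_def]
  rw [h1]
  change (K.homologyπ (k + 1)) ((K.toCycles k (k + 1)) b) = 0
  rw [← ModuleCat.comp_apply, HomologicalComplex.toCycles_comp_homologyπ]
  rfl

end Pool.Agent.HL
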