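import Pool.Agent.Lib_helper43.HL.Euler2

/-!
Partial chain maps with values in tuples satisfying a general support predicate.
-/

namespace Pool.Agent.HL

open Finsupp Matrix CategoryTheory

variable {G : Type} [Group G] {n : ℕ}

/-- A support predicate suitable for coning constructions. -/
structure GoodP (ρ : G →* Matrix (Fin n) (Fin n) ℝ) (P : (k : ℕ) → Set (Fin k → Fin n → ℝ)) :
    Prop where
  zero : ∀ v, v ∈ P 0
  off : ∀ k, P k ⊆ Off n k
  stab : ∀ k (g : G) v, v ∈ P k → (fun i => ρ g *ᵥ v i) ∈ P k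
  cone : ∀ k < n, ∀ S : Finset (Fin k → Fin n → ℝ), (∀ v ∈ S, v ∈ P k) →
    ∃ w : Fin n → ℝ, ∀ v ∈ S, (Fin.cons w v : Fin (k + 1) → Fin n → ℝ) ∈ P (k + 1)

/-- Chains supported on a predicate. -/
noncomputable def SP (P : (k : ℕ) → Set (Fin k → Fin n → ℝ)) (k : ℕ) :
    Submodule ℤ (T (Fin n → ℝ) k) := Finsupp.supported ℤ ℤ (P k)

theorem mem_SP {P : (k : ℕ) → Set (Fin k → Fin n → ℝ)} {k : ℕ} {x : T (Fin n → ℝ) k} :
    x ∈ SP P k ↔ ∀ v ∈ x.support, v ∈ P k := by
  rw [SP, Finsupp.mem_supported]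
  exact Iff.rfl

theorem SP_le_KC {ρ : G →* Matrix (Fin n) (Fin n) ℝ} {P : (k : ℕ) → Set (Fin k → Fin n → ℝ)}
    (hP : GoodP ρ P) {k : ℕ} {x : T (Fin n → ℝ) k} (hx : x ∈ SP P k) : x ∈ KC n k := by
  rw [mem_KC]
  rw [mem_SP] at hx
  exact fun v hv => hP.off k (hx v hv)

/-- Coning inside the predicate. -/
noncomputable def filP (P : (k : ℕ) → Set (Fin k → Fin n → ℝ)) (k : ℕ)
    (x : T (Fin n → ℝ) k) : T (Fin n → ℝ) (k + 1) := by
  classical
  exact if h : ∃ w : Fin n → ℝ, ∀ v ∈ x.support, (Fin.cons w v : Fin (k + 1) → Fin n → ℝ) ∈ P (k + 1)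
    then cone h.choose k x else 0

theorem filP_SP {P : (k : ℕ) → Set (Fin k → Fin n → ℝ)} {k : ℕ} (x : T (Fin n → ℝ) k) :
    filP P k x ∈ SP P (k + 1) := by
  classical
  rw [filP]
  split_ifs with h
  · rw [mem_SP]
    intro v hv
    have h1 : v ∈ x.support.image (fun u => (Fin.cons h.choose u : Fin (k + 1) → Fin n → ℝ)) :=
      Finsupp.mapDomain_support hv
    rw [Finset.mem_image] at h1
    obtain ⟨u, hu, rfl⟩ := h1
    exact h.choose_spec u hu
  · exact Submodule.zero_mem _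

theorem bd_filP {ρ : G →* Matrix (Fin n) (Fin n) ℝ} {P : (k : ℕ) → Set (Fin k → Fin n → ℝ)}
    (hP : GoodP ρ P) {k : ℕ} (hk : k + 1 < n) (x : T (Fin n → ℝ) (k + 1)) (hxP : x ∈ SP P (k + 1))
    (hx : bd k x = 0) : bd (k + 1) (filP P (k + 1) x) = x := by
  rw [filP, dif_pos (hP.cone _ hk x.support (mem_SP.mp hxP)), bd_cone, hx, map_zero, sub_zero]

theorem bd_filP_zero {ρ : G →* Matrix (Fin n) (Fin n) ℝ} {P : (k : ℕ) → Set (Fin k → Fin n → ℝ)}
    (hP : GoodP ρ P) (hk : 0 < n) (x : T (Fin n → ℝ) 0) : bd 0 (filP P 0 x) = x := by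
  rw [filP, dif_pos (hP.cone _ hk x.support (fun v _ => hP.zero v)), bd_cone_zero]

/-- The admissible partial chain map with values in `P`. -/
noncomputable def FP (ρ : G →* Matrix (Fin n) (Fin n) ℝ) (P : (k : ℕ) → Set (Fin k → Fin n → ℝ)) :
    (k : ℕ) → T G k →ₗ[ℤ] T (Fin n → ℝ) k
  | 0 => Finsupp.linearCombination ℤ fun _ => Finsupp.single default 1
  | (k + 1) => Finsupp.linearCombination ℤ fun v : Fin (k + 1) → G =>
      lm (ρ (v 0)) (k + 1) (filP P k (FP ρ P k (bd k (Finsupp.single ((v 0)⁻¹ • v) 1))))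

theorem FP_succ (ρ : G →* Matrix (Fin n) (Fin n) ℝ) (P : (k : ℕ) → Set (Fin k → Fin n → ℝ))
    (k : ℕ) (v : Fin (k + 1) → G) (a : ℤ) :
    FP ρ P (k + 1) (Finsupp.single v a) =
      a • lm (ρ (v 0)) (k + 1) (filP P k (FP ρ P k (bd k (Finsupp.single ((v 0)⁻¹ • v) 1)))) := by
  rw [FP, Finsupp.linearCombination_single]

theorem FP_zero_single (ρ : G →* Matrix (Fin n) (Fin n) ℝ)
    (P : (k : ℕ) → Set (Fin k → Fin n → ℝ)) (v : Fin 0 → G) (a : ℤ) :
    FP ρ P 0 (Finsupp.single v a) = a • Finsupp.single default 1 := by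
  rw [FP, Finsupp.linearCombination_single]

theorem lm_SP {ρ : G →* Matrix (Fin n) (Fin n) ℝ} {P : (k : ℕ) → Set (Fin k → Fin n → ℝ)}
    (hP : GoodP ρ P) (k : ℕ) (g : G) (x : T (Fin n → ℝ) k) (hx : x ∈ SP P k) :
    lm (ρ g) k x ∈ SP P k := by
  classical
  rw [mem_SP] at hx ⊢
  intro v hv
  have h1 : v ∈ x.support.image (fun u => (fun x => ρ g *ᵥ x) ∘ u) :=
    Finsupp.mapDomain_support hv
  rw [Finset.mem_image] at h1
  obtain ⟨u, hu, rfl⟩ := h1
  exact hP.stab k g u (hx u hu)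

theorem FP_SP {ρ : G →* Matrix (Fin n) (Fin n) ℝ} {P : (k : ℕ) → Set (Fin k → Fin n → ℝ)}
    (hP : GoodP ρ P) (k : ℕ) (x : T G k) : FP ρ P k x ∈ SP P k := by
  cases k with
  | zero =>
    rw [mem_SP]
    intro v _
    exact hP.zero v
  | succ k =>
    induction x using Finsupp.induction_linear with
    | zero => simp
    | add x y hx hy => rw [map_add]; exact Submodule.add_mem _ hx hy
    | single v a =>
      rw [FP_succ]
      exact Submodule.smul_mem _ _ (lm_SP hP _ _ _ (filP_SP _))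

theorem FP_adm {ρ : G →* Matrix (Fin n) (Fin n) ℝ}
    {P : (k : ℕ) → Set (Fin k → Fin n → ℝ)} (hP : GoodP ρ P) : Adm ρ (FP ρ P) := by
  have hequi : ∀ k, ∀ (g : G) x, FP ρ P k (ac g k x) = lm (ρ g) k (FP ρ P k x) := by
    intro k g x
    refine span_ind ((FP ρ P k).comp (ac g k)) ((lm (ρ g) k).comp (FP ρ P k)) (fun v => ?_) x
    simp only [LinearMap.comp_apply]
    rw [ac_single]
    cases k with
    | zero =>
      rw [FP_zero_single, FP_zero_single, one_smul, lm_single]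
      congr 1
      exact Subsingleton.elim _ _
    | succ k =>
      rw [FP_succ, FP_succ, one_smul, one_smul, ← lm_mul, ← map_mul]
      have h1 : (g • v) 0 = g * v 0 := rfl
      have h2 : ((g • v) 0)⁻¹ • (g • v) = (v 0)⁻¹ • v := by
        rw [h1, _root_.mul_inv_rev, mul_smul, inv_smul_smul]
      rw [h1] at h2 ⊢
      rw [h2]
  have hbd : ∀ k < n, ∀ x, bd k (FP ρ P (k + 1) x) = FP ρ P k (bd k x) := by
    intro k
    induction k with
    | zero =>
      intro hk x
      refine span_ind ((bd 0).comp (FP ρ P 1)) ((FP ρ P 0).comp (bd 0)) (fun v => ?_) x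
      simp only [LinearMap.comp_apply]
      rw [FP_succ, one_smul, bd_lm, bd_filP_zero hP hk, ← hequi, ← bd_ac, ac_single, smul_inv_smul]
    | succ k ih =>
      intro hk x
      refine span_ind ((bd (k + 1)).comp (FP ρ P (k + 1 + 1))) ((FP ρ P (k + 1)).comp (bd (k + 1)))
        (fun v => ?_) x
      simp only [LinearMap.comp_apply]
      rw [FP_succ, one_smul, bd_lm, bd_filP hP hk _ (FP_SP hP _ _), ← hequi, ← bd_ac, ac_single,
        smul_inv_smul]
      rw [ih (by omega), bd_bd, map_zero]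
  exact ⟨by rw [FP_zero_single, one_smul], fun k _ x => SP_le_KC hP (FP_SP hP k x),
    fun k _ g x => hequi k g x, hbd⟩

/-- The winding number of a boundary vanishes. -/
theorem wind_bd (m : ℕ) (y : T (Fin (m + 1) → ℝ) (m + 2)) (hy : y ∈ KC (m + 1) (m + 2)) :
    wind (bd (m + 1) y) = 0 := by
  classical
  -- a point generic for all faces
  obtain ⟨p, hp⟩ := exists_generic (n := m + 1)
    (ι := (y.support × {a : Fin (m + 1 + 1) × Fin (m + 1 + 1) // a.1 ≠ a.2}))
    (fun a => Submodule.span ℝ (a.1.1 '' {k | k ≠ a.2.1.1 ∧ k ≠ a.2.1.2}))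
    (fun a => span_omit (Nat.lt_succ_self m) a.1.1 _ (by
      have h := ncard_omit2 (m + 1) a.2.1.1 a.2.1.2 a.2.2
      exact Nat.le_of_succ_le_succ h.le))
  have hg : ∀ v ∈ y.support, Gen2 p v := fun v hv i j hij => hp (⟨v, hv⟩, ⟨(i, j), hij⟩)
  have hface : ∀ v : Fin (m + 1 + 1) → Fin (m + 1) → ℝ, Gen2 p v →
      ∀ i : Fin (m + 1 + 1), Gen1 p (v ∘ i.succAbove) := by
    intro v hv i j hmem
    have hne : i ≠ i.succAbove j := (Fin.succAbove_ne i j).symm
    apply hv i (i.succAbove j) hne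
    refine Submodule.span_mono ?_ hmem
    rintro x ⟨k, hk, rfl⟩
    exact ⟨i.succAbove k, ⟨Fin.succAbove_ne i k, fun h => hk (Fin.succAbove_right_injective h)⟩, rfl⟩
  have hgen : GenC p (bd (m + 1) y) := by
    intro u hu
    have hsum : bd (m + 1) y = ∑ v ∈ y.support, y v • bd (m + 1) (Finsupp.single v 1) := by
      conv_lhs => rw [← Finsupp.sum_single y, Finsupp.sum, map_sum]
      refine Finset.sum_congr rfl fun v _ => ?_
      rw [← map_smul]
      simp
    rw [hsum] at hu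
    have h1 := Finsupp.support_finsetSum hu
    rw [Finset.mem_biUnion] at h1
    obtain ⟨v, hv, hu2⟩ := h1
    have h2 := Finsupp.support_smul hu2
    rw [bd_single] at h2
    have h3 := Finsupp.support_finsetSum h2
    rw [Finset.mem_biUnion] at h3
    obtain ⟨i, _, hi⟩ := h3
    have h4 := Finsupp.support_single_subset hi
    rw [Finset.mem_singleton] at h4
    rw [h4]
    exact hface v (hg v hv) i
  rw [wind_eq m _ (bd_KC y hy) (bd_bd _ _) p hgen]
  have hy' := mem_KC.mp hy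
  have hsum : y = ∑ v ∈ y.support, Finsupp.single v (y v) := (Finsupp.sum_single y).symm
  rw [hsum]
  simp only [map_sum]
  refine Finset.sum_eq_zero fun v hv => ?_
  have h3 : Finsupp.single v (y v) = y v • Finsupp.single v (1 : ℤ) := by simp
  rw [h3, map_smul, map_smul, bd_single, map_sum]
  simp only [windAt_single]
  rw [face_zero v p (hy' v hv) (hg v hv), smul_zero]

end Pool.Agent.HL
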