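import Mathlib

/-!
The number `n_g` and the arithmetic of the upper bound.
-/

namespace Pool.Agent.HL

/-- `ng n = 2 * ∏ l ^ (v_l(n) + 1)` over the primes `l` with `l - 1 ∣ n`. -/
def ng (n : ℕ) : ℕ :=
  2 * ∏ l ∈ (Finset.range (n + 2)).filter (fun l => l.Prime ∧ (l - 1) ∣ n), l ^ (padicValNat l n + 1)

theorem ng_ne_zero (n : ℕ) : ng n ≠ 0 := by
  rw [ng]
  refine mul_ne_zero (by norm_num) (Finset.prod_ne_zero_iff.mpr fun l hl => ?_)
  rw [Finset.mem_filter] at hl
  exact pow_ne_zero _ hl.2.1.ne_zero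

theorem ng_val (n : ℕ) (q : ℕ) (hq : q.Prime) (hn : n ≠ 0) :
    padicValNat q (ng n) = (if q = 2 then 1 else 0) + (if q - 1 ∣ n then padicValNat q n + 1 else 0) := by
  have : Fact q.Prime := ⟨hq⟩
  have h0 : ∏ l ∈ (Finset.range (n + 2)).filter (fun l => l.Prime ∧ (l - 1) ∣ n),
      l ^ (padicValNat l n + 1) ≠ 0 := by
    refine Finset.prod_ne_zero_iff.mpr fun l hl => ?_
    rw [Finset.mem_filter] at hl
    exact pow_ne_zero _ hl.2.1.ne_zero
  rw [ng, padicValNat.mul (by norm_num) h0]
  congr 1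
  · by_cases h : q = 2
    · subst h; simp
    · rw [if_neg h, padicValNat_primes h]
  · have h1 : ∀ (s : Finset ℕ), (∀ l ∈ s, l.Prime) →
        padicValNat q (∏ l ∈ s, l ^ (padicValNat l n + 1)) =
          if q ∈ s then padicValNat q n + 1 else 0 := by
      intro s
      induction s using Finset.induction_on with
      | empty => intro _; simp
      | insert a s ha ih =>
        intro hs
        have hap : a.Prime := hs a (Finset.mem_insert_self a s)
        have hs' : ∀ l ∈ s, l.Prime := fun l hl => hs l (Finset.mem_insert_of_mem hl)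
        rw [Finset.prod_insert ha, padicValNat.mul (pow_ne_zero _ hap.ne_zero)
          (Finset.prod_ne_zero_iff.mpr fun l hl => pow_ne_zero _ (hs' l hl).ne_zero), ih hs']
        by_cases haq : a = q
        · subst haq
          rw [padicValNat.prime_pow, if_neg ha, if_pos (Finset.mem_insert_self _ _), add_zero]
        · have : Fact a.Prime := ⟨hap⟩
          rw [padicValNat_prime_prime_pow _ (fun h => haq h.symm), zero_add]
          have : (q ∈ insert a s) ↔ q ∈ s := by
            rw [Finset.mem_insert]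
            constructor
            · rintro (h | h)
              · exact absurd h.symm haq
              · exact h
            · exact Or.inr
          simp only [this]
    rw [h1 _ (fun l hl => (Finset.mem_filter.mp hl).2.1)]
    have h2 : q ∈ (Finset.range (n + 2)).filter (fun l => l.Prime ∧ (l - 1) ∣ n) ↔ q - 1 ∣ n := by
      rw [Finset.mem_filter, Finset.mem_range]
      constructor
      · exact fun h => h.2.2
      · intro h
        refine ⟨?_, hq, h⟩
        have := Nat.le_of_dvd (Nat.pos_of_ne_zero hn) h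
        omega
    simp only [h2]

/-- For a prime `l` and `n ≠ 0` even there is a prime `p ≠ l` with
`v_l(p ^ n - 1) ≤ v_l(ng n)`. -/
theorem exists_base (n : ℕ) (hn : n ≠ 0) (hev : Even n) (l : ℕ) (hl : l.Prime) :
    ∃ p : ℕ, p.Prime ∧ ¬ l ∣ p ∧ ¬ l ^ (padicValNat l (ng n) + 1) ∣ p ^ n - 1 := by
  have : Fact l.Prime := ⟨hl⟩
  rw [ng_val n l hl hn]
  by_cases h2 : l = 2
  · subst h2
    refine ⟨3, Nat.prime_three, by norm_num, ?_⟩
    simp only [if_true, Nat.add_one_sub_one, one_dvd]
    have h1 := padicValNat.pow_two_sub_pow (x := 3) (y := 1) (by norm_num) (by norm_num)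
      (by norm_num) hn hev
    have h3 : padicValNat 2 (3 + 1) = 2 := by
      have : (3 + 1 : ℕ) = 2 ^ 2 := by norm_num
      rw [this, padicValNat.prime_pow]
    have h4 : padicValNat 2 (3 - 1) = 1 := by
      have : (3 - 1 : ℕ) = 2 := by norm_num
      rw [this, padicValNat.self (by norm_num)]
    rw [h3, h4, one_pow] at h1
    have h5 : 3 ^ n - 1 ≠ 0 := by
      have : 1 < 3 ^ n := Nat.one_lt_pow hn (by norm_num)
      omega
    rw [padicValNat_dvd_iff_le h5]
    have h6 : (1 + if 2 - 1 ∣ n then padicValNat 2 n + 1 else 0) = padicValNat 2 n + 2 := by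
      rw [if_pos (by norm_num)]; ring
    omega
  · rw [if_neg h2, zero_add]
    have hodd : Odd l := hl.odd_of_ne_two h2
    -- a generator of the units modulo `l ^ (k + 1)`
    have key : ∀ k : ℕ, ¬ (l ^ k * (l - 1)) ∣ n →
        ∃ p : ℕ, p.Prime ∧ ¬ l ∣ p ∧ ¬ l ^ (k + 1) ∣ p ^ n - 1 := by
      intro k hk
      have : NeZero (l ^ (k + 1)) := ⟨pow_ne_zero _ hl.ne_zero⟩
      have hcyc : IsCyclic (ZMod (l ^ (k + 1)))ˣ := by
        rw [ZMod.isCyclic_units_iff]
        right; right; right; right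
        exact ⟨l, k + 1, hl, hodd, by omega, Or.inl rfl⟩
      obtain ⟨u, hu⟩ := hcyc.exists_generator
      have hord : orderOf u = l ^ k * (l - 1) := by
        rw [orderOf_eq_card_of_forall_mem_zpowers hu, Nat.card_eq_fintype_card,
          ZMod.card_units_eq_totient, Nat.totient_prime_pow_succ hl]
      obtain ⟨p, hpl, hp, hpu⟩ := Nat.forall_exists_prime_gt_and_eq_mod u.isUnit l
      refine ⟨p, hp, ?_, ?_⟩
      · intro hd
        rcases (Nat.dvd_prime hp).mp hd with h | h
        · exact hl.one_lt.ne' h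
        · omega
      · intro hd
        apply hk
        rw [← hord, orderOf_dvd_iff_pow_eq_one]
        apply Units.ext
        have h5 : 1 ≤ p ^ n := Nat.one_le_pow _ _ hp.pos
        rw [← ZMod.natCast_eq_zero_iff] at hd
        push_cast [Nat.cast_sub h5] at hd
        rw [sub_eq_zero, hpu] at hd
        rw [Units.val_pow_eq_pow_val, Units.val_one]
        exact hd
    by_cases hd : l - 1 ∣ n
    · rw [if_pos hd]
      refine key (padicValNat l n + 1) (fun h => ?_)
      have h1 : l ^ (padicValNat l n + 1) ∣ n := dvd_trans (dvd_mul_right _ _) h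
      exact pow_succ_padicValNat_not_dvd hn h1
    · rw [if_neg hd]
      exact key 0 (by simpa using hd)

/-- **Arithmetic of the upper bound.** -/
theorem ng_kills {A : Type*} [AddCommGroup A] (c : A) (n N : ℕ) (hn : n ≠ 0) (hev : Even n)
    (h : ∀ p : ℕ, p.Prime → ((p : ℤ) ^ N * ((p : ℤ) ^ n - 1)) • c = 0) : ng n • c = 0 := by
  rw [← addOrderOf_dvd_iff_nsmul_eq_zero]
  have hdvd : ∀ p : ℕ, p.Prime → addOrderOf c ∣ p ^ N * (p ^ n - 1) := by
    intro p hp
    rw [addOrderOf_dvd_iff_nsmul_eq_zero, ← natCast_zsmul]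
    have h1 : 1 ≤ p ^ n := Nat.one_le_pow _ _ hp.pos
    push_cast [Nat.cast_sub h1]
    exact h p hp
  have hD : addOrderOf c ≠ 0 := by
    intro h0
    have h1 := hdvd 2 Nat.prime_two
    rw [h0, zero_dvd_iff] at h1
    have h2 : 1 < 2 ^ n := Nat.one_lt_pow hn (by norm_num)
    rcases Nat.mul_eq_zero.mp h1 with h3 | h3
    · exact absurd h3 (by positivity)
    · omega
  refine (Nat.factorization_prime_le_iff_dvd hD (ng_ne_zero n)).mp fun q hq => ?_
  have : Fact q.Prime := ⟨hq⟩
  rw [Nat.factorization_def _ hq, Nat.factorization_def _ hq]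
  obtain ⟨p, hp1, hqp, hp⟩ := exists_base n hn hev q hq
  by_contra hlt
  push Not at hlt
  apply hp
  have h1 : q ^ (padicValNat q (ng n) + 1) ∣ p ^ N * (p ^ n - 1) :=
    dvd_trans (dvd_trans (pow_dvd_pow q hlt) pow_padicValNat_dvd) (hdvd p hp1)
  refine Nat.Coprime.dvd_of_dvd_mul_left ?_ h1
  exact Nat.Coprime.pow _ _ ((Nat.Prime.coprime_iff_not_dvd hq).mpr hqp)

/-- **Arithmetic of the order.** -/
theorem order_eq {A : Type*} [AddCommGroup A] (c : A) (g : ℕ) (hg : g ≠ 0)
    (h2 : ∀ m : ℤ, Odd m → ((2 : ℤ) ^ (padicValNat 2 g + 2) * m) • c ≠ 0)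
    (hodd : ∀ l : ℕ, l.Prime → l ≠ 2 → l - 1 ∣ 2 * g → ∀ M : ℤ, M • c = 0 →
      (l : ℤ) ^ (padicValNat l (2 * g) + 1) ∣ M)
    (hup : ng (2 * g) • c = 0) : addOrderOf c = ng (2 * g) := by
  have hD : addOrderOf c ≠ 0 := by
    intro h0
    have h1 := addOrderOf_dvd_iff_nsmul_eq_zero.mpr hup
    rw [h0, zero_dvd_iff] at h1
    exact ng_ne_zero _ h1
  have h2g : 2 * g ≠ 0 := by omega
  refine Nat.dvd_antisymm (addOrderOf_dvd_iff_nsmul_eq_zero.mpr hup) ?_
  refine (Nat.factorization_prime_le_iff_dvd (ng_ne_zero _) hD).mp fun q hq => ?_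
  have : Fact q.Prime := ⟨hq⟩
  rw [Nat.factorization_def _ hq, Nat.factorization_def _ hq, ng_val _ q hq h2g]
  by_cases hq2 : q = 2
  · subst hq2
    rw [if_pos rfl, if_pos (by norm_num), padicValNat.mul (by norm_num) hg,
      padicValNat.self (by norm_num)]
    by_contra hlt
    push Not at hlt
    -- write the order as a power of two times an odd number
    obtain ⟨m, hm⟩ := pow_padicValNat_dvd (p := 2) (n := addOrderOf c)
    have hmodd : Odd (m : ℤ) := by
      rw [Int.odd_coe_nat, ← Nat.not_even_iff_odd, even_iff_two_dvd]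
      rintro ⟨r, hr⟩
      have h1 : 2 ^ (padicValNat 2 (addOrderOf c) + 1) ∣ addOrderOf c := by
        refine ⟨r, ?_⟩
        rw [pow_succ, mul_assoc, ← hr]; exact hm
      exact pow_succ_padicValNat_not_dvd hD h1
    apply h2 m hmodd
    obtain ⟨s, hs⟩ : ∃ s, padicValNat 2 g + 2 = s + padicValNat 2 (addOrderOf c) :=
      ⟨padicValNat 2 g + 2 - padicValNat 2 (addOrderOf c), by omega⟩
    rw [hs, pow_add, mul_assoc, mul_smul]
    have h3 : ((2 : ℤ) ^ padicValNat 2 (addOrderOf c) * (m : ℤ)) • c = 0 := by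
      have : ((2 : ℤ) ^ padicValNat 2 (addOrderOf c) * (m : ℤ)) = ((addOrderOf c : ℕ) : ℤ) := by
        conv_rhs => rw [hm]
        push_cast
        rfl
      rw [this, natCast_zsmul, addOrderOf_nsmul_eq_zero]
    rw [h3, smul_zero]
  · rw [if_neg hq2, zero_add]
    by_cases hd : q - 1 ∣ 2 * g
    · rw [if_pos hd]
      have h1 := hodd q hq hq2 hd (addOrderOf c : ℤ) (by
        rw [natCast_zsmul, addOrderOf_nsmul_eq_zero])
      have h3 : q ^ (padicValNat q (2 * g) + 1) ∣ addOrderOf c := by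
        exact_mod_cast h1
      exact (padicValNat_dvd_iff_le hD).mp h3
    · rw [if_neg hd]
      exact Nat.zero_le _

end Pool.Agent.HL
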