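import Pool.Agent.Lib_helper43.HL.OddPart
import Pool.Agent.Lib_helper43.HL.Num
import Pool.Agent.Lib_helper62.HL.UppF

/-!
The order of `λ_g`.
-/

namespace Pool.Agent.HL

/-- **The order of the top Hodge class.** -/
theorem order_hodgeTop (g : ℕ) (hg : 2 ≤ g) : addOrderOf (hodgeTop g (by omega)) = ng (2 * g) :=
  order_eq _ g (by omega) (fun m hm => two_part g hg m hm)
    (fun l hl hl2 hd M h0 => odd_part g (by omega) l hl hl2 hd M h0)
    (ng_kills _ (2 * g) (2 * g + 2) (by omega) (even_two_mul g)
      (fun p hp => Pool.Agent.HLU.upper_hodge g (by omega) p hp))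

end Pool.Agent.HL
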