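import Pool.Agent.Lib_helper43.HL.Bridge
import Pool.Agent.Lib_helper43.HL.Order

/-!
The order of the Euler class of the flat bundle `ℝ^{2g}` over `BSp_{2g}(ℤ)`.
-/

namespace Pool.Agent.HL

open HodgeEuler

/-- **Order of the top Hodge class**, `g ≥ 2`, for `HodgeEuler.IsEulerClass`. -/
theorem order_isEulerClass (g : ℕ) (hg : 2 ≤ g)
    (b : Module.Basis (Fin (2 * g)) ℝ (Fin g ⊕ Fin g → ℝ)) :
    ∃ c : groupCohomology (Rep.trivial ℤ (Matrix.symplecticGroup (Fin g) ℤ) ℤ) (2 * g),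
      (∀ c', IsEulerClass b c' ↔ c' = c) ∧ addOrderOf c = ng (2 * g) := by
  obtain ⟨q, rfl⟩ : ∃ q, g = q + 1 := ⟨g - 1, by omega⟩
  obtain ⟨c, hc⟩ := exists_eulerClass (n := 2 * q + 1) b (fun A v => sp_det_invariant b A v)
  refine ⟨c, fun c' => ⟨fun h => ?_, fun h => h ▸ hc⟩, ?_⟩
  · exact eulerClass_unique (n := 2 * q + 1) b (fun A v => sp_det_invariant b A v) h hc
  · rw [addOrderOf_of_isEulerClass (q + 1) (by omega) b c hc]
    exact order_hodgeTop (q + 1) hg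

end Pool.Agent.HL
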