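import Pool.Agent.Lib_helper43.HL.Order

/-!
The case `g = 1`: the order of `λ_1` is `12`.
-/

namespace Pool.Agent.HL

open Matrix Finsupp CategoryTheory ModularGroup

section genusone

theorem cn_two {G : Type} [Group G] (z : G) (k : ℕ) : cn z 2 k = cz z k := by
  induction k with
  | zero => rfl
  | succ k ih =>
    rw [cn, cz, ih]
    congr 1
    by_cases hk : Even k
    · rw [sn_even _ _ _ _ hk, tt_apply, Odd.neg_one_pow hk.add_one, neg_one_smul, sub_eq_add_neg]
    · rw [sn_odd _ _ _ _ hk, tt_apply, nm_apply, Even.neg_one_pow (by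
        rw [Nat.even_add_one]; exact hk), Finset.sum_range_succ, Finset.sum_range_one, pow_zero,
        pow_one, ac_one, one_smul]
      exact add_comm _ _

/-- `4` divides the order for `g = 1`. -/
theorem four_dvd (M : ℤ) (h0 : M • hodgeTop 1 (by norm_num) = 0) : (4 : ℤ) ∣ M := by
  have hz : (RR 0) ^ (2 ^ 1) = negOne (Fin 1) := RR_pow_2g 0
  have h4 : (RR 0) ^ (2 ^ 1 * 2) = 1 := by
    rw [pow_mul, hz, pow_two, negOne_sq]
  have hF := FF_adm (spRep 1) fun x => (spRep_pos 1 x).ne'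
  have h1 := key_odd 0 (by norm_num) (eCo (FF (spRep 1))) (d_eCo' (by norm_num) (spRep_pos 1) hF)
    (RR 0) 2 1 Nat.prime_two h4 M h0 (by
      rw [hz, cn_two]
      have h2 := odd_eCo (m := 1) (by norm_num) (spRep 1) (spRep_pos 1) hF (negOne (Fin 1))
        (negOne_sq _) (spRep_neg 1)
      intro h3
      exact (Int.not_even_iff_odd.mpr h2) (even_iff_two_dvd.mpr h3))
  norm_num at h1
  exact h1

/-- Reindexing `SL_2(ℤ) = Sp_2(ℤ)`. -/
def slSp : SpecialLinearGroup (Fin 2) ℤ →* Spl (Fin 1) where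
  toFun A := ⟨(A : Matrix (Fin 2) (Fin 2) ℤ).submatrix (finSumFinEquiv : Fin 1 ⊕ Fin 1 ≃ Fin (1 + 1))
      (finSumFinEquiv : Fin 1 ⊕ Fin 1 ≃ Fin (1 + 1)), by
    have hdet := A.2
    rw [Matrix.det_fin_two] at hdet
    rw [SymplecticGroup.mem_iff]
    ext x y
    rcases x with x | x <;> rcases y with y | y <;> fin_cases x <;> fin_cases y <;>
      simp [Matrix.mul_apply, J, Fintype.sum_sum_type, finSumFinEquiv] <;> linarith⟩
  map_one' := by
    apply Subtype.ext
    simp
  map_mul' A B := by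
    apply Subtype.ext
    rw [Submonoid.coe_mul, Matrix.submatrix_mul_equiv]
    congr 1

theorem slSp_surj : Function.Surjective slSp := by
  intro B
  refine ⟨⟨(B : Matrix (Fin 1 ⊕ Fin 1) (Fin 1 ⊕ Fin 1) ℤ).submatrix
    (finSumFinEquiv : Fin 1 ⊕ Fin 1 ≃ Fin (1 + 1)).symm
    (finSumFinEquiv : Fin 1 ⊕ Fin 1 ≃ Fin (1 + 1)).symm, ?_⟩, ?_⟩
  · rw [Matrix.det_submatrix_equiv_self, SymplecticGroup.det_eq_one B.2]
  · apply Subtype.ext
    simp [slSp]

theorem chi_twelve (χ : Spl (Fin 1) →* Multiplicative (ZMod 24)) (γ : Spl (Fin 1)) :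
    χ γ ^ 12 = 1 := by
  obtain ⟨A, rfl⟩ := slSp_surj γ
  let K : Subgroup (SpecialLinearGroup (Fin 2) ℤ) := ((powMonoidHom 12).comp (χ.comp slSp)).ker
  have hS4 : (χ (slSp ModularGroup.S)) ^ 4 = 1 := by
    rw [← map_pow, ← map_pow]
    have : ModularGroup.S ^ 4 = 1 := by
      apply Subtype.ext
      rw [Matrix.SpecialLinearGroup.coe_pow, ModularGroup.coe_S]
      decide
    rw [this, map_one, map_one]
  have hST : (χ (slSp ModularGroup.S)) * (χ (slSp ModularGroup.T)) ^ 3 = 1 := by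
    have h1 : (ModularGroup.S * ModularGroup.T) ^ 3 = ModularGroup.S ^ 2 := by
      apply Subtype.ext
      rw [Matrix.SpecialLinearGroup.coe_pow, Matrix.SpecialLinearGroup.coe_pow,
        Matrix.SpecialLinearGroup.coe_mul, ModularGroup.coe_S, ModularGroup.coe_T]
      decide
    have h2 := congrArg (fun x => χ (slSp x)) h1
    simp only [map_pow, map_mul] at h2
    rw [mul_pow] at h2
    have h3 : (χ (slSp ModularGroup.S)) ^ 3 * (χ (slSp ModularGroup.T)) ^ 3 = (χ (slSp ModularGroup.S)) ^ 2 * (χ (slSp ModularGroup.S) * (χ (slSp ModularGroup.T)) ^ 3) := by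
      rw [← mul_assoc, ← pow_succ]
    rw [h3] at h2
    exact mul_eq_left.mp h2
  have hK : K = ⊤ := by
    rw [eq_top_iff, ← SpecialLinearGroup.SL2Z_generators, Subgroup.closure_le]
    intro x hx
    rcases hx with rfl | hx
    · change (χ (slSp ModularGroup.S)) ^ 12 = 1
      rw [show 12 = 4 * 3 by norm_num, pow_mul, hS4, one_pow]
    · rw [Set.mem_singleton_iff] at hx
      subst hx
      change (χ (slSp ModularGroup.T)) ^ 12 = 1
      have h4 : (χ (slSp ModularGroup.S)) ^ 4 * (χ (slSp ModularGroup.T)) ^ 12 = 1 := by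
        rw [show 12 = 3 * 4 by norm_num, pow_mul, ← mul_pow, hST, one_pow]
      rw [hS4, one_mul] at h4
      exact h4
  have hA : A ∈ K := by rw [hK]; trivial
  exact hA

/-- A class killed by `24` is killed by `12` if all characters to `ℤ/24` are killed by `12`. -/
theorem key_upper {G : Type} [Group G] (e : (Fin 2 → G) → ℤ)
    (he : inhomogeneousCochains.d (ZRep G) 2 e = 0) (h24 : (24 : ℤ) • cls e he = 0)
    (hχ : ∀ (χ : G →* Multiplicative (ZMod 24)) γ, χ γ ^ 12 = 1) : (12 : ℤ) • cls e he = 0 := by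
  have h1 : groupCohomology.π (ZRep G) 2 ((24 : ℤ) • groupCohomology.cocyclesMk e he) = 0 := by
    rw [map_zsmul]; exact h24
  obtain ⟨f, hf⟩ := pi_eq_zero 1 _ h1
  rw [map_zsmul, groupCohomology.iCocycles_mk] at hf
  let a : G → ℤ := fun γ => f (fun _ => γ)
  have ha : ∀ g1 g2 : G, a g2 - a (g1 * g2) + a g1 = 24 * e ![g1, g2] := by
    intro g1 g2
    have h2 := hom_bd 1 f (Finsupp.single (![1, g1, g1 * g2] : Fin 3 → G) 1)
    rw [hf, hom_single, bd_single, map_sum, Fin.sum_univ_three] at h2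
    simp only [hom_single] at h2
    have e0 : (fun i : Fin 1 => ((![1, g1, g1 * g2] : Fin 3 → G) ∘ (0 : Fin 3).succAbove) i.castSucc)⁻¹ = fun _ => g1⁻¹ := by
      funext i; fin_cases i; rfl
    have t0 : (fun i : Fin 1 => (((![1, g1, g1 * g2] : Fin 3 → G) ∘ (0 : Fin 3).succAbove) i.castSucc)⁻¹ *
        ((![1, g1, g1 * g2] : Fin 3 → G) ∘ (0 : Fin 3).succAbove) i.succ) = fun _ => g2 := by
      funext i; fin_cases i
      change g1⁻¹ * (g1 * g2) = g2
      group
    have t1 : (fun i : Fin 1 => (((![1, g1, g1 * g2] : Fin 3 → G) ∘ (1 : Fin 3).succAbove) i.castSucc)⁻¹ *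
        ((![1, g1, g1 * g2] : Fin 3 → G) ∘ (1 : Fin 3).succAbove) i.succ) = fun _ => g1 * g2 := by
      funext i; fin_cases i
      change (1 : G)⁻¹ * (g1 * g2) = g1 * g2
      group
    have t2 : (fun i : Fin 1 => (((![1, g1, g1 * g2] : Fin 3 → G) ∘ (2 : Fin 3).succAbove) i.castSucc)⁻¹ *
        ((![1, g1, g1 * g2] : Fin 3 → G) ∘ (2 : Fin 3).succAbove) i.succ) = fun _ => g1 := by
      funext i; fin_cases i
      change (1 : G)⁻¹ * g1 = g1
      group
    have t3 : (fun i : Fin 2 => ((![1, g1, g1 * g2] : Fin 3 → G) i.castSucc)⁻¹ *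
        (![1, g1, g1 * g2] : Fin 3 → G) i.succ) = ![g1, g2] := by
      funext i; fin_cases i
      · change (1 : G)⁻¹ * g1 = g1
        group
      · change g1⁻¹ * (g1 * g2) = g2
        group
    rw [t0, t1, t2, t3] at h2
    simp only [Fin.val_zero, pow_zero, Fin.val_one, pow_one, Fin.val_two, one_mul, neg_mul,
      Pi.smul_apply, smul_eq_mul] at h2
    change _ = _ at h2
    simp only [a]
    linarith
  let χ : G →* Multiplicative (ZMod 24) := MonoidHom.mk' (fun γ => Multiplicative.ofAdd ((a γ : ℤ) : ZMod 24))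
    (fun g1 g2 => by
      rw [← ofAdd_add]
      congr 1
      have h2 : ((a g2 - a (g1 * g2) + a g1 : ℤ) : ZMod 24) = ((24 * e ![g1, g2] : ℤ) : ZMod 24) := by
        rw [ha g1 g2]
      push_cast at h2
      have h3 : (24 : ZMod 24) = 0 := by decide
      rw [h3, zero_mul] at h2
      linear_combination -h2)
  have heven : ∀ γ, (2 : ℤ) ∣ a γ := by
    intro γ
    have h2 := hχ χ γ
    have h3 : (12 : ℕ) • ((a γ : ℤ) : ZMod 24) = 0 := h2
    rw [nsmul_eq_mul] at h3
    have h4 : (((12 * a γ : ℤ)) : ZMod 24) = 0 := by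
      push_cast
      exact h3
    rw [ZMod.intCast_zmod_eq_zero_iff_dvd] at h4
    obtain ⟨t, ht⟩ := h4
    exact ⟨t, by push_cast at ht; linarith⟩
  choose b' hb' using heven
  let b : (Fin 1 → G) → ℤ := fun v => b' (v 0)
  have hfb : f = (2 : ℤ) • b := by
    funext v
    have : v = fun _ => v 0 := by funext i; fin_cases i; rfl
    rw [this]
    exact hb' (v 0)
  refine Pool.Agent.HLU.cls_smul_zero _ _ _ b ?_
  rw [hfb] at hf
  have h5 : inhomogeneousCochains.d (ZRep G) 1 ((2 : ℤ) • b) =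
      (2 : ℤ) • inhomogeneousCochains.d (ZRep G) 1 b := map_zsmul _ _ _
  rw [h5] at hf
  funext v
  have h6 := congrFun hf v
  simp only [Pi.smul_apply, smul_eq_mul] at h6 ⊢
  linarith

/-- The order of `λ_1` is `12`. -/
theorem order_one : addOrderOf (hodgeTop 1 (by norm_num)) = 12 := by
  have hu := ng_kills (hodgeTop 1 (by norm_num)) (2 * 1) (2 * 1 + 2) (by norm_num) (even_two_mul 1)
      (fun p hp => Pool.Agent.HLU.upper_hodge 1 (by norm_num) p hp)
  have hn : ng (2 * 1) = 24 := by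
    have h1 : (Finset.range (2 * 1 + 2)).filter (fun l => l.Prime ∧ (l - 1) ∣ 2 * 1) = {2, 3} := by
      decide
    rw [ng, h1, Finset.prod_pair (by norm_num)]
    have h2 : padicValNat 2 (2 * 1) = 1 := by simp
    have h3 : padicValNat 3 (2 * 1) = 0 := by
      rw [padicValNat.eq_zero_iff]; right; right; norm_num
    rw [h2, h3]
    norm_num
  rw [hn] at hu
  have h12 : (12 : ℤ) • hodgeTop 1 (by norm_num) = 0 :=
    key_upper (eCo (FF (spRep 1))) (d_eCo' (by norm_num) (spRep_pos 1)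
      (FF_adm (spRep 1) fun x => (spRep_pos 1 x).ne')) (by
        have : (24 : ℤ) • hodgeTop 1 (by norm_num) = 0 := by
          have h2 := hu
          rw [← natCast_zsmul] at h2
          exact h2
        exact this) chi_twelve
  apply Nat.dvd_antisymm
  · rw [addOrderOf_dvd_iff_nsmul_eq_zero, ← natCast_zsmul]
    exact h12
  · have h0 : ((addOrderOf (hodgeTop 1 (by norm_num)) : ℕ) : ℤ) • hodgeTop 1 (by norm_num) = 0 := by
      rw [natCast_zsmul, addOrderOf_nsmul_eq_zero]
    have h4 := four_dvd _ h0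
    have h3 := odd_part 1 (by norm_num) 3 Nat.prime_three (by norm_num) (by norm_num) _ h0
    have h3' : (3 : ℤ) ∣ ((addOrderOf (hodgeTop 1 (by norm_num)) : ℕ) : ℤ) :=
      dvd_trans (dvd_pow_self _ (by omega)) h3
    have h4n : 4 ∣ addOrderOf (hodgeTop 1 (by norm_num)) := by exact_mod_cast h4
    have h3n : 3 ∣ addOrderOf (hodgeTop 1 (by norm_num)) := by exact_mod_cast h3'
    have := Nat.Coprime.mul_dvd_of_dvd_of_dvd (by norm_num : Nat.Coprime 4 3) h4n h3n
    exact this

end genusone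

end Pool.Agent.HL
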