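import Mathlib

/-!
Homomorphisms from `Sp_{2g}(ℤ)` to a group of order two.
-/

namespace Pool.Agent.HL

open Matrix

variable {l : Type*} [Fintype l] [DecidableEq l]

/-- The symplectic group over the integers. -/
abbrev Spl (l : Type*) [Fintype l] [DecidableEq l] := Matrix.symplecticGroup l ℤ

/-- `diag(U, V)` with `Uᵀ V = 1`. -/
def mU (U V : Matrix l l ℤ) (h : Uᵀ * V = 1) : Spl l :=
  ⟨fromBlocks U 0 0 V, by
    rw [SymplecticGroup.fromBlocks_mem_iff]
    refine ⟨by simp, by simp, by simp [h]⟩⟩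

/-- Upper unipotent `(1 S; 0 1)`. -/
def nS (S : Matrix l l ℤ) (h : Sᵀ = S) : Spl l :=
  ⟨fromBlocks 1 S 0 1, by
    rw [SymplecticGroup.fromBlocks_mem_iff]
    refine ⟨by simp, by simp [h], by simp⟩⟩

/-- Lower unipotent `(1 0; S 1)`. -/
def nL (S : Matrix l l ℤ) (h : Sᵀ = S) : Spl l :=
  ⟨fromBlocks 1 0 S 1, by
    rw [SymplecticGroup.fromBlocks_mem_iff]
    refine ⟨by simp [h], by simp, by simp⟩⟩

/-- The partial rotation `(1-E E; -E 1-E)` for a symmetric idempotent `E`. -/
def jE (E : Matrix l l ℤ) (h : Eᵀ = E) (h2 : E * E = E) : Spl l :=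
  ⟨fromBlocks (1 - E) E (-E) (1 - E), by
    rw [SymplecticGroup.fromBlocks_mem_iff]
    refine ⟨?_, ?_, ?_⟩
    · simp [h, mul_sub, sub_mul, h2]
    · simp [h, mul_sub, sub_mul, h2]
    · simp [h, mul_sub, sub_mul, h2]⟩

/-- Squares of the target group are trivial. -/
theorem sq2 (a : Multiplicative (ZMod 2)) : a * a = 1 := by
  revert a; decide

theorem inv2 (a : Multiplicative (ZMod 2)) : a⁻¹ = a := by
  revert a; decide

section rel

variable (χ : Spl l →* Multiplicative (ZMod 2))

theorem chi_conj (a b : Spl l) (x : Spl l) (h : x * a = b * x) : χ a = χ b := by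
  have := congrArg χ h
  rw [map_mul, map_mul, mul_comm] at this
  exact mul_right_cancel this

theorem chi_nL (S : Matrix l l ℤ) (h : Sᵀ = S) (h' : (-S)ᵀ = -S) :
    χ (nL (-S) h') = χ (nS S h) := by
  symm
  apply chi_conj χ _ _ (SymplecticGroup.symJ l ℤ)
  apply Subtype.ext
  simp only [nL, nS, SymplecticGroup.symJ, Submonoid.coe_mul, Matrix.J, fromBlocks_multiply]
  simp

theorem nS_mul (S S' : Matrix l l ℤ) (h : Sᵀ = S) (h' : S'ᵀ = S') (h'' : (S + S')ᵀ = S + S') :
    nS S h * nS S' h' = nS (S + S') h'' := by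
  apply Subtype.ext
  simp only [nS, Submonoid.coe_mul, fromBlocks_multiply]
  simp [add_comm]

theorem chi_nS_neg (S : Matrix l l ℤ) (h : Sᵀ = S) (h' : (-S)ᵀ = -S) :
    χ (nS (-S) h') = χ (nS S h) := by
  have h1 : nS S h * nS (-S) h' = 1 := by
    rw [nS_mul S (-S) h h' (by simp)]
    apply Subtype.ext
    simp [nS]
  have h2 := congrArg χ h1
  rw [map_mul, map_one] at h2
  rw [eq_comm, ← inv2 (χ (nS (-S) h'))]
  exact eq_inv_of_mul_eq_one_left h2

theorem chi_jE (E : Matrix l l ℤ) (h : Eᵀ = E) (h2 : E * E = E) :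
    χ (jE E h h2) = χ (nS E h) := by
  have h' : (-E)ᵀ = -E := by simp [h]
  have h1 : jE E h h2 = nS E h * nL (-E) h' * nS E h := by
    apply Subtype.ext
    simp only [jE, nS, nL, Submonoid.coe_mul, fromBlocks_multiply]
    simp only [one_mul, mul_one, mul_zero, zero_mul, add_zero, zero_add, mul_neg, h2,
      ← sub_eq_add_neg, neg_mul, sub_mul]
    congr 1 <;> abel
  rw [h1, map_mul, map_mul, chi_nL χ E h, sq2, one_mul]

/-- Matrix units. -/
abbrev ee (i j : l) : Matrix l l ℤ := Matrix.single i j 1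

theorem ee_mul_same (i j k : l) : ee i j * ee j k = ee i k := by
  rw [Matrix.single_mul_single_same, mul_one]

theorem ee_mul_ne (i j k m : l) (h : j ≠ k) : ee i j * ee k m = 0 :=
  Matrix.single_mul_single_of_ne (1 : ℤ) i j k h 1

theorem ee_tr (i j : l) : (ee i j)ᵀ = ee j i := by
  simp [ee]

theorem eii_idem (i : l) : ee i i * ee i i = ee i i := ee_mul_same i i i

/-- The symmetric matrix `E_ij + E_ji`. -/
theorem sij_symm (i j : l) : (ee i j + ee j i)ᵀ = ee i j + ee j i := by
  rw [transpose_add, ee_tr, ee_tr, add_comm]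

theorem vij_cond (i j : l) (hij : i ≠ j) : (1 + ee i j)ᵀ * (1 - ee j i) = 1 := by
  rw [transpose_add, ee_tr, transpose_one]
  simp only [add_mul, mul_sub, one_mul, mul_one, ee_mul_ne _ _ _ _ hij]
  abel

/-- `m(1 + E_ij)`. -/
def vv (i j : l) (hij : i ≠ j) : Spl l := mU (1 + ee i j) (1 - ee j i) (vij_cond i j hij)

theorem chi_sij (i j : l) (hij : i ≠ j) :
    χ (nS (ee i j + ee j i) (sij_symm i j)) = χ (nS (ee i i) (ee_tr i i)) := by
  have hsum : (ee i i + (ee i j + ee j i))ᵀ = ee i i + (ee i j + ee j i) := by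
    rw [transpose_add, sij_symm, ee_tr]
  have hsum2 : (ee i i + (ee i j + ee j i) + ee j j)ᵀ = ee i i + (ee i j + ee j i) + ee j j := by
    rw [transpose_add, hsum, ee_tr]
  have h1 : χ (nS (ee j j) (ee_tr j j)) = χ (nS _ hsum2) := by
    apply chi_conj χ _ _ (vv i j hij)
    apply Subtype.ext
    simp only [vv, mU, nS, Submonoid.coe_mul, fromBlocks_multiply]
    simp only [one_mul, mul_one, mul_zero, zero_mul, add_zero, zero_add, add_mul, mul_sub,
      ee_mul_same, ee_mul_ne _ _ _ _ hij, ee_mul_ne _ _ _ _ hij.symm]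
    congr 1
    abel
  rw [← nS_mul _ _ hsum (ee_tr j j) hsum2, map_mul, ← nS_mul _ _ (ee_tr i i) (sij_symm i j) hsum,
    map_mul] at h1
  have h2 : χ (nS (ee i i) (ee_tr i i)) * χ (nS (ee i j + ee j i) (sij_symm i j)) = 1 := by
    have := h1
    nth_rewrite 1 [← one_mul (χ (nS (ee j j) (ee_tr j j)))] at this
    exact (mul_right_cancel this).symm
  rw [← inv2 (χ (nS (ee i i) (ee_tr i i)))]
  exact eq_inv_of_mul_eq_one_right h2

theorem chi_vv (i j : l) (hij : i ≠ j) :
    χ (vv i j hij) = χ (nS (ee i i) (ee_tr i i)) := by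
  rw [← chi_sij χ i j hij, ← chi_nS_neg χ _ (sij_symm i j) (by rw [transpose_neg, sij_symm])]
  apply chi_conj χ _ _ (jE (ee j j) (ee_tr j j) (eii_idem j))
  apply Subtype.ext
  simp only [vv, mU, nS, jE, Submonoid.coe_mul, fromBlocks_multiply]
  simp only [one_mul, mul_one, mul_zero, zero_mul, add_zero, zero_add, add_mul, mul_sub, mul_add,
    sub_mul, neg_mul, mul_neg,
    ee_mul_same, ee_mul_ne _ _ _ _ hij, ee_mul_ne _ _ _ _ hij.symm]
  congr 1 <;> abel

theorem perm_cond (π : Equiv.Perm l) : (π.permMatrix ℤ)ᵀ * (π.permMatrix ℤ) = 1 := by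
  rw [Matrix.transpose_permMatrix, ← Matrix.permMatrix_mul]
  simp

/-- The permutation element `diag(P, P)`. -/
def pm (π : Equiv.Perm l) : Spl l := mU (π.permMatrix ℤ) (π.permMatrix ℤ) (perm_cond π)

theorem pm_mul (π ρ : Equiv.Perm l) : pm (π * ρ) = pm ρ * pm π := by
  apply Subtype.ext
  simp only [pm, mU, Submonoid.coe_mul, fromBlocks_multiply, Matrix.permMatrix_mul]
  simp

theorem pm_one : pm (1 : Equiv.Perm l) = 1 := by
  apply Subtype.ext
  simp [pm, mU]

theorem swap_mat (i j : l) (hij : i ≠ j) : (Equiv.swap i j).permMatrix ℤ =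
    1 - ee i i - ee j j + ee i j + ee j i := by
  ext a b
  simp only [Equiv.Perm.permMatrix, PEquiv.toMatrix_apply, Equiv.toPEquiv_apply, Option.mem_def,
    Option.some.injEq, Matrix.add_apply, Matrix.sub_apply, Matrix.single_apply, Matrix.one_apply,
    Equiv.swap_apply_def]
  by_cases h1 : a = i
  · subst h1
    by_cases h2 : b = j
    · subst h2; simp [hij, hij.symm]
    · have h3 : ¬ j = b := fun h => h2 h.symm
      by_cases h4 : a = b
      · subst h4; simp [h2, h3, hij]
      · simp [h2, h3, h4, hij, hij.symm]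
  · by_cases h5 : a = j
    · subst h5
      by_cases h2 : b = i
      · subst h2; simp [hij, hij.symm]
      · have h3 : ¬ i = b := fun h => h2 h.symm
        by_cases h4 : a = b
        · subst h4; simp [h2, h3, hij]
        · simp [h2, h3, h4, hij, hij.symm]
    · have h6 : ¬ i = a := fun h => h1 h.symm
      have h7 : ¬ j = a := fun h => h5 h.symm
      simp [h1, h5, h6, h7]

theorem chi_swap (i j : l) (hij : i ≠ j) :
    χ (pm (Equiv.swap i j)) = χ (nS (ee j j) (ee_tr j j)) := by
  have hv : pm (Equiv.swap i j) * vv i j hij = vv i j hij *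
      (jE (ee i i) (ee_tr i i) (eii_idem i) * jE (ee i i) (ee_tr i i) (eii_idem i)) *
        vv j i hij.symm := by
    apply Subtype.ext
    simp only [vv, mU, pm, jE, Submonoid.coe_mul, fromBlocks_multiply, swap_mat i j hij]
    simp only [one_mul, mul_one, mul_zero, zero_mul, add_zero, zero_add, add_mul, mul_sub, mul_add,
      sub_mul, neg_mul, mul_neg,
      ee_mul_same, ee_mul_ne _ _ _ _ hij, ee_mul_ne _ _ _ _ hij.symm]
    congr 1 <;> abel
  have h1 := congrArg χ hv
  simp only [map_mul] at h1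
  rw [sq2, mul_one, mul_comm] at h1
  rw [mul_left_cancel h1, chi_vv]

end rel

end Pool.Agent.HL
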