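import Pool.Agent.Lib_helper43.HL.Grp

/-!
The element `R` with `R ^ (2g) = -1` and the vanishing of every homomorphism to `ℤ/2` at `R`.
-/

namespace Pool.Agent.HL

open Matrix

section rel2

variable {l : Type*} [Fintype l] [DecidableEq l]
variable (χ : Spl l →* Multiplicative (ZMod 2))

/-- Value on the long root elements. -/
noncomputable abbrev tau (i : l) : Multiplicative (ZMod 2) := χ (nS (ee i i) (ee_tr i i))

theorem tau_eq (i j : l) : tau χ i = tau χ j := by
  by_cases hij : i = j
  · rw [hij]
  · have h1 := chi_swap χ i j hij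
    have h2 := chi_swap χ j i (fun h => hij h.symm)
    have h3 : pm (Equiv.swap i j) = pm (Equiv.swap j i) := by rw [Equiv.swap_comm]
    rw [tau, tau, ← h1, ← h2, h3]

theorem tau_three (i j k : l) (hij : i ≠ j) (hik : i ≠ k) (hjk : j ≠ k) : tau χ i = 1 := by
  have h : vv i k hik * vv k j hjk.symm = vv i j hij * (vv k j hjk.symm * vv i k hik) := by
    apply Subtype.ext
    simp only [vv, mU, Submonoid.coe_mul, fromBlocks_multiply]
    simp only [one_mul, mul_one, mul_zero, zero_mul, add_zero, zero_add, add_mul, mul_sub, mul_add,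
      sub_mul, ee_mul_same, ee_mul_ne _ _ _ _ hij, ee_mul_ne _ _ _ _ hij.symm,
      ee_mul_ne _ _ _ _ hik, ee_mul_ne _ _ _ _ hik.symm, ee_mul_ne _ _ _ _ hjk,
      ee_mul_ne _ _ _ _ hjk.symm]
    congr 1 <;> abel
  have h1 := congrArg χ h
  simp only [map_mul] at h1
  rw [mul_comm (χ (vv i k hik))] at h1
  have h2 : χ (vv i j hij) = 1 := by
    have : 1 * (χ (vv k j hjk.symm) * χ (vv i k hik)) =
      χ (vv i j hij) * (χ (vv k j hjk.symm) * χ (vv i k hik)) := by rw [one_mul]; exact h1
    exact (mul_right_cancel this).symm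
  rw [chi_vv] at h2
  exact h2

theorem chi_pm (i : l) (π : Equiv.Perm l) :
    χ (pm π) = if Equiv.Perm.sign π = 1 then 1 else tau χ i := by
  induction π using Equiv.Perm.swap_induction_on with
  | one => simp [pm_one]
  | swap_mul f x y hxy ih =>
    rw [pm_mul, map_mul, chi_swap χ x y hxy, ih, map_mul, Equiv.Perm.sign_swap hxy]
    have h1 : χ (nS (ee y y) (ee_tr y y)) = tau χ i := tau_eq χ y i
    rw [h1]
    rcases Int.units_eq_one_or (Equiv.Perm.sign f) with h | h
    · rw [h]; simp
    · rw [h]
      have h4 : ¬ ((-1 : ℤˣ) * -1 = -1) := by decide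
      simp [sq2]

theorem jE_mul (E E' : Matrix l l ℤ) (h h2 h' h2' h'' h2'') (ho : E * E' = 0) :
    jE E h h2 * jE E' h' h2' = jE (E + E') h'' h2'' := by
  apply Subtype.ext
  simp only [jE, Submonoid.coe_mul, fromBlocks_multiply]
  simp only [one_mul, mul_one, mul_zero, zero_mul, add_zero, zero_add, add_mul, mul_sub, mul_add,
      sub_mul, neg_mul, mul_neg, ho]
  congr 1 <;> abel

end rel2

section elt

variable (n : ℕ)

/-- The projection to the first `k` coordinates. -/
def dk (k : ℕ) : Matrix (Fin (n + 1)) (Fin (n + 1)) ℤ :=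
  Matrix.diagonal (fun i => if (i : ℕ) < k then 1 else 0)

theorem dk_tr (k : ℕ) : (dk n k)ᵀ = dk n k := by
  rw [dk, Matrix.diagonal_transpose]

theorem dk_idem (k : ℕ) : dk n k * dk n k = dk n k := by
  rw [dk, Matrix.diagonal_mul_diagonal]
  congr 1
  funext i
  split_ifs <;> simp

/-- The element `R` of the symplectic group. -/
def RR : Spl (Fin (n + 1)) :=
  pm (finRotate (n + 1)) * jE (dk n 1) (dk_tr n 1) (dk_idem n 1)

theorem finRotate_pow (k : ℕ) (i : Fin (n + 1)) :
    ((finRotate (n + 1)) ^ k) i = i + (Fin.ofNat (n + 1) k) := by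
  induction k with
  | zero => simp
  | succ k ih =>
    rw [pow_succ', Equiv.Perm.mul_apply, ih, finRotate_succ_apply]
    rw [add_assoc]
    congr 1
    apply Fin.ext
    simp [Fin.val_add, Fin.ofNat]

theorem finRotate_pow_self : (finRotate (n + 1)) ^ (n + 1) = 1 := by
  ext i
  rw [finRotate_pow]
  simp [Fin.ofNat]

theorem RR_pow (k : ℕ) (hk : k ≤ n + 1) :
    RR n ^ k = pm ((finRotate (n + 1)) ^ k) * jE (dk n k) (dk_tr n k) (dk_idem n k) := by
  induction k with
  | zero =>
    have h1 : jE (dk n 0) (dk_tr n 0) (dk_idem n 0) = 1 := by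
      apply Subtype.ext
      have : dk n 0 = 0 := by ext i j; simp [dk]
      simp [jE, this]
    rw [pow_zero, pow_zero, pm_one, h1, mul_one]
  | succ k ih =>
    have hk' : k ≤ n := by omega
    -- the shifted projection
    let D : Matrix (Fin (n + 1)) (Fin (n + 1)) ℤ :=
      Matrix.diagonal (fun i => if 0 < (i : ℕ) ∧ (i : ℕ) < k + 1 then 1 else 0)
    have hD : Dᵀ = D := Matrix.diagonal_transpose _
    have hD2 : D * D = D := by
      simp only [D, Matrix.diagonal_mul_diagonal]
      congr 1
      funext i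
      split_ifs <;> simp
    have hsum : D + dk n 1 = dk n (k + 1) := by
      simp only [D, dk, Matrix.diagonal_add]
      congr 1
      funext i
      by_cases h0 : (i : ℕ) = 0
      · simp [h0]
      · have : 0 < (i : ℕ) := by omega
        have h1 : ¬ (i : ℕ) < 1 := by omega
        simp [this, h1]
    have ho : D * dk n 1 = 0 := by
      simp only [D, dk, Matrix.diagonal_mul_diagonal]
      rw [← Matrix.diagonal_zero]
      congr 1
      funext i
      by_cases h0 : (i : ℕ) = 0
      · simp [h0]
      · have h1 : ¬ (i : ℕ) < 1 := by omega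
        simp [h1]
    have hcomm : jE (dk n k) (dk_tr n k) (dk_idem n k) * pm (finRotate (n + 1)) =
        pm (finRotate (n + 1)) * jE D hD hD2 := by
      have hm : dk n k * (finRotate (n + 1)).permMatrix ℤ =
          (finRotate (n + 1)).permMatrix ℤ * D := by
        ext i j
        simp only [dk, D, Matrix.diagonal_mul, Matrix.mul_diagonal, Equiv.Perm.permMatrix,
          PEquiv.toMatrix_apply, Equiv.toPEquiv_apply, Option.mem_def, Option.some.injEq]
        by_cases hij : finRotate (n + 1) i = j
        · have hj : (j : ℕ) = if (i : ℕ) = n then 0 else (i : ℕ) + 1 := by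
            rw [← hij, coe_finRotate]
            congr 1
            simp [Fin.ext_iff]
          have hi := i.isLt
          rw [if_pos hij, mul_one, one_mul, hj]
          by_cases h1 : (i : ℕ) = n
          · have : ¬ (i : ℕ) < k := by omega
            simp [h1]
            omega
          · simp [h1]
        · rw [if_neg hij, mul_zero, zero_mul]
      apply Subtype.ext
      simp only [jE, pm, mU, Submonoid.coe_mul, fromBlocks_multiply]
      simp only [mul_zero, zero_mul, add_zero, zero_add, mul_sub, sub_mul, mul_one, one_mul,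
        neg_mul, mul_neg, hm, sub_zero, neg_zero]
    rw [pow_succ, ih (by omega), RR, mul_assoc, ← mul_assoc (jE _ _ _), hcomm, mul_assoc,
      ← mul_assoc (pm _) (pm _), ← pm_mul, ← pow_succ',
      jE_mul D (dk n 1) hD hD2 (dk_tr n 1) (dk_idem n 1) (by rw [hsum, dk_tr])
        (by rw [hsum, dk_idem]) ho]
    congr 1
    apply Subtype.ext
    simp only [jE, hsum]

/-- The central element `-1`. -/
def negOne (l : Type*) [Fintype l] [DecidableEq l] : Spl l :=
  ⟨-1, by
    have := SymplecticGroup.neg_mem (one_mem (Matrix.symplecticGroup l ℤ))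
    exact this⟩

theorem negOne_mul (l : Type*) [Fintype l] [DecidableEq l] (g : Spl l) :
    negOne l * g = g * negOne l := by
  apply Subtype.ext
  simp [negOne]

theorem negOne_sq (l : Type*) [Fintype l] [DecidableEq l] : negOne l * negOne l = 1 := by
  apply Subtype.ext
  simp [negOne]

theorem RR_pow_g : RR n ^ (n + 1) * RR n ^ (n + 1) = negOne (Fin (n + 1)) := by
  have h1 : dk n (n + 1) = 1 := by
    have : ∀ i : Fin (n + 1), (i : ℕ) < n + 1 := fun i => i.isLt
    simp only [dk, this, if_true, Matrix.diagonal_one]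
  have h2 : RR n ^ (n + 1) = jE (dk n (n + 1)) (dk_tr n _) (dk_idem n _) := by
    rw [RR_pow n (n + 1) le_rfl, finRotate_pow_self, pm_one, one_mul]
  rw [h2]
  apply Subtype.ext
  simp only [jE, Submonoid.coe_mul, fromBlocks_multiply, negOne, h1]
  simp only [sub_self, mul_zero, zero_add, one_mul, mul_one, add_zero, mul_neg]
  rw [← Matrix.fromBlocks_one, Matrix.fromBlocks_neg]
  simp

theorem RR_pow_2g : RR n ^ (2 * (n + 1)) = negOne (Fin (n + 1)) := by
  rw [two_mul, pow_add, RR_pow_g]

theorem chi_RR (hn : 1 ≤ n) (χ : Spl (Fin (n + 1)) →* Multiplicative (ZMod 2)) :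
    χ (RR n) = 1 := by
  have h1 : dk n 1 = ee (0 : Fin (n + 1)) 0 := by
    rw [dk, ee, ← Matrix.diagonal_single]
    congr 1
    funext i
    by_cases h : i = 0
    · subst h; simp
    · have : ¬ (i : ℕ) < 1 := by
        intro h'
        apply h
        apply Fin.ext
        simp only [Fin.val_zero]
        omega
      rw [Pi.single_eq_of_ne h, if_neg this]
  have h2 : χ (jE (dk n 1) (dk_tr n 1) (dk_idem n 1)) = tau χ 0 := by
    rw [chi_jE, tau]
    congr 1
    apply Subtype.ext
    simp only [nS, h1]
  rw [RR, map_mul, h2, chi_pm χ 0, sign_finRotate]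
  by_cases h : n = 1
  · subst h
    have : ¬ ((-1 : ℤˣ) ^ (1 + 1 - 1) = 1) := by decide
    rw [if_neg this, sq2]
  · have h3 : tau χ (0 : Fin (n + 1)) = 1 := by
      refine tau_three χ 0 ⟨1, by omega⟩ ⟨2, by omega⟩ ?_ ?_ ?_
      · intro h; have := congrArg Fin.val h; simp at this
      · intro h; have := congrArg Fin.val h; simp at this
      · intro h; have := congrArg Fin.val h; simp at this
    rw [h3]
    simp

end elt

end Pool.Agent.HL
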