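import Pool.Agent.Lib_helper43.HL.Coho
import Pool.Agent.Lib_helper43.HL.Grp2

/-!
Part A: classes of `H^{2g}(Sp_{2g}(ℤ); ℤ)` which are odd at `-1` are not killed by
`2 ^ (v₂(g) + 2)` times an odd number.
-/

namespace Pool.Agent.HL

open Finsupp CategoryTheory

/-- The class `c` of degree `n` is odd at the central element `z`: some cocycle representing it
takes an odd value on the chain `cz z n`. -/
def OddAt {G : Type} [Group G] (z : G) {n : ℕ} (c : groupCohomology (ZRep G) n) : Prop :=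
  ∃ x : groupCohomology.cocycles (ZRep G) n, groupCohomology.π (ZRep G) n x = c ∧
    Odd (hom n (groupCohomology.iCocycles (ZRep G) n x) (cz z n))

theorem key_alg {G : Type} [Group G] (z h : G) (hz : ∀ g, z * g = g * z) (hz2 : z * z = 1)
    (L : ℕ) (hL0 : L ≠ 0) (hL : h ^ L = z) (k : ℕ) (hk : Even k)
    (c : groupCohomology (ZRep G) (k + 2)) (hc : OddAt z c) (m : ℤ) (hm : Odd m)
    (h0 : (((L + L : ℕ) : ℤ) * m) • c = 0) :
    ∃ χ : G →* Multiplicative (ZMod 2), χ h ≠ 1 := by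
  obtain ⟨x, hx, hodd⟩ := hc
  have h1 : groupCohomology.π (ZRep G) (k + 2) ((((L + L : ℕ) : ℤ) * m) • x) = 0 := by
    rw [map_zsmul, hx, h0]
  obtain ⟨f, hf⟩ := pi_eq_zero (k + 1) _ h1
  rw [map_zsmul] at hf
  set e : (Fin (k + 2) → G) → ℤ := groupCohomology.iCocycles (ZRep G) (k + 2) x with he
  have hde : inhomogeneousCochains.d (ZRep G) (k + 2) e = 0 := d_iCocycles (k + 2) x
  refine exists_char z h hz hz2 L hL0 hL k hk (hom (k + 1) f) (m • hom (k + 2) e)
    (fun g x => hom_ac _ _ _ _) (fun g x => ?_) (fun x => ?_) (fun x => ?_) ?_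
  · rw [LinearMap.smul_apply, LinearMap.smul_apply, hom_ac]
  · rw [LinearMap.smul_apply, hom_bd, hde]
    have : hom (k + 2 + 1) (0 : (Fin (k + 2 + 1) → G) → ℤ) = 0 := by
      have := hom_smul (G := G) (k + 2 + 1) 0 0
      simpa using this
    rw [this]
    simp
  · rw [hom_bd, hf]
    have := hom_smul (G := G) (k + 2) (((L + L : ℕ) : ℤ) * m) e
    rw [LinearMap.smul_apply, smul_eq_mul, ← mul_assoc]
    exact LinearMap.congr_fun this x
  · rw [LinearMap.smul_apply, smul_eq_mul]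
    exact hm.mul hodd

/-- **Part A.** -/
theorem partA (g : ℕ) (hg : 2 ≤ g) (c : groupCohomology (ZRep (Spl (Fin g))) (2 * g))
    (hc : OddAt (negOne (Fin g)) c) (m : ℤ) (hm : Odd m) :
    ((2 : ℤ) ^ (padicValNat 2 g + 2) * m) • c ≠ 0 := by
  obtain ⟨n, rfl⟩ : ∃ n, g = n + 1 := ⟨g - 1, by omega⟩
  intro h0
  obtain ⟨q, hq, hq2⟩ : ∃ q, n + 1 = 2 ^ (padicValNat 2 (n + 1)) * q ∧ Odd q := by
    obtain ⟨q, hq⟩ := pow_padicValNat_dvd (p := 2) (n := n + 1)
    refine ⟨q, hq, ?_⟩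
    rw [← Nat.not_even_iff_odd, even_iff_two_dvd]
    rintro ⟨r, hr⟩
    have h1 : 2 ^ (padicValNat 2 (n + 1) + 1) ∣ n + 1 := ⟨r, by rw [pow_succ, mul_assoc, ← hr]; exact hq⟩
    exact pow_succ_padicValNat_not_dvd (by omega) h1
  have hL : (RR n ^ q) ^ (2 ^ (padicValNat 2 (n + 1) + 1)) = negOne (Fin (n + 1)) := by
    rw [← pow_mul, ← RR_pow_2g n]
    congr 1
    conv_rhs => rw [hq]
    ring
  obtain ⟨χ, hχ⟩ := key_alg (negOne (Fin (n + 1))) (RR n ^ q) (negOne_mul _) (negOne_sq _)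
    (2 ^ (padicValNat 2 (n + 1) + 1)) (by positivity) hL (2 * n) (even_two_mul n) c hc m hm (by
      rw [← h0]
      congr 2
      push_cast
      ring)
  apply hχ
  rw [map_pow, chi_RR n (by omega) χ, one_pow]

end Pool.Agent.HL
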