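import Pool.Agent.Lib_helper43.HL.Parity2
import Pool.Agent.Lib_helper43.HL.PartA

/-!
The top Hodge class of `A_g` in `H^{2g}(Sp_{2g}(ℤ); ℤ)`, up to sign: the Euler class of the flat
oriented bundle `ℝ^{2g}`; its order is not a divisor of `2 ^ (v₂(g) + 2)` times an odd number.
-/

namespace Pool.Agent.HL

open Finsupp Matrix CategoryTheory

variable {G : Type} [Group G]

theorem d_eCo' {n : ℕ} (hn : n ≠ 0) {ρ : G →* Matrix (Fin n) (Fin n) ℝ} (hρ : ∀ g, 0 < (ρ g).det)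
    {F : (k : ℕ) → T G k →ₗ[ℤ] T (Fin n → ℝ) k} (hF : Adm ρ F) :
    inhomogeneousCochains.d (ZRep G) n (eCo F) = 0 := by
  obtain ⟨m, rfl⟩ := Nat.exists_eq_succ_of_ne_zero hn
  exact d_eCo hρ hF

/-- The integral Euler class in `H^n(G; ℤ)` of an orientation-preserving representation
`ρ : G → GL_n(ℝ)`: the class of the obstruction cocycle of the partial chain map `FF ρ`. -/
noncomputable def eulerClass {n : ℕ} (hn : n ≠ 0) (ρ : G →* Matrix (Fin n) (Fin n) ℝ)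
    (hρ : ∀ g, 0 < (ρ g).det) : groupCohomology (ZRep G) n :=
  cls (eCo (FF ρ)) (d_eCo' hn hρ (FF_adm ρ fun g => (hρ g).ne'))

/-- The Euler class is computed by every admissible partial chain map. -/
theorem eulerClass_eq {n : ℕ} (hn : n ≠ 0) (ρ : G →* Matrix (Fin n) (Fin n) ℝ)
    (hρ : ∀ g, 0 < (ρ g).det) {F : (k : ℕ) → T G k →ₗ[ℤ] T (Fin n → ℝ) k} (hF : Adm ρ F) :
    eulerClass hn ρ hρ = cls (eCo F) (d_eCo' hn hρ hF) := by
  obtain ⟨m, rfl⟩ := Nat.exists_eq_succ_of_ne_zero hn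
  obtain ⟨b, hb⟩ := eCo_unique ρ hρ (FF_adm ρ fun g => (hρ g).ne') hF
  exact cls_eq _ _ _ _ b hb

theorem oddAt_eulerClass {n : ℕ} (hn : n ≠ 0) (hev : Even n) (ρ : G →* Matrix (Fin n) (Fin n) ℝ)
    (hρ : ∀ g, 0 < (ρ g).det) (z : G) (hz2 : z * z = 1) (hz : ρ z = -1) :
    OddAt z (eulerClass hn ρ hρ) := by
  obtain ⟨m, rfl⟩ := Nat.exists_eq_succ_of_ne_zero hn
  have hm : Odd m := by
    rw [Nat.succ_eq_add_one, Nat.even_add_one, Nat.not_even_iff_odd] at hev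
    exact hev
  refine ⟨groupCohomology.cocyclesMk (eCo (FF ρ)) (d_eCo' hn hρ (FF_adm ρ fun g => (hρ g).ne')),
    rfl, ?_⟩
  rw [groupCohomology.iCocycles_mk]
  exact odd_eCo hm ρ hρ (FF_adm ρ fun g => (hρ g).ne') z hz2 hz

/-- The coordinates of `ℤ^{2g}`: first the `g` coordinates `e_i`, then the `g` coordinates `f_i`. -/
def crd (g : ℕ) : Fin g ⊕ Fin g ≃ Fin (2 * g) := finSumFinEquiv.trans (finCongr (two_mul g).symm)

/-- The standard representation of `Sp_{2g}(ℤ)` on `ℝ^{2g}`. -/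
noncomputable def spRep (g : ℕ) : Spl (Fin g) →* Matrix (Fin (2 * g)) (Fin (2 * g)) ℝ where
  toFun A := Matrix.reindex (crd g) (crd g) ((A : Matrix (Fin g ⊕ Fin g) (Fin g ⊕ Fin g) ℤ).map (Int.cast : ℤ → ℝ))
  map_one' := by
    have : ((1 : Matrix (Fin g ⊕ Fin g) (Fin g ⊕ Fin g) ℤ).map (Int.cast : ℤ → ℝ)) = 1 :=
      Matrix.map_one _ (by simp) (by simp)
    rw [Submonoid.coe_one, this]
    simp
  map_mul' A B := by
    have : (((A : Matrix (Fin g ⊕ Fin g) (Fin g ⊕ Fin g) ℤ) *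
        (B : Matrix (Fin g ⊕ Fin g) (Fin g ⊕ Fin g) ℤ)).map (Int.cast : ℤ → ℝ)) =
        (A : Matrix (Fin g ⊕ Fin g) (Fin g ⊕ Fin g) ℤ).map (Int.cast : ℤ → ℝ) *
        (B : Matrix (Fin g ⊕ Fin g) (Fin g ⊕ Fin g) ℤ).map (Int.cast : ℤ → ℝ) :=
      Matrix.map_mul (f := Int.castRingHom ℝ)
    rw [Submonoid.coe_mul, this]
    simp [Matrix.reindex_apply, Matrix.submatrix_mul_equiv]

theorem spRep_det (g : ℕ) (A : Spl (Fin g)) : (spRep g A).det = 1 := by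
  have h1 : (spRep g A).det = ((A : Matrix (Fin g ⊕ Fin g) (Fin g ⊕ Fin g) ℤ).map (Int.cast : ℤ → ℝ)).det :=
    Matrix.det_reindex_self _ _
  rw [h1]
  have h2 : ((A : Matrix (Fin g ⊕ Fin g) (Fin g ⊕ Fin g) ℤ).map (Int.cast : ℤ → ℝ)).det =
      (((A : Matrix (Fin g ⊕ Fin g) (Fin g ⊕ Fin g) ℤ).det : ℤ) : ℝ) :=
    ((Int.castRingHom ℝ).map_det _).symm
  rw [h2, SymplecticGroup.det_eq_one A.2]
  simp

theorem spRep_pos (g : ℕ) (A : Spl (Fin g)) : 0 < (spRep g A).det := by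
  rw [spRep_det]; norm_num

theorem spRep_neg (g : ℕ) : spRep g (negOne (Fin g)) = -1 := by
  ext i j
  simp only [spRep, negOne, MonoidHom.coe_mk, OneHom.coe_mk, Matrix.reindex_apply,
    Matrix.submatrix_apply, Matrix.map_apply, Matrix.neg_apply, Matrix.one_apply]
  by_cases h : i = j
  · subst h; simp
  · have : ¬ ((crd g).symm i = (crd g).symm j) := fun h' => h ((crd g).symm.injective h')
    simp [h]

/-- The top Hodge class `λ_g` of `A_g` up to sign, in `H^{2g}(A_g; ℤ) = H^{2g}(Sp_{2g}(ℤ); ℤ)`: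
the Euler class of the flat bundle `ℝ^{2g}`, the real bundle underlying the Hodge bundle. -/
noncomputable def hodgeTop (g : ℕ) (hg : 2 * g ≠ 0) : groupCohomology (ZRep (Spl (Fin g))) (2 * g) :=
  eulerClass hg (spRep g) (spRep_pos g)

/-- **The 2-part.** For `g ≥ 2` the class `λ_g` is not killed by `2 ^ (v₂(g) + 2)` times an odd
number. -/
theorem two_part (g : ℕ) (hg : 2 ≤ g) (m : ℤ) (hm : Odd m) :
    ((2 : ℤ) ^ (padicValNat 2 g + 2) * m) • hodgeTop g (by omega) ≠ 0 :=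
  partA g hg _ (oddAt_eulerClass _ (even_two_mul g) _ _ (negOne (Fin g)) (negOne_sq _) (spRep_neg g))
    m hm

end Pool.Agent.HL
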