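import Mathlib

/-!
One-dimensional jump count.
-/

namespace Pool.Agent.HL

variable {ι : Type*} [Fintype ι] [DecidableEq ι]

/-- All coordinates except `i` of `a - (a_i / c_i) c` are positive. -/
def Cnd (a c : ι → ℝ) (i : ι) : Prop := ∀ j, j ≠ i → 0 < a j - a i / c i * c j

/-- The jump sum. -/
noncomputable def jsum (a c : ι → ℝ) : ℤ := by
  classical
  exact ∑ i, if Cnd a c i then (SignType.sign (c i) : ℤ) else 0

omit [Fintype ι] [DecidableEq ι] in
theorem cnd_pos {a c : ι → ℝ} {i j : ι} (hj : 0 < c j) :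
    0 < a j - a i / c i * c j ↔ a i / c i < a j / c j := by
  rw [sub_pos, lt_div_iff₀ hj]

omit [Fintype ι] [DecidableEq ι] in
theorem cnd_neg {a c : ι → ℝ} {i j : ι} (hj : c j < 0) :
    0 < a j - a i / c i * c j ↔ a j / c j < a i / c i := by
  rw [sub_pos, div_lt_iff_of_neg hj]

omit [Fintype ι] [DecidableEq ι] in
theorem ratio_ne {a c : ι → ℝ} (hg : ∀ i j, i ≠ j → c i ≠ 0 → a i * c j ≠ a j * c i)
    {i j : ι} (hij : i ≠ j) (hi : c i ≠ 0) (hj : c j ≠ 0) : a i / c i ≠ a j / c j := by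
  intro h
  rw [div_eq_div_iff hi hj] at h
  exact hg i j hij hi h

/-- The minimal ratio over the positive indices. -/
theorem exists_min_pos (a c : ι → ℝ) (hp : ∃ i, 0 < c i) :
    ∃ i, 0 < c i ∧ ∀ j, 0 < c j → a i / c i ≤ a j / c j := by
  classical
  obtain ⟨i, hi, h⟩ := Finset.exists_min_image (Finset.univ.filter fun i => 0 < c i)
    (fun i => a i / c i) (by obtain ⟨i, hi⟩ := hp; exact ⟨i, by simp [hi]⟩)
  refine ⟨i, by simpa using hi, fun j hj => h j (by simp [hj])⟩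

theorem exists_max_neg (a c : ι → ℝ) (hp : ∃ i, c i < 0) :
    ∃ i, c i < 0 ∧ ∀ j, c j < 0 → a j / c j ≤ a i / c i := by
  classical
  obtain ⟨i, hi, h⟩ := Finset.exists_max_image (Finset.univ.filter fun i => c i < 0)
    (fun i => a i / c i) (by obtain ⟨i, hi⟩ := hp; exact ⟨i, by simp [hi]⟩)
  refine ⟨i, by simpa using hi, fun j hj => h j (by simp [hj])⟩

theorem not_cnd_pos {a c : ι → ℝ} {i i0 : ι} (hi0 : 0 < c i0) (hne : i ≠ i0)
    (hle : a i0 / c i0 ≤ a i / c i) : ¬ Cnd a c i := by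
  intro h
  have := (cnd_pos hi0).mp (h i0 hne.symm)
  linarith

theorem not_cnd_neg {a c : ι → ℝ} {i i0 : ι} (hi0 : c i0 < 0) (hne : i ≠ i0)
    (hle : a i / c i ≤ a i0 / c i0) : ¬ Cnd a c i := by
  intro h
  have := (cnd_neg hi0).mp (h i0 hne.symm)
  linarith

theorem jsum_mixed (a c : ι → ℝ) (hg : ∀ i j, i ≠ j → c i ≠ 0 → a i * c j ≠ a j * c i)
    (hp : ∃ i, 0 < c i) (hn : ∃ i, c i < 0) : jsum a c = 0 := by
  classical
  obtain ⟨p, hp, hpm⟩ := exists_min_pos a c hp
  obtain ⟨q, hq, hqm⟩ := exists_max_neg a c hn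
  have hpq : p ≠ q := by rintro rfl; linarith
  have key : Cnd a c p ↔ Cnd a c q := by
    constructor
    · intro h j hj
      rcases lt_trichotomy (c j) 0 with hc | hc | hc
      · rw [cnd_neg hc]
        exact lt_of_le_of_ne (hqm j hc) (ratio_ne hg hj hc.ne hq.ne)
      · have h1 := h j (by rintro rfl; linarith)
        rw [hc, mul_zero] at h1 ⊢
        exact h1
      · rw [cnd_pos hc]
        have h1 := (cnd_neg hq).mp (h q hpq.symm)
        exact lt_of_lt_of_le h1 (hpm j hc)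
    · intro h j hj
      rcases lt_trichotomy (c j) 0 with hc | hc | hc
      · rw [cnd_neg hc]
        have h1 := (cnd_pos hp).mp (h p hpq)
        exact lt_of_le_of_lt (hqm j hc) h1
      · have h1 := h j (by rintro rfl; linarith)
        rw [hc, mul_zero] at h1 ⊢
        exact h1
      · rw [cnd_pos hc]
        exact lt_of_le_of_ne (hpm j hc) (ratio_ne hg hj.symm hp.ne' hc.ne')
  rw [jsum, Finset.sum_eq_add_of_mem p q (Finset.mem_univ _) (Finset.mem_univ _) hpq]
  · by_cases h : Cnd a c p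
    · rw [if_pos h, if_pos (key.mp h), sign_pos hp, sign_neg hq]
      simp
    · rw [if_neg h, if_neg (fun h' => h (key.mpr h'))]
      simp
  · rintro j - ⟨hjp, hjq⟩
    rcases lt_trichotomy (c j) 0 with hc | hc | hc
    · rw [if_neg (not_cnd_neg hq hjq (hqm j hc))]
    · rw [hc]; simp
    · rw [if_neg (not_cnd_pos hp hjp (hpm j hc))]

theorem jsum_pos [Nonempty ι] (a c : ι → ℝ)
    (hg : ∀ i j, i ≠ j → c i ≠ 0 → a i * c j ≠ a j * c i) (hp : ∀ i, 0 < c i) :
    jsum a c = 1 := by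
  classical
  obtain ⟨p, hp', hpm⟩ := exists_min_pos a c ⟨Classical.arbitrary ι, hp _⟩
  rw [jsum, Finset.sum_eq_single p]
  · rw [if_pos, sign_pos hp']
    · simp
    · intro j hj
      rw [cnd_pos (hp j)]
      exact lt_of_le_of_ne (hpm j (hp j)) (ratio_ne hg hj.symm (hp p).ne' (hp j).ne')
  · intro j _ hj
    rw [if_neg (not_cnd_pos hp' hj (hpm j (hp j)))]
  · intro h; exact absurd (Finset.mem_univ _) h

theorem jsum_neg [Nonempty ι] (a c : ι → ℝ)
    (hg : ∀ i j, i ≠ j → c i ≠ 0 → a i * c j ≠ a j * c i) (hp : ∀ i, c i < 0) :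
    jsum a c = -1 := by
  classical
  obtain ⟨p, hp', hpm⟩ := exists_max_neg a c ⟨Classical.arbitrary ι, hp _⟩
  rw [jsum, Finset.sum_eq_single p]
  · rw [if_pos, sign_neg hp']
    · simp
    · intro j hj
      rw [cnd_neg (hp j)]
      exact lt_of_le_of_ne (hpm j (hp j)) (ratio_ne hg hj (hp j).ne (hp p).ne)
  · intro j _ hj
    rw [if_neg (not_cnd_neg hp' hj (hpm j (hp j)))]
  · intro h; exact absurd (Finset.mem_univ _) h

end Pool.Agent.HL
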