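import Pool.Agent.Lib_helper43.HL.Jump

/-!
Signed count of open cones containing a generic point.
-/

namespace Pool.Agent.HL

open Matrix

/-- `sign det v` if `p` lies in the open cone of `v`, and `0` otherwise. -/
noncomputable def phi {n : ℕ} (p : Fin n → ℝ) (v : Fin n → Fin n → ℝ) : ℤ := by
  classical
  exact if ∃ b : Fin n → ℝ, (∀ j, 0 < b j) ∧ p = ∑ j, b j • v j then
    (SignType.sign (Matrix.det (Matrix.of v)) : ℤ) else 0

/-- The signed maximal minors of `n + 1` vectors in `ℝ^n`. -/
noncomputable def cf {n : ℕ} (u : Fin (n + 1) → Fin n → ℝ) (i : Fin (n + 1)) : ℝ :=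
  (-1) ^ (i : ℕ) * Matrix.det (Matrix.of (u ∘ i.succAbove))

theorem cf_rel {n : ℕ} (u : Fin (n + 1) → Fin n → ℝ) : ∑ i, cf u i • u i = 0 := by
  funext k
  let M : Matrix (Fin (n + 1)) (Fin (n + 1)) ℝ :=
    Matrix.of fun i j => Fin.cases (u i k) (fun j => u i j) j
  have h1 : M.det = 0 := Matrix.det_zero_of_column_eq (i := 0) (j := k.succ)
    (Fin.succ_ne_zero k).symm (fun i => by simp [M])
  rw [Matrix.det_succ_column_zero] at h1
  rw [Finset.sum_apply, Pi.zero_apply, ← h1]
  refine Finset.sum_congr rfl fun i _ => ?_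
  have : M.submatrix i.succAbove Fin.succ = Matrix.of (u ∘ i.succAbove) := by
    ext a b; simp [M]
  rw [this, Pi.smul_apply, smul_eq_mul, cf]
  simp [M]
  ring

theorem sum_split {n : ℕ} (u : Fin (n + 1) → Fin n → ℝ) (i : Fin (n + 1)) (a : Fin (n + 1) → ℝ) :
    ∑ k, a k • u k = a i • u i + ∑ j, a (i.succAbove j) • (u ∘ i.succAbove) j :=
  Fin.sum_univ_succAbove _ i

theorem uniq {n : ℕ} {v : Fin n → Fin n → ℝ} (hv : Matrix.det (Matrix.of v) ≠ 0)
    {a b : Fin n → ℝ} (h : ∑ j, a j • v j = ∑ j, b j • v j) : a = b := by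
  have h1 := Matrix.linearIndependent_rows_of_det_ne_zero hv
  have h2 : ∑ j, (a j - b j) • (Matrix.of v) j = 0 := by
    have : ∀ j, (a j - b j) • (Matrix.of v) j = a j • v j - b j • v j := fun j => sub_smul _ _ _
    simp only [this, Finset.sum_sub_distrib, h, sub_self]
  rw [Fintype.linearIndependent_iff] at h1
  funext j
  have := h1 _ h2 j
  linarith

theorem exists_rep {n : ℕ} {v : Fin n → Fin n → ℝ} (hv : Matrix.det (Matrix.of v) ≠ 0)
    (p : Fin n → ℝ) : ∃ a : Fin n → ℝ, p = ∑ j, a j • v j := by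
  refine ⟨p ᵥ* (Matrix.of v)⁻¹, ?_⟩
  have h1 : (p ᵥ* (Matrix.of v)⁻¹) ᵥ* (Matrix.of v) = p := by
    rw [Matrix.vecMul_vecMul, Matrix.nonsing_inv_mul _ (isUnit_iff_ne_zero.mpr hv),
      Matrix.vecMul_one]
  conv_lhs => rw [← h1, Matrix.vecMul_eq_sum]
  rfl

theorem phi_face {n : ℕ} (u : Fin (n + 1) → Fin n → ℝ) (a : Fin (n + 1) → ℝ) (p : Fin n → ℝ)
    (hp : p = ∑ k, a k • u k) (i : Fin (n + 1)) [Decidable (Cnd a (cf u) i)] :
    (-1) ^ (i : ℕ) * phi p (u ∘ i.succAbove) =
      if Cnd a (cf u) i then (SignType.sign (cf u i) : ℤ) else 0 := by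
  classical
  by_cases h0 : cf u i = 0
  · have h1 : Matrix.det (Matrix.of (u ∘ i.succAbove)) = 0 := by
      rw [cf] at h0
      rcases mul_eq_zero.mp h0 with h | h
      · exact absurd h (pow_ne_zero _ (by norm_num))
      · exact h
    rw [phi, h1, h0]
    simp
  · have hdet : Matrix.det (Matrix.of (u ∘ i.succAbove)) ≠ 0 := by
      intro h
      apply h0
      rw [cf, h, mul_zero]
    have hsign : (-1 : ℤ) ^ (i : ℕ) * (SignType.sign (Matrix.det (Matrix.of (u ∘ i.succAbove))) : ℤ)
        = (SignType.sign (cf u i) : ℤ) := by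
      rw [cf]
      rcases neg_one_pow_eq_or ℤ (i : ℕ) with h | h
      · have h' : (-1 : ℝ) ^ (i : ℕ) = 1 := by exact_mod_cast congrArg (Int.cast : ℤ → ℝ) h
        rw [h, h', one_mul, one_mul]
      · have h' : (-1 : ℝ) ^ (i : ℕ) = -1 := by
          have := congrArg (Int.cast : ℤ → ℝ) h
          push_cast at this
          exact this
        rw [h, h', neg_one_mul, neg_one_mul, Left.sign_neg]
        simp
    -- the representation without `u i`
    have hrep : p = ∑ j, (a (i.succAbove j) - a i / cf u i * cf u (i.succAbove j)) •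
        (u ∘ i.succAbove) j := by
      have h1 : p = ∑ k, (a k - a i / cf u i * cf u k) • u k := by
        have : ∀ k, (a k - a i / cf u i * cf u k) • u k =
            a k • u k - (a i / cf u i) • (cf u k • u k) := by
          intro k; rw [sub_smul, mul_smul]
        simp only [this]
        rw [Finset.sum_sub_distrib, ← Finset.smul_sum, cf_rel, smul_zero, sub_zero, hp]
      rw [sum_split u i] at h1
      have h2 : a i - a i / cf u i * cf u i = 0 := by
        field_simp
        ring
      rw [h2, zero_smul, zero_add] at h1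
      exact h1
    have hiff : (∃ b : Fin n → ℝ, (∀ j, 0 < b j) ∧ p = ∑ j, b j • (u ∘ i.succAbove) j) ↔
        Cnd a (cf u) i := by
      constructor
      · rintro ⟨b, hb, hpb⟩ j hj
        obtain ⟨k, rfl⟩ := Fin.exists_succAbove_eq hj
        have := uniq hdet (hrep.symm.trans hpb)
        have h3 := congrFun this k
        rw [h3]
        exact hb k
      · intro h
        exact ⟨_, fun j => h _ (Fin.succAbove_ne i j), hrep⟩
    rw [phi]
    by_cases hc : Cnd a (cf u) i
    · rw [if_pos hc, if_pos (hiff.mpr hc), hsign]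
    · rw [if_neg hc, if_neg (fun h => hc (hiff.mp h)), mul_zero]

/-- Genericity of a point with respect to `n + 1` vectors in `ℝ^n`. -/
def Gen2 {n : ℕ} (p : Fin n → ℝ) (u : Fin (n + 1) → Fin n → ℝ) : Prop :=
  ∀ i j : Fin (n + 1), i ≠ j → p ∉ Submodule.span ℝ (u '' {k | k ≠ i ∧ k ≠ j})

/-- Genericity of a point with respect to `n` vectors in `ℝ^n`. -/
def Gen1 {n : ℕ} (p : Fin n → ℝ) (v : Fin n → Fin n → ℝ) : Prop :=
  ∀ i : Fin n, p ∉ Submodule.span ℝ (v '' {k | k ≠ i})

theorem gen_ratio {n : ℕ} (u : Fin (n + 1) → Fin n → ℝ) (a : Fin (n + 1) → ℝ) (p : Fin n → ℝ)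
    (hp : p = ∑ k, a k • u k) (hg : Gen2 p u) (i j : Fin (n + 1)) (hij : i ≠ j)
    (hi : cf u i ≠ 0) : a i * cf u j ≠ a j * cf u i := by
  intro h
  apply hg i j hij
  have h1 : p = ∑ k, (a k - a i / cf u i * cf u k) • u k := by
    have : ∀ k, (a k - a i / cf u i * cf u k) • u k =
        a k • u k - (a i / cf u i) • (cf u k • u k) := by
      intro k; rw [sub_smul, mul_smul]
    simp only [this]
    rw [Finset.sum_sub_distrib, ← Finset.smul_sum, cf_rel, smul_zero, sub_zero, hp]
  rw [h1]
  refine Submodule.sum_mem _ fun k _ => ?_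
  by_cases hki : k = i
  · subst hki
    have : a k - a k / cf u k * cf u k = 0 := by field_simp; ring
    rw [this, zero_smul]
    exact Submodule.zero_mem _
  · by_cases hkj : k = j
    · subst hkj
      have : a k - a i / cf u i * cf u k = 0 := by
        field_simp
        linarith
      rw [this, zero_smul]
      exact Submodule.zero_mem _
    · exact Submodule.smul_mem _ _ (Submodule.subset_span ⟨k, ⟨hki, hkj⟩, rfl⟩)

theorem face_jsum {n : ℕ} (u : Fin (n + 1) → Fin n → ℝ) (a : Fin (n + 1) → ℝ) (p : Fin n → ℝ)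
    (hp : p = ∑ k, a k • u k) :
    ∑ i : Fin (n + 1), (-1) ^ (i : ℕ) * phi p (u ∘ i.succAbove) = jsum a (cf u) := by
  classical
  rw [jsum]
  exact Finset.sum_congr rfl fun i _ => phi_face u a p hp i

/-- If all minors vanish, all terms vanish. -/
theorem phi_zero {n : ℕ} (u : Fin (n + 1) → Fin n → ℝ) (p : Fin n → ℝ) (i : Fin (n + 1))
    (h : cf u i = 0) : phi p (u ∘ i.succAbove) = 0 := by
  have h1 : Matrix.det (Matrix.of (u ∘ i.succAbove)) = 0 := by
    rw [cf] at h
    rcases mul_eq_zero.mp h with h | h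
    · exact absurd h (pow_ne_zero _ (by norm_num))
    · exact h
  rw [phi, h1]
  simp

theorem exists_rep' {n : ℕ} (u : Fin (n + 1) → Fin n → ℝ) (p : Fin n → ℝ) (i : Fin (n + 1))
    (h : cf u i ≠ 0) : ∃ a : Fin (n + 1) → ℝ, p = ∑ k, a k • u k := by
  have hdet : Matrix.det (Matrix.of (u ∘ i.succAbove)) ≠ 0 := by
    intro h'
    apply h
    rw [cf, h', mul_zero]
  obtain ⟨b, hb⟩ := exists_rep hdet p
  refine ⟨i.insertNth 0 b, ?_⟩
  rw [sum_split u i]
  simp [hb]

/-- A linear relation among vectors whose convex hull misses the origin has both signs. -/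
theorem both_signs {ι : Type*} [Fintype ι] {E : Type*} [AddCommGroup E] [Module ℝ E] (v : ι → E)
    (h0 : (0 : E) ∉ convexHull ℝ (Set.range v)) (c : ι → ℝ) (hc : ∑ i, c i • v i = 0)
    (hne : ∃ i, c i ≠ 0) : (∃ i, 0 < c i) ∧ (∃ i, c i < 0) := by
  have main : ∀ d : ι → ℝ, (∑ i, d i • v i = 0) → (∃ i, d i ≠ 0) → ∃ i, d i < 0 := by
    intro d hd hne
    by_contra hcon
    push Not at hcon
    obtain ⟨i0, hi0⟩ := hne
    have hpos : 0 < ∑ i, d i := Finset.sum_pos' (fun i _ => hcon i)
      ⟨i0, Finset.mem_univ _, lt_of_le_of_ne (hcon i0) (Ne.symm hi0)⟩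
    apply h0
    have h1 : (Finset.univ.centerMass d v) ∈ convexHull ℝ (Set.range v) :=
      Finset.centerMass_mem_convexHull _ (fun i _ => hcon i) hpos (fun i _ => ⟨i, rfl⟩)
    rw [Finset.centerMass, hd, smul_zero] at h1
    exact h1
  refine ⟨?_, main c hc hne⟩
  obtain ⟨i, hi⟩ := main (fun i => - c i) (by simp [hc]) (by
    obtain ⟨i, hi⟩ := hne; exact ⟨i, neg_ne_zero.mpr hi⟩)
  exact ⟨i, by linarith⟩

/-- The signed count vanishes on boundaries of simplices missing the origin. -/
theorem face_zero {n : ℕ} (u : Fin (n + 1) → Fin n → ℝ) (p : Fin n → ℝ)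
    (h0 : (0 : Fin n → ℝ) ∉ convexHull ℝ (Set.range u)) (hg : Gen2 p u) :
    ∑ i : Fin (n + 1), (-1) ^ (i : ℕ) * phi p (u ∘ i.succAbove) = 0 := by
  by_cases hall : ∀ i, cf u i = 0
  · refine Finset.sum_eq_zero fun i _ => ?_
    rw [phi_zero u p i (hall i), mul_zero]
  · push Not at hall
    obtain ⟨i, hi⟩ := hall
    obtain ⟨a, ha⟩ := exists_rep' u p i hi
    rw [face_jsum u a p ha]
    obtain ⟨h1, h2⟩ := both_signs u h0 (cf u) (cf_rel u) ⟨i, hi⟩
    exact jsum_mixed a (cf u) (fun i j hij hi => gen_ratio u a p ha hg i j hij hi) h1 h2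

/-- **The cone formula.** -/
theorem cone_face {n : ℕ} (v : Fin n → Fin n → ℝ) (w p : Fin n → ℝ)
    (h0 : (0 : Fin n → ℝ) ∉ convexHull ℝ (Set.range v)) (hw : Gen1 w v)
    (hg : Gen2 p (Fin.cons w v : Fin (n + 1) → Fin n → ℝ)) :
    ∑ i : Fin (n + 1), (-1) ^ (i : ℕ) *
      phi p ((Fin.cons w v : Fin (n + 1) → Fin n → ℝ) ∘ i.succAbove) = phi (-w) v := by
  classical
  set u : Fin (n + 1) → Fin n → ℝ := Fin.cons w v with hu
  have hu0 : u 0 = w := rfl
  have hus : ∀ j : Fin n, u j.succ = v j := fun j => rfl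
  have hcomp : u ∘ (0 : Fin (n + 1)).succAbove = v := by
    funext j
    simp [hu]
  have hc0 : cf u 0 = Matrix.det (Matrix.of v) := by
    rw [cf, hcomp]; simp
  have hrel : cf u 0 • w + ∑ j : Fin n, cf u j.succ • v j = 0 := by
    have := cf_rel u
    rw [Fin.sum_univ_succ] at this
    exact this
  by_cases hall : ∀ i, cf u i = 0
  · rw [Finset.sum_eq_zero fun i _ => by rw [phi_zero u p i (hall i), mul_zero]]
    rw [phi, ← hc0, hall 0]
    simp
  · push Not at hall
    obtain ⟨i, hi⟩ := hall
    obtain ⟨a, ha⟩ := exists_rep' u p i hi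
    have hr := fun i j hij hi => gen_ratio u a p ha hg i j hij hi
    rw [face_jsum u a p ha]
    by_cases h00 : cf u 0 = 0
    · have hrel' : ∑ j : Fin n, cf u j.succ • v j = 0 := by
        rw [h00, zero_smul, zero_add] at hrel
        exact hrel
      have hex : ∃ j : Fin n, cf u j.succ ≠ 0 := by
        by_contra hcon
        push Not at hcon
        apply hi
        refine Fin.cases h00 (fun j => hcon j) i
      obtain ⟨⟨j1, h1⟩, ⟨j2, h2⟩⟩ := both_signs v h0 (fun j => cf u j.succ) hrel' hex
      rw [jsum_mixed a (cf u) hr ⟨_, h1⟩ ⟨_, h2⟩, phi, ← hc0, h00]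
      simp
    · have hdet : Matrix.det (Matrix.of v) ≠ 0 := by rw [← hc0]; exact h00
      have hmw : -w = ∑ j : Fin n, (cf u j.succ / cf u 0) • v j := by
        have h1 : cf u 0 • (-w) = ∑ j : Fin n, cf u j.succ • v j := by
          rw [smul_neg, neg_eq_iff_add_eq_zero]
          exact hrel
        have h2 : -w = (cf u 0)⁻¹ • (cf u 0 • (-w)) := by
          rw [smul_smul, inv_mul_cancel₀ h00, one_smul]
        rw [h2, h1, Finset.smul_sum]
        refine Finset.sum_congr rfl fun j _ => ?_
        rw [smul_smul]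
        congr 1
        field_simp
      have hnz : ∀ j : Fin n, cf u j.succ ≠ 0 := by
        intro j hj
        apply hw j
        rw [← Submodule.neg_mem_iff, hmw]
        refine Submodule.sum_mem _ fun k _ => ?_
        by_cases hk : k = j
        · subst hk
          rw [hj, zero_div, zero_smul]
          exact Submodule.zero_mem _
        · exact Submodule.smul_mem _ _ (Submodule.subset_span ⟨k, hk, rfl⟩)
      by_cases hpos : ∀ j : Fin n, 0 < cf u j.succ / cf u 0
      · have hphi : phi (-w) v = (SignType.sign (cf u 0) : ℤ) := by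
          rw [phi, if_pos ⟨_, hpos, hmw⟩, hc0]
        rw [hphi]
        rcases lt_or_gt_of_ne h00 with hneg | hpos0
        · have : ∀ i, cf u i < 0 := by
            refine Fin.cases hneg (fun j => ?_)
            have := hpos j
            rw [div_pos_iff] at this
            rcases this with h | h
            · linarith [h.2]
            · exact h.1
          rw [jsum_neg a (cf u) hr this, sign_neg hneg]
          simp
        · have : ∀ i, 0 < cf u i := by
            refine Fin.cases hpos0 (fun j => ?_)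
            have := hpos j
            rw [div_pos_iff] at this
            rcases this with h | h
            · exact h.1
            · linarith [h.2]
          rw [jsum_pos a (cf u) hr this, sign_pos hpos0]
          simp
      · have hphi : phi (-w) v = 0 := by
          rw [phi, if_neg]
          rintro ⟨b, hb, hb2⟩
          apply hpos
          have := uniq hdet (hmw.symm.trans hb2)
          intro j
          rw [congrFun this j]
          exact hb j
        rw [hphi]
        push Not at hpos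
        obtain ⟨j, hj⟩ := hpos
        have hj' : cf u j.succ / cf u 0 < 0 := lt_of_le_of_ne hj (div_ne_zero (hnz j) h00)
        rw [div_neg_iff] at hj'
        rcases hj' with h | h
        · exact jsum_mixed a (cf u) hr ⟨_, h.1⟩ ⟨_, h.2⟩
        · exact jsum_mixed a (cf u) hr ⟨_, h.2⟩ ⟨_, h.1⟩

end Pool.Agent.HL
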