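import Pool.Agent.Lib_helper43.HL.Chains
import Pool.Agent.Lib_helper43.HL.Wind

/-!
Affine chains in `ℝ^n` minus the origin: chains on tuples of vectors whose convex hull does not
contain the origin.
-/

namespace Pool.Agent.HL

open Finsupp Matrix

/-- The tuples of vectors whose convex hull misses the origin. -/
def Off (n k : ℕ) : Set (Fin k → Fin n → ℝ) := {v | (0 : Fin n → ℝ) ∉ convexHull ℝ (Set.range v)}

/-- The affine chains in `ℝ^n ∖ {0}` (indexed by the number of vertices). -/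
noncomputable def KC (n k : ℕ) : Submodule ℤ (T (Fin n → ℝ) k) := Finsupp.supported ℤ ℤ (Off n k)

theorem mem_KC {n k : ℕ} {x : T (Fin n → ℝ) k} : x ∈ KC n k ↔ ∀ v ∈ x.support, v ∈ Off n k := by
  rw [KC, Finsupp.mem_supported]
  exact Iff.rfl

theorem single_mem_KC {n k : ℕ} {v : Fin k → Fin n → ℝ} (a : ℤ) (hv : v ∈ Off n k) :
    Finsupp.single v a ∈ KC n k := Finsupp.single_mem_supported _ _ hv

theorem KC_induction {n k : ℕ} {P : T (Fin n → ℝ) k → Prop} (x : T (Fin n → ℝ) k)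
    (hx : x ∈ KC n k) (h0 : P 0) (hadd : ∀ x y, P x → P y → P (x + y))
    (hs : ∀ v ∈ Off n k, ∀ a : ℤ, P (Finsupp.single v a)) : P x := by
  rw [mem_KC] at hx
  have : x = ∑ v ∈ x.support, Finsupp.single v (x v) := (Finsupp.sum_single x).symm
  rw [this]
  exact Finset.sum_induction _ P hadd h0 (fun v hv => hs v (hx v hv) _)

/-- A linear map sending good tuples into a submodule sends `KC` into it. -/
theorem map_KC {n k : ℕ} {M : Type*} [AddCommGroup M] (f : T (Fin n → ℝ) k →ₗ[ℤ] M)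
    (S : Submodule ℤ M) (h : ∀ v ∈ Off n k, f (Finsupp.single v 1) ∈ S) (x : T (Fin n → ℝ) k)
    (hx : x ∈ KC n k) : f x ∈ S := by
  refine KC_induction (P := fun x => f x ∈ S) x hx (by simp)
    (fun x y hx hy => by rw [map_add]; exact S.add_mem hx hy) ?_
  intro v hv a
  have : Finsupp.single v a = a • Finsupp.single v (1 : ℤ) := by simp
  rw [this, map_smul]
  exact S.smul_mem _ (h v hv)

theorem face_off {n k : ℕ} {v : Fin (k + 1) → Fin n → ℝ} (hv : v ∈ Off n (k + 1))
    (i : Fin (k + 1)) : v ∘ i.succAbove ∈ Off n k := by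
  intro h
  exact hv (convexHull_mono (Set.range_comp_subset_range _ _) h)

theorem bd_KC {n k : ℕ} (x : T (Fin n → ℝ) (k + 1)) (hx : x ∈ KC n (k + 1)) :
    bd k x ∈ KC n k := by
  refine map_KC (bd k) _ (fun v hv => ?_) x hx
  rw [bd_single]
  exact Submodule.sum_mem _ fun i _ => single_mem_KC _ (face_off hv i)

/-- Linear maps on vectors. -/
noncomputable def lm {n : ℕ} (M : Matrix (Fin n) (Fin n) ℝ) (k : ℕ) :
    T (Fin n → ℝ) k →ₗ[ℤ] T (Fin n → ℝ) k := tmap (fun x => M *ᵥ x) k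

theorem lm_single {n : ℕ} (M : Matrix (Fin n) (Fin n) ℝ) (k : ℕ) (v : Fin k → Fin n → ℝ) (a : ℤ) :
    lm M k (Finsupp.single v a) = Finsupp.single (fun i => M *ᵥ v i) a := by
  rw [lm, tmap_single]; rfl

theorem bd_lm {n : ℕ} (M : Matrix (Fin n) (Fin n) ℝ) (k : ℕ) (x : T (Fin n → ℝ) (k + 1)) :
    bd k (lm M (k + 1) x) = lm M k (bd k x) := bd_tmap _ _ _

theorem lm_mul {n : ℕ} (M N : Matrix (Fin n) (Fin n) ℝ) (k : ℕ) (x : T (Fin n → ℝ) k) :
    lm (M * N) k x = lm M k (lm N k x) := by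
  rw [lm, lm, lm, tmap_comp]
  congr 2
  funext x
  simp

theorem lm_one {n : ℕ} (k : ℕ) (x : T (Fin n → ℝ) k) :
    lm (1 : Matrix (Fin n) (Fin n) ℝ) k x = x := by
  have : (fun x : Fin n → ℝ => (1 : Matrix (Fin n) (Fin n) ℝ) *ᵥ x) = id := by
    funext x; simp
  rw [lm, this, tmap_id]

theorem off_lm {n k : ℕ} (M : Matrix (Fin n) (Fin n) ℝ) (hM : M.det ≠ 0)
    {v : Fin k → Fin n → ℝ} (hv : v ∈ Off n k) : (fun i => M *ᵥ v i) ∈ Off n k := by
  intro h
  apply hv
  have h1 : Set.range (fun i => M *ᵥ v i) = M.mulVecLin '' Set.range v := by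
    rw [← Set.range_comp]; rfl
  have h2 : (0 : Fin n → ℝ) ∈ M.mulVecLin '' convexHull ℝ (Set.range v) := by
    rw [h1] at h
    rw [← LinearMap.image_convexHull] at h
    exact h
  obtain ⟨y, hy, hy0⟩ := h2
  have : y = 0 := Matrix.eq_zero_of_mulVec_eq_zero hM hy0
  rwa [this] at hy

theorem lm_KC {n k : ℕ} (M : Matrix (Fin n) (Fin n) ℝ) (hM : M.det ≠ 0) (x : T (Fin n → ℝ) k)
    (hx : x ∈ KC n k) : lm M k x ∈ KC n k := by
  refine map_KC (lm M k) _ (fun v hv => ?_) x hx
  rw [lm_single]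
  exact single_mem_KC _ (off_lm M hM hv)

/-- Coning from a point outside the span. -/
theorem off_cons {n k : ℕ} {v : Fin k → Fin n → ℝ} (hv : v ∈ Off n k) (w : Fin n → ℝ)
    (hw : w ∉ Submodule.span ℝ (Set.range v)) :
    (Fin.cons w v : Fin (k + 1) → Fin n → ℝ) ∈ Off n (k + 1) := by
  intro h
  rw [Fin.range_cons] at h
  by_cases hne : (Set.range v).Nonempty
  · rw [convexHull_insert hne, mem_convexJoin] at h
    obtain ⟨a, ha, b, hb, hab⟩ := h
    rw [Set.mem_singleton_iff] at ha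
    subst ha
    obtain ⟨s, t, hs, ht, hst, h0⟩ := hab
    have hbspan : b ∈ Submodule.span ℝ (Set.range v) := 
        convexHull_min Submodule.subset_span (Submodule.span ℝ (Set.range v)).convex hb
    by_cases hs0 : s = 0
    · rw [hs0, zero_add] at hst
      rw [hs0, hst, zero_smul, one_smul, zero_add] at h0
      exact hv (h0 ▸ hb)
    · apply hw
      have : a = (-(s⁻¹ * t)) • b := by
        have h1 : s • a = -(t • b) := eq_neg_of_add_eq_zero_left h0
        have h2 : a = s⁻¹ • (s • a) := by rw [smul_smul, inv_mul_cancel₀ hs0, one_smul]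
        rw [h2, h1, smul_neg, smul_smul, neg_smul]
      rw [this]
      exact Submodule.smul_mem _ _ hbspan
  · rw [Set.not_nonempty_iff_eq_empty] at hne
    rw [hne] at h
    simp only [insert_empty_eq, convexHull_singleton, Set.mem_singleton_iff] at h
    apply hw
    rw [← h]
    exact Submodule.zero_mem _

theorem cone_KC {n k : ℕ} (w : Fin n → ℝ) (x : T (Fin n → ℝ) k) (hx : x ∈ KC n k)
    (hw : ∀ v ∈ x.support, w ∉ Submodule.span ℝ (Set.range v)) : cone w k x ∈ KC n (k + 1) := by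
  classical
  rw [mem_KC] at hx ⊢
  intro v hv
  have h1 : v ∈ x.support.image (fun u => (Fin.cons w u : Fin (k + 1) → Fin n → ℝ)) :=
    Finsupp.mapDomain_support hv
  rw [Finset.mem_image] at h1
  obtain ⟨u, hu, rfl⟩ := h1
  exact off_cons (hx u hu) w (hw u hu)

/-- Existence of a vector outside finitely many proper subspaces, given as spans of few vectors. -/
theorem exists_generic {n : ℕ} {ι : Type*} [Finite ι] (S : ι → Submodule ℝ (Fin n → ℝ))
    (h : ∀ i, Module.finrank ℝ (S i) < n) : ∃ w : Fin n → ℝ, ∀ i, w ∉ S i := by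
  apply Submodule.exists_forall_notMem_of_forall_ne_top
  intro i hi
  have := h i
  rw [hi, finrank_top, Module.finrank_fin_fun] at this
  exact lt_irrefl _ this

theorem span_few {n k : ℕ} (hk : k < n) (v : Fin k → Fin n → ℝ) :
    Module.finrank ℝ (Submodule.span ℝ (Set.range v)) < n := by
  have := finrank_range_le_card (R := ℝ) v
  rw [Fintype.card_fin] at this
  exact lt_of_le_of_lt this hk

theorem exists_cone_point {n k : ℕ} (hk : k < n) (x : T (Fin n → ℝ) k) :
    ∃ w : Fin n → ℝ, ∀ v ∈ x.support, w ∉ Submodule.span ℝ (Set.range v) := by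
  obtain ⟨w, hw⟩ := exists_generic (ι := x.support)
    (fun v => Submodule.span ℝ (Set.range v.1)) (fun v => span_few hk v.1)
  exact ⟨w, fun v hv => hw ⟨v, hv⟩⟩

/-- A cone over a chain from a generic point. -/
noncomputable def fil {n : ℕ} (k : ℕ) (x : T (Fin n → ℝ) k) : T (Fin n → ℝ) (k + 1) := by
  classical
  exact if h : ∃ w : Fin n → ℝ, ∀ v ∈ x.support, w ∉ Submodule.span ℝ (Set.range v) then
    cone h.choose k x else 0

theorem fil_KC {n k : ℕ} (x : T (Fin n → ℝ) k) (hx : x ∈ KC n k) : fil k x ∈ KC n (k + 1) := by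
  rw [fil]
  split_ifs with h
  · exact cone_KC _ x hx h.choose_spec
  · exact Submodule.zero_mem _

theorem bd_fil {n k : ℕ} (hk : k + 1 < n) (x : T (Fin n → ℝ) (k + 1)) (hx : bd k x = 0) :
    bd (k + 1) (fil (k + 1) x) = x := by
  rw [fil, dif_pos (exists_cone_point hk x), bd_cone, hx, map_zero, sub_zero]

theorem bd_fil_zero {n : ℕ} (hk : 0 < n) (x : T (Fin n → ℝ) 0) :
    bd 0 (fil 0 x) = x := by
  rw [fil, dif_pos (exists_cone_point hk x), bd_cone_zero]

end Pool.Agent.HL
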