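import Pool.Agent.Lib_helper43.HL.Chains

/-!
The key lemma: a null-cochain of `2L` times a class with odd value on the `z`-chain
produces a homomorphism to `Z/2` which is nontrivial at an `L`-th root `h` of the central
involution `z`.
-/

namespace Pool.Agent.HL

open Finsupp

variable {G : Type*} [Group G]

/-- The operator `z + (-1)^k` on chains. -/
noncomputable def tt {X : Type*} [MulAction G X] (z : G) (k j : ℕ) : T X j →ₗ[ℤ] T X j :=
  ac z j + ((-1 : ℤ) ^ k) • LinearMap.id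

theorem tt_apply {X : Type*} [MulAction G X] (z : G) (k j : ℕ) (x : T X j) :
    tt z k j x = ac z j x + ((-1 : ℤ) ^ k) • x := rfl

theorem bd_tt {X : Type*} [MulAction G X] (z : G) (k j : ℕ) (x : T X (j + 1)) :
    bd j (tt z k (j + 1) x) = tt z k j (bd j x) := by
  rw [tt_apply, tt_apply, map_add, map_smul, bd_ac]

theorem tt_tt {X : Type*} [MulAction G X] (z : G) (hz2 : z * z = 1) (k j : ℕ) (x : T X j) :
    tt z (k + 1) j (tt z k j x) = 0 := by
  rw [tt_apply, tt_apply, map_add, map_smul, ← ac_mul, hz2, ac_one, pow_succ]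
  rcases neg_one_pow_eq_or ℤ k with h | h <;> rw [h] <;> simp

/-- The chains `c_k` of the two-element cyclic group: `c_0 = (1)`,
`c_{k+1} = (1, (z + (-1)^{k+1}) c_k)`. -/
noncomputable def cz (z : G) : (k : ℕ) → T G (k + 1)
  | 0 => Finsupp.single (fun _ => 1) 1
  | (k + 1) => cone 1 (k + 1) (tt z (k + 1) (k + 1) (cz z k))

theorem bd_cz_zero (z : G) : bd 0 (cz z 0) = Finsupp.single default 1 := by
  have : (Finsupp.single (fun _ => 1) 1 : T G 1) = cone 1 0 (Finsupp.single default 1) := by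
    rw [cone_single]
    congr 1
    funext i
    fin_cases i
    rfl
  rw [cz, this, bd_cone_zero]

theorem bd_cz (z : G) (hz2 : z * z = 1) (k : ℕ) :
    bd (k + 1) (cz z (k + 1)) = tt z (k + 1) (k + 1) (cz z k) := by
  rw [cz, bd_cone, bd_tt]
  cases k with
  | zero =>
    have h1 : tt z (0 + 1) 0 (Finsupp.single default 1 : T G 0) = 0 := by
      rw [tt_apply, ac_zero_deg]; simp
    rw [bd_cz_zero, h1, map_zero, sub_zero]
  | succ k =>
    rw [bd_cz z hz2 k, tt_tt z hz2, map_zero, sub_zero]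

/-- General filling lemma. -/
theorem fill (z : G) (hz2 : z * z = 1) (r : ∀ k, T G (k + 1)) (h0 : r 0 = 0)
    (hr : ∀ k, bd (k + 1) (r (k + 1)) = - tt z k (k + 1) (r k)) :
    ∃ q : ∀ k, T G (k + 2), ∀ k, bd (k + 2) (q (k + 1)) = r (k + 1) + tt z k (k + 2) (q k) := by
  let q : ∀ k, T G (k + 2) := fun k => Nat.rec (motive := fun k => T G (k + 2)) 0
    (fun k qk => cone 1 (k + 2) (r (k + 1) + tt z k (k + 2) qk)) k
  have hq : ∀ k, q (k + 1) = cone 1 (k + 2) (r (k + 1) + tt z k (k + 2) (q k)) := fun k => rfl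
  have hq0 : q 0 = 0 := rfl
  refine ⟨q, ?_⟩
  intro k
  induction k with
  | zero =>
    rw [hq, bd_cone, map_add, hr, bd_tt, hq0, h0]
    simp
  | succ k ih =>
    have h2 : bd (k + 1 + 1) (r (k + 1 + 1) + tt z (k + 1) (k + 1 + 1 + 1) (q (k + 1))) = 0 := by
      rw [map_add, hr (k + 1), bd_tt, ih, map_add, tt_tt z hz2]
      simp
    rw [hq (k + 1), bd_cone, h2, map_zero, sub_zero]

/-- The evaluation consequence of `fill`. -/
theorem even_of_fill (z : G) (hz2 : z * z = 1) (r : ∀ k, T G (k + 1)) (h0 : r 0 = 0)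
    (hr : ∀ k, bd (k + 1) (r (k + 1)) = - tt z k (k + 1) (r k)) (k : ℕ) (hk : Even k)
    (A : T G (k + 2) →ₗ[ℤ] ℤ) (hA : ∀ x, A (ac z (k + 2) x) = A x)
    (hb : ∀ x, Even (A (bd (k + 2) x))) : Even (A (r (k + 1))) := by
  obtain ⟨q, hq⟩ := fill z hz2 r h0 hr
  have h1 : r (k + 1) = bd (k + 2) (q (k + 1)) - tt z k (k + 2) (q k) := by
    rw [hq k]; abel
  rw [h1, map_sub, tt_apply, map_add, hA, map_smul, hk.neg_one_pow, one_smul]
  exact (hb _).sub ⟨_, rfl⟩

/-- The chains `P_k(γ)` with `∂ P_{k+1} = (γ - 1) c_k - t_k P_k`. -/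
noncomputable def pp (z γ : G) : (k : ℕ) → T G (k + 1)
  | 0 => 0
  | (k + 1) => cone 1 (k + 1) (ac γ (k + 1) (cz z k) - cz z k - tt z k (k + 1) (pp z γ k))

theorem ac_tt {X : Type*} [MulAction G X] (z γ : G) (hz : z * γ = γ * z) (k j : ℕ) (x : T X j) :
    ac γ j (tt z k j x) = tt z k j (ac γ j x) := by
  rw [tt_apply, tt_apply, map_add, map_smul, ← ac_mul, ← ac_mul, hz]

theorem bd_pp (z γ : G) (hz2 : z * z = 1) (hz : z * γ = γ * z) (k : ℕ) :
    bd (k + 1) (pp z γ (k + 1)) =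
      ac γ (k + 1) (cz z k) - cz z k - tt z k (k + 1) (pp z γ k) := by
  induction k with
  | zero =>
    have h1 : bd 0 (ac γ (0 + 1) (cz z 0) - cz z 0 - tt z 0 (0 + 1) (pp z γ 0)) = 0 := by
      simp only [pp, map_sub, bd_ac, bd_cz_zero, map_zero, ac_zero_deg, sub_self, sub_zero]
    have h2 : pp z γ (0 + 1) =
      cone 1 (0 + 1) (ac γ (0 + 1) (cz z 0) - cz z 0 - tt z 0 (0 + 1) (pp z γ 0)) := rfl
    rw [h2, bd_cone, h1, map_zero, sub_zero]
  | succ k ih =>
    have h1 : bd (k + 1) (ac γ (k + 1 + 1) (cz z (k + 1)) - cz z (k + 1)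
        - tt z (k + 1) (k + 1 + 1) (pp z γ (k + 1))) = 0 := by
      simp only [map_sub, bd_ac, bd_cz z hz2, bd_tt, ih]
      rw [tt_tt z hz2, ac_tt z γ hz]
      simp
    have h2 : pp z γ (k + 1 + 1) = cone 1 (k + 1 + 1) (ac γ (k + 1 + 1) (cz z (k + 1))
      - cz z (k + 1) - tt z (k + 1) (k + 1 + 1) (pp z γ (k + 1))) := rfl
    rw [h2, bd_cone, h1, map_zero, sub_zero]

/-- The homomorphism property of `γ ↦ A (P (γ))` modulo two. -/
theorem pp_add (z : G) (hz2 : z * z = 1) (hz : ∀ g, z * g = g * z) (γ δ : G) (k : ℕ)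
    (hk : Even k)
    (A : T G (k + 2) →ₗ[ℤ] ℤ) (hA : ∀ (g : G) x, A (ac g (k + 2) x) = A x)
    (hb : ∀ x, Even (A (bd (k + 2) x))) :
    Even (A (pp z γ (k + 1)) + A (pp z δ (k + 1)) - A (pp z (γ * δ) (k + 1))) := by
  have key := even_of_fill z hz2
    (fun k => pp z γ k + ac γ (k + 1) (pp z δ k) - pp z (γ * δ) k) (by simp [pp]) (fun k => ?_) k hk A (hA z) hb
  · simpa [map_sub, map_add, hA] using key
  · simp only [map_add, map_sub, bd_ac, bd_pp z _ hz2 (hz _), ac_tt z γ (hz γ)]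
    rw [ac_mul]
    abel

end Pool.Agent.HL
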