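import Pool.Agent.Lib_helper43.HL.Key

/-!
Second half of the key lemma: value on the root `h` of `z`.
-/

namespace Pool.Agent.HL

open Finsupp

variable {G : Type*} [Group G]

/-- The operator `∑_{i<M} h^i`. -/
noncomputable def nm {X : Type*} [MulAction G X] (h : G) (M j : ℕ) : T X j →ₗ[ℤ] T X j :=
  ∑ i ∈ Finset.range M, ac (h ^ i) j

theorem nm_apply {X : Type*} [MulAction G X] (h : G) (M j : ℕ) (x : T X j) :
    nm h M j x = ∑ i ∈ Finset.range M, ac (h ^ i) j x := by
  rw [nm, LinearMap.sum_apply]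

theorem bd_nm {X : Type*} [MulAction G X] (h : G) (M j : ℕ) (x : T X (j + 1)) :
    bd j (nm h M (j + 1) x) = nm h M j (bd j x) := by
  rw [nm_apply, nm_apply, map_sum]
  exact Finset.sum_congr rfl fun i _ => bd_ac _ _ _

theorem ac_nm {X : Type*} [MulAction G X] (h : G) (M j : ℕ) (x : T X j) :
    ac h j (nm h M j x) - nm h M j x = ac (h ^ M) j x - x := by
  rw [nm_apply, map_sum, ← Finset.sum_sub_distrib]
  have : ∀ i, ac h j (ac (h ^ i) j x) = ac (h ^ (i + 1)) j x := by
    intro i
    rw [← ac_mul, pow_succ']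
  simp only [this]
  rw [Finset.sum_range_sub (fun i => ac (h ^ i) j x), pow_zero, ac_one]

theorem nm_ac {X : Type*} [MulAction G X] (h : G) (M j : ℕ) (x : T X j) :
    nm h M j (ac h j x) = ac h j (nm h M j x) := by
  rw [nm_apply, nm_apply, map_sum]
  refine Finset.sum_congr rfl fun i _ => ?_
  rw [← ac_mul, ← ac_mul, ← pow_succ, ← pow_succ']

theorem nm_two {X : Type*} [MulAction G X] (h : G) (L j : ℕ) (x : T X j) :
    nm h (L + L) j x = nm h L j x + ac (h ^ L) j (nm h L j x) := by
  rw [nm_apply, nm_apply, Finset.sum_range_add, map_sum]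
  congr 1
  refine Finset.sum_congr rfl fun i _ => ?_
  rw [← ac_mul, pow_add]

/-- The operators of the periodic resolution of the cyclic group. -/
noncomputable def ss {X : Type*} [MulAction G X] (h : G) (L k j : ℕ) : T X j →ₗ[ℤ] T X j :=
  if Even k then ac h j - LinearMap.id else nm h (L + L) j

theorem ss_even {X : Type*} [MulAction G X] (h : G) (L k j : ℕ) (hk : Even k) (x : T X j) :
    ss h L k j x = ac h j x - x := by
  rw [ss, if_pos hk]; rfl

theorem ss_odd {X : Type*} [MulAction G X] (h : G) (L k j : ℕ) (hk : ¬ Even k) (x : T X j) :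
    ss h L k j x = nm h (L + L) j x := by
  rw [ss, if_neg hk]

theorem bd_ss {X : Type*} [MulAction G X] (h : G) (L k j : ℕ) (x : T X (j + 1)) :
    bd j (ss h L k (j + 1) x) = ss h L k j (bd j x) := by
  by_cases hk : Even k
  · rw [ss_even _ _ _ _ hk, ss_even _ _ _ _ hk, map_sub, bd_ac]
  · rw [ss_odd _ _ _ _ hk, ss_odd _ _ _ _ hk, bd_nm]

theorem ss_ss {X : Type*} [MulAction G X] (h : G) (L : ℕ) (hL : h ^ (L + L) = 1) (k j : ℕ)
    (x : T X j) : ss h L (k + 1) j (ss h L k j x) = 0 := by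
  by_cases hk : Even k
  · have hk' : ¬ Even (k + 1) := by rw [Nat.even_add_one]; simpa using hk
    rw [ss_even _ _ _ _ hk, ss_odd _ _ _ _ hk', map_sub, nm_ac, ac_nm, hL, ac_one, sub_self]
  · have hk' : Even (k + 1) := by rw [Nat.even_add_one]; exact hk
    rw [ss_odd _ _ _ _ hk, ss_even _ _ _ _ hk', ac_nm, hL, ac_one, sub_self]

/-- The chains `c'_k` of the cyclic group generated by `h`. -/
noncomputable def ch (h : G) (L : ℕ) : (k : ℕ) → T G (k + 1)
  | 0 => Finsupp.single (fun _ => 1) 1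
  | (k + 1) => cone 1 (k + 1) (ss h L k (k + 1) (ch h L k))

theorem bd_ch_zero (h : G) (L : ℕ) : bd 0 (ch h L 0) = Finsupp.single default 1 :=
  bd_cz_zero (1 : G)

theorem bd_ch (h : G) (L : ℕ) (hL : h ^ (L + L) = 1) (k : ℕ) :
    bd (k + 1) (ch h L (k + 1)) = ss h L k (k + 1) (ch h L k) := by
  rw [ch, bd_cone, bd_ss]
  cases k with
  | zero =>
    have h1 : ss h L 0 0 (Finsupp.single default 1 : T G 0) = 0 := by
      rw [ss_even _ _ _ _ Even.zero, ac_zero_deg, sub_self]
    rw [bd_ch_zero, h1, map_zero, sub_zero]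
  | succ k =>
    rw [bd_ch h L hL k, ss_ss h L hL, map_zero, sub_zero]

/-- The comparison operators: identity in even degrees, `∑_{i<L} h^i` in odd degrees. -/
noncomputable def nn {X : Type*} [MulAction G X] (h : G) (L k j : ℕ) : T X j →ₗ[ℤ] T X j :=
  if Even k then LinearMap.id else nm h L j

theorem nn_even {X : Type*} [MulAction G X] (h : G) (L k j : ℕ) (hk : Even k) (x : T X j) :
    nn h L k j x = x := by
  rw [nn, if_pos hk]; rfl

theorem nn_odd {X : Type*} [MulAction G X] (h : G) (L k j : ℕ) (hk : ¬ Even k) (x : T X j) :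
    nn h L k j x = nm h L j x := by
  rw [nn, if_neg hk]

theorem bd_nn {X : Type*} [MulAction G X] (h : G) (L k j : ℕ) (x : T X (j + 1)) :
    bd j (nn h L k (j + 1) x) = nn h L k j (bd j x) := by
  by_cases hk : Even k
  · rw [nn_even _ _ _ _ hk, nn_even _ _ _ _ hk]
  · rw [nn_odd _ _ _ _ hk, nn_odd _ _ _ _ hk, bd_nm]

theorem nn_ss {X : Type*} [MulAction G X] (z h : G) (L : ℕ) (hL : h ^ L = z) (k j : ℕ)
    (x : T X j) : nn h L (k + 1) j (ss h L k j x) = tt z (k + 1) j (nn h L k j x) := by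
  by_cases hk : Even k
  · have hk' : ¬ Even (k + 1) := by rw [Nat.even_add_one]; simpa using hk
    rw [ss_even _ _ _ _ hk, nn_odd _ _ _ _ hk', nn_even _ _ _ _ hk, map_sub, nm_ac, ac_nm, hL,
      tt_apply, pow_succ, hk.neg_one_pow]
    simp [sub_eq_add_neg]
  · have hk' : Even (k + 1) := by rw [Nat.even_add_one]; exact hk
    rw [ss_odd _ _ _ _ hk, nn_even _ _ _ _ hk', nn_odd _ _ _ _ hk, nm_two, hL, tt_apply,
      hk'.neg_one_pow, one_smul, add_comm]

/-- The comparison chains `U_k`. -/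
noncomputable def uu (z h : G) (L : ℕ) : (k : ℕ) → T G (k + 1)
  | 0 => 0
  | (k + 1) => cone 1 (k + 1) (cz z k - nn h L k (k + 1) (ch h L k) - tt z k (k + 1) (uu z h L k))

theorem bd_uu (z h : G) (hz2 : z * z = 1) (L : ℕ) (hL : h ^ L = z) (k : ℕ) :
    bd (k + 1) (uu z h L (k + 1)) =
      cz z k - nn h L k (k + 1) (ch h L k) - tt z k (k + 1) (uu z h L k) := by
  have hL2 : h ^ (L + L) = 1 := by rw [pow_add, hL, hz2]
  have h2 : uu z h L (k + 1) = cone 1 (k + 1)
      (cz z k - nn h L k (k + 1) (ch h L k) - tt z k (k + 1) (uu z h L k)) := rfl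
  rw [h2, bd_cone]
  induction k with
  | zero =>
    have h1 : bd 0 (cz z 0 - nn h L 0 (0 + 1) (ch h L 0) - tt z 0 (0 + 1) (uu z h L 0)) = 0 := by
      simp only [uu, map_sub, map_zero, bd_nn, bd_cz_zero, bd_ch_zero, sub_zero]
      rw [nn_even _ _ _ _ Even.zero, sub_self]
    rw [h1, map_zero, sub_zero]
  | succ k ih =>
    have ih' := ih rfl
    have h3 : uu z h L (k + 1) = cone 1 (k + 1)
      (cz z k - nn h L k (k + 1) (ch h L k) - tt z k (k + 1) (uu z h L k)) := rfl
    have h4 : bd (k + 1) (uu z h L (k + 1)) =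
      cz z k - nn h L k (k + 1) (ch h L k) - tt z k (k + 1) (uu z h L k) := by
      rw [h3, bd_cone]; exact ih'
    have h1 : bd (k + 1) (cz z (k + 1) - nn h L (k + 1) (k + 1 + 1) (ch h L (k + 1))
        - tt z (k + 1) (k + 1 + 1) (uu z h L (k + 1))) = 0 := by
      simp only [map_sub, bd_cz z hz2, bd_nn, bd_ch h L hL2, bd_tt, h4, nn_ss z h L hL]
      rw [tt_tt z hz2]
      simp
    rw [h1, map_zero, sub_zero]

/-- The model for `P_k(h)`. -/
noncomputable def pmdl (h : G) (L : ℕ) : (k : ℕ) → T G (k + 1)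
  | 0 => 0
  | (k + 1) => if Even k then ch h L (k + 1) else 0

theorem pp_h (z h : G) (hz2 : z * z = 1) (hz : ∀ g, z * g = g * z) (L : ℕ) (hL : h ^ L = z)
    (k : ℕ) (hk : Even k)
    (A : T G (k + 2) →ₗ[ℤ] ℤ) (hA : ∀ (g : G) x, A (ac g (k + 2) x) = A x)
    (hb : ∀ x, Even (A (bd (k + 2) x))) :
    Even (A (pp z h (k + 1)) - A (ch h L (k + 1))) := by
  have hL2 : h ^ (L + L) = 1 := by rw [pow_add, hL, hz2]
  have key := even_of_fill z hz2
    (fun k => pp z h k - pmdl h L k - (ac h (k + 1) (uu z h L k) - uu z h L k))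
    (by simp [pp, pmdl, uu]) (fun k => ?_) k hk A (hA z) hb
  · have h1 : pmdl h L (k + 1) = ch h L (k + 1) := by rw [pmdl, if_pos hk]
    simpa [map_sub, hA, h1] using key
  · have h1 : bd (k + 1) (pmdl h L (k + 1)) + tt z k (k + 1) (pmdl h L k)
        = ac h (k + 1) (nn h L k (k + 1) (ch h L k)) - nn h L k (k + 1) (ch h L k) := by
      by_cases hk : Even k
      · have h2 : pmdl h L (k + 1) = ch h L (k + 1) := by rw [pmdl, if_pos hk]
        have h3 : pmdl h L k = 0 := by
          cases k with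
          | zero => rfl
          | succ k =>
            rw [pmdl, if_neg]
            rw [Nat.even_add_one] at hk
            exact hk
        rw [h2, h3, map_zero, add_zero, bd_ch h L hL2, nn_even _ _ _ _ hk, ss_even _ _ _ _ hk]
      · have h2 : pmdl h L (k + 1) = 0 := by rw [pmdl, if_neg hk]
        have h3 : pmdl h L k = ch h L k := by
          cases k with
          | zero => exact absurd Even.zero hk
          | succ k =>
            rw [pmdl, if_pos]
            rw [Nat.even_add_one] at hk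
            simpa using hk
        have h4 : Odd k := by simpa using hk
        rw [h2, h3, map_zero, zero_add, nn_odd _ _ _ _ hk, ac_nm, hL, tt_apply, h4.neg_one_pow]
        simp [sub_eq_add_neg]
    have h5 : bd (k + 1) (pmdl h L (k + 1)) = ac h (k + 1) (nn h L k (k + 1) (ch h L k))
        - nn h L k (k + 1) (ch h L k) - tt z k (k + 1) (pmdl h L k) := by
      rw [← h1]; abel
    simp only [map_sub, bd_ac, bd_pp z _ hz2 (hz _), bd_uu z h hz2 L hL, ac_tt z h (hz h), h5]
    abel

end Pool.Agent.HL
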