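import Pool.Agent.Lib_helper43.HL.Key2

/-!
The key lemma: assembled form.
-/

namespace Pool.Agent.HL

open Finsupp

variable {G : Type*} [Group G]

theorem zmod2_of_even (a b c : ℤ) (h : Even (a + b - c)) : ((c : ℤ) : ZMod 2) = a + b := by
  have h1 : (((a + b - c : ℤ)) : ZMod 2) = 0 := by
    rw [ZMod.intCast_zmod_eq_zero_iff_dvd]
    exact_mod_cast h.two_dvd
  push_cast at h1
  linear_combination -h1

/-- **Key lemma.** Let `z` be a central involution (or trivial) of `G`, `h ^ L = z`, `n` even,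
`E` an invariant cocycle on `(n+1)`-tuples whose value on the `z`-chain is odd.
If `2 L E` is the coboundary of an invariant cochain, then some homomorphism
`G → ℤ/2` is nontrivial at `h`. -/
theorem exists_char (z h : G) (hz : ∀ g, z * g = g * z) (hz2 : z * z = 1)
    (L : ℕ) (hL0 : L ≠ 0) (hL : h ^ L = z) (k : ℕ) (hk : Even k)
    (A : T G (k + 2) →ₗ[ℤ] ℤ) (E : T G (k + 3) →ₗ[ℤ] ℤ)
    (hA : ∀ (g : G) x, A (ac g (k + 2) x) = A x)
    (hE : ∀ (g : G) x, E (ac g (k + 3) x) = E x)
    (hEb : ∀ x, E (bd (k + 3) x) = 0)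
    (hAE : ∀ x, A (bd (k + 2) x) = (L + L : ℕ) * E x)
    (hodd : Odd (E (cz z (k + 2)))) :
    ∃ χ : G →* Multiplicative (ZMod 2), χ h ≠ 1 := by
  have hL2 : h ^ (L + L) = 1 := by rw [pow_add, hL, hz2]
  have hb : ∀ x, Even (A (bd (k + 2) x)) := by
    intro x
    rw [hAE]
    exact ⟨L * E x, by push_cast; ring⟩
  refine ⟨MonoidHom.mk' (fun γ => Multiplicative.ofAdd (((A (pp z γ (k + 1)) : ℤ) : ZMod 2))) ?_, ?_⟩
  · intro γ δ
    rw [← ofAdd_add]
    congr 1
    exact zmod2_of_even _ _ _ (pp_add z hz2 hz γ δ k hk A hA hb)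
  · rw [MonoidHom.mk'_apply]
    intro hc
    have hc' : ((A (pp z h (k + 1)) : ℤ) : ZMod 2) = 0 := by
      have := congrArg Multiplicative.toAdd hc
      simpa using this
    have h1 : Even (A (pp z h (k + 1))) := by
      rw [ZMod.intCast_zmod_eq_zero_iff_dvd] at hc'
      exact even_iff_two_dvd.mpr (by exact_mod_cast hc')
    have h2 := pp_h z h hz2 hz L hL k hk A hA hb
    -- value of E on the chain of h
    have hkk : Even (k + 2) := hk.add (by decide)
    have h3 : E (cz z (k + 2)) = E (ch h L (k + 2)) + 2 * E (uu z h L (k + 2)) := by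
      have h4 := bd_uu z h hz2 L hL (k + 2)
      have h5 := hEb (uu z h L (k + 2 + 1))
      have h6 : bd (k + 3) (uu z h L (k + 2 + 1)) = cz z (k + 2) - ch h L (k + 2)
          - (ac z (k + 3) (uu z h L (k + 2)) + uu z h L (k + 2)) := by
        rw [nn_even _ _ _ _ hkk, tt_apply, hkk.neg_one_pow, one_smul] at h4
        exact h4
      rw [h6, map_sub, map_sub, map_add, hE] at h5
      linarith
    have h7 : A (ch h L (k + 1)) = E (ch h L (k + 2)) := by
      have h8 := hAE (ch h L (k + 2))
      have hk' : ¬ Even (k + 1) := by rw [Nat.even_add_one]; simpa using hk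
      have h9 : bd (k + 2) (ch h L (k + 2)) = nm h (L + L) (k + 2) (ch h L (k + 1)) := by
        have := bd_ch h L hL2 (k + 1)
        rw [ss_odd _ _ _ _ hk'] at this
        exact this
      rw [h9, nm_apply, map_sum] at h8
      simp only [hA, Finset.sum_const, Finset.card_range, nsmul_eq_mul] at h8
      have hL3 : (((L + L : ℕ)) : ℤ) ≠ 0 := by
        have : L + L ≠ 0 := by omega
        exact_mod_cast this
      exact mul_left_cancel₀ hL3 h8
    have h10 : Odd (E (ch h L (k + 2))) := by
      rw [h3] at hodd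
      have : Even (2 * E (uu z h L (k + 2))) := even_two_mul _
      exact (Int.odd_add'.mp (by rw [add_comm]; exact hodd)).mpr this |> fun h => h
    have h11 : Odd (A (ch h L (k + 1))) := by rw [h7]; exact h10
    have h12 : Odd (A (pp z h (k + 1)) - A (ch h L (k + 1))) := h1.sub_odd h11
    exact (Int.not_even_iff_odd.mpr h12) h2

end Pool.Agent.HL
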