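import Pool.Agent.Lib_helper43.HL.CycWind

/-!
Part D: the model chain on the join of boundaries of simplices.
-/

namespace Pool.Agent.HL

open Finsupp Matrix CategoryTheory

section model

variable {n d l : ℕ} [NeZero l]

/-- Joint independence modulo the relation `∑_c W j c = 0`. -/
def Ind (W : Fin d → ZMod l → Fin n → ℝ) : Prop :=
  ∀ X : Fin d → ZMod l → ℝ, ∑ j, ∑ c, X j c • W j c = 0 → ∀ j c, X j c = X j 0

theorem off_of_labels (W : Fin d → ZMod l → Fin n → ℝ) (hind : Ind W) {k : ℕ}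
    (v : Fin k → Fin n → ℝ) (lb : Fin k → Fin d × ZMod l) (hv : ∀ i, v i = W (lb i).1 (lb i).2)
    (hcnt : ∀ j : Fin d, (Finset.univ.filter (fun i => (lb i).1 = j)).card < l) :
    v ∈ Off n k := by
  classical
  intro h0
  rw [mem_convexHull_iff_exists_fintype] at h0
  obtain ⟨ι, _, w, z, hw, hw1, hz, hsum⟩ := h0
  choose f hf using hz
  let X : Fin d → ZMod l → ℝ := fun j c => ∑ i, if lb (f i) = (j, c) then w i else 0
  have hX : ∑ j, ∑ c, X j c • W j c = 0 := by
    rw [← Fintype.sum_prod_type' (f := fun j c => X j c • W j c)]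
    simp only [X, Finset.sum_smul, ite_smul, zero_smul]
    rw [Finset.sum_comm]
    refine Eq.trans (Finset.sum_congr rfl fun i _ => ?_) hsum
    rw [Finset.sum_eq_single (lb (f i))]
    · rw [if_pos rfl, ← hf i, hv]
    · intro b _ hb
      rw [if_neg (fun h => hb h.symm)]
    · intro h; exact absurd (Finset.mem_univ _) h
  have h1 := hind X hX
  -- every block misses some label
  have hmiss : ∀ j : Fin d, ∃ c : ZMod l, ∀ i, lb i ≠ (j, c) := by
    intro j
    by_contra hcon
    push Not at hcon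
    choose g hg using hcon
    have hinj : Function.Injective g := by
      intro a b hab
      have h2 := hg a
      rw [hab, hg b] at h2
      exact (Prod.mk.injEq _ _ _ _ ▸ h2 : _ ∧ _).2.symm
    have h3 : (Finset.univ.image g).card ≤ (Finset.univ.filter (fun i => (lb i).1 = j)).card := by
      apply Finset.card_le_card
      intro x hx
      rw [Finset.mem_image] at hx
      obtain ⟨c, _, rfl⟩ := hx
      simp [hg c]
    rw [Finset.card_image_of_injective _ hinj, Finset.card_univ, ZMod.card] at h3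
    exact absurd (hcnt j) (by omega)
  have hXz : ∀ j c, X j c = 0 := by
    intro j c
    obtain ⟨c', hc'⟩ := hmiss j
    have h2 : X j c' = 0 := by
      refine Finset.sum_eq_zero fun i _ => ?_
      rw [if_neg (hc' _)]
    rw [h1 j c, ← h1 j c', h2]
  have hwz : ∀ i, w i = 0 := by
    intro i
    have h2 := hXz (lb (f i)).1 (lb (f i)).2
    have h3 := (Finset.sum_eq_zero_iff_of_nonneg (fun i _ => by
      split_ifs
      · exact hw i
      · exact le_rfl)).mp h2 i (Finset.mem_univ i)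
    simpa using h3
  simp only [hwz, Finset.sum_const_zero] at hw1
  exact zero_ne_one hw1

/-- The cycles `Y_t`: joins of `t` polygons. -/
noncomputable def YY (W : Fin d → ZMod l → Fin n → ℝ) (J : ℕ → Fin d) :
    (t : ℕ) → T (Fin n → ℝ) (2 * t)
  | 0 => Finsupp.single default 1
  | (t + 1) => ∑ c : ZMod l, cone (W (J t) c) (2 * t + 1) (cone (W (J t) (c + 1)) (2 * t) (YY W J t))

theorem YY_succ (W : Fin d → ZMod l → Fin n → ℝ) (J : ℕ → Fin d) (t : ℕ) :
    YY W J (t + 1) =
      ∑ c : ZMod l, cone (W (J t) c) (2 * t + 1) (cone (W (J t) (c + 1)) (2 * t) (YY W J t)) := rfl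

theorem YY_zero (W : Fin d → ZMod l → Fin n → ℝ) (J : ℕ → Fin d) :
    YY W J 0 = (Finsupp.single default 1 : T (Fin n → ℝ) 0) := rfl

theorem lm_cone (M : Matrix (Fin n) (Fin n) ℝ) (w : Fin n → ℝ) (k : ℕ) (x : T (Fin n → ℝ) k) :
    lm M (k + 1) (cone w k x) = cone (M *ᵥ w) k (lm M k x) := tmap_cone _ _ _ _

theorem YY_inv (W : Fin d → ZMod l → Fin n → ℝ) (J : ℕ → Fin d) (M : Matrix (Fin n) (Fin n) ℝ)
    (hM : ∀ j c, M *ᵥ W j c = W j (c + 1)) (t : ℕ) : lm M (2 * t) (YY W J t) = YY W J t := by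
  induction t with
  | zero => exact lm_zero_deg M _
  | succ t ih =>
    rw [YY_succ]
    change lm M (2 * t + 1 + 1) _ = _
    rw [map_sum]
    have h1 : ∀ c : ZMod l, lm M (2 * t + 1 + 1) (cone (W (J t) c) (2 * t + 1)
        (cone (W (J t) (c + 1)) (2 * t) (YY W J t))) =
        cone (W (J t) (c + 1)) (2 * t + 1) (cone (W (J t) (c + 1 + 1)) (2 * t) (YY W J t)) := by
      intro c
      rw [lm_cone, lm_cone, hM, hM, ih]
    simp only [h1]
    exact Equiv.sum_comp (Equiv.addRight (1 : ZMod l)) (fun c => cone (W (J t) c) (2 * t + 1)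
      (cone (W (J t) (c + 1)) (2 * t) (YY W J t)))

/-- Boundary of the cone over a cycle. -/
theorem bd_cone_cone (w w' : Fin n → ℝ) (t : ℕ) (y : T (Fin n → ℝ) (2 * t))
    (hy : ∀ s, ∀ h : 2 * t = s + 1, bd s (h ▸ y) = 0) :
    bd (2 * t + 1) (cone w (2 * t + 1) (cone w' (2 * t) y)) = cone w' (2 * t) y - cone w (2 * t) y := by
  rw [bd_cone]
  congr 2
  cases t with
  | zero => exact bd_cone_zero w' y
  | succ t =>
    have h1 := bd_cone w' (2 * t + 1) y
    have h2 : bd (2 * t + 1) y = 0 := hy (2 * t + 1) rfl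
    rw [h2, map_zero, sub_zero] at h1
    exact h1

/-- `Y_t` is a cycle for `t ≥ 1`. -/
theorem bd_YY (W : Fin d → ZMod l → Fin n → ℝ) (J : ℕ → Fin d) (t : ℕ) :
    bd (2 * t + 1) (YY W J (t + 1)) = 0 := by
  induction t with
  | zero =>
    rw [YY_succ]
    change bd (2 * 0 + 1) (∑ c : ZMod l, _) = 0
    rw [map_sum]
    have h1 : ∀ c : ZMod l, bd (2 * 0 + 1) (cone (W (J 0) c) (2 * 0 + 1)
        (cone (W (J 0) (c + 1)) (2 * 0) (YY W J 0))) =
        cone (W (J 0) (c + 1)) (2 * 0) (YY W J 0) - cone (W (J 0) c) (2 * 0) (YY W J 0) := by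
      intro c
      exact bd_cone_cone _ _ 0 _ (fun s h => absurd h (by omega))
    simp only [h1, Finset.sum_sub_distrib]
    rw [sub_eq_zero]
    exact Equiv.sum_comp (Equiv.addRight (1 : ZMod l)) (fun c => cone (W (J 0) c) (2 * 0) (YY W J 0))
  | succ t ih =>
    rw [YY_succ]
    change bd (2 * (t + 1) + 1) (∑ c : ZMod l, _) = 0
    rw [map_sum]
    have h1 : ∀ c : ZMod l, bd (2 * (t + 1) + 1) (cone (W (J (t + 1)) c) (2 * (t + 1) + 1)
        (cone (W (J (t + 1)) (c + 1)) (2 * (t + 1)) (YY W J (t + 1)))) =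
        cone (W (J (t + 1)) (c + 1)) (2 * (t + 1)) (YY W J (t + 1)) -
          cone (W (J (t + 1)) c) (2 * (t + 1)) (YY W J (t + 1)) := by
      intro c
      refine bd_cone_cone _ _ (t + 1) _ (fun s h => ?_)
      have hs : s = 2 * t + 1 := by omega
      subst hs
      exact ih
    simp only [h1, Finset.sum_sub_distrib]
    rw [sub_eq_zero]
    exact Equiv.sum_comp (Equiv.addRight (1 : ZMod l))
      (fun c => cone (W (J (t + 1)) c) (2 * (t + 1)) (YY W J (t + 1)))

end model

end Pool.Agent.HL
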