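import Pool.Agent.Lib_helper43.HL.Model

/-!
Part D: the model chain, boundary relations and support.
-/

namespace Pool.Agent.HL

open Finsupp Matrix CategoryTheory

section model2

variable {n d l : ℕ} [NeZero l]

/-- The model chain. -/
noncomputable def sw (W : Fin d → ZMod l → Fin n → ℝ) (J : ℕ → Fin d)
    (M : Matrix (Fin n) (Fin n) ℝ) : (k : ℕ) → T (Fin n → ℝ) (k + 1)
  | 0 => Finsupp.single (fun _ => W (J 0) 0) 1
  | (k + 1) => if Even k then
      cone (W (J (k / 2)) 0) (k + 1) (cone (W (J (k / 2)) 1) k (bd k (sw W J M k)))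
    else cone (W (J ((k + 1) / 2)) 0) (k + 1) (sl M l k (k + 1) (sw W J M k))

variable {W : Fin d → ZMod l → Fin n → ℝ} {J : ℕ → Fin d} {M : Matrix (Fin n) (Fin n) ℝ}

theorem pow_W (hM : ∀ j c, M *ᵥ W j c = W j (c + 1)) (i : ℕ) (j : Fin d) (c : ZMod l) :
    (M ^ i) *ᵥ W j c = W j (c + i) := by
  induction i generalizing c with
  | zero => simp
  | succ i ih =>
    rw [pow_succ, ← Matrix.mulVec_mulVec, hM, ih]
    congr 1
    push_cast
    ring

theorem sum_range_zmod {A : Type*} [AddCommMonoid A] (f : ZMod l → A) :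
    ∑ i ∈ Finset.range l, f (i : ZMod l) = ∑ c, f c := by
  refine Finset.sum_nbij' (fun i => (i : ZMod l)) (fun c => c.val) ?_ ?_ ?_ ?_ ?_
  · intro i _; exact Finset.mem_univ _
  · intro c _; exact Finset.mem_range.mpr (ZMod.val_lt c)
  · intro i hi; exact ZMod.val_cast_of_lt (Finset.mem_range.mp hi)
  · intro c _; exact ZMod.natCast_zmod_val c
  · intro i _; rfl

theorem YY_inv_pow (hM : ∀ j c, M *ᵥ W j c = W j (c + 1)) (i t : ℕ) :
    lm (M ^ i) (2 * t) (YY W J t) = YY W J t := by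
  induction i with
  | zero => rw [pow_zero, lm_one]
  | succ i ih => rw [pow_succ, lm_mul, YY_inv W J M hM, ih]

theorem norm_cc (hM : ∀ j c, M *ᵥ W j c = W j (c + 1)) (t : ℕ) :
    sl M l (2 * t + 1) (2 * t + 1 + 1) (cone (W (J t) 0) (2 * t + 1)
      (cone (W (J t) 1) (2 * t) (YY W J t))) = YY W J (t + 1) := by
  have hodd : ¬ Even (2 * t + 1) := by simp
  rw [sl_odd _ _ _ _ hodd, YY_succ, ← sum_range_zmod]
  refine Finset.sum_congr rfl fun i _ => ?_
  rw [lm_cone, lm_cone, pow_W hM, pow_W hM, YY_inv_pow hM, zero_add, add_comm (1 : ZMod l)]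

theorem sw_eq (hM : ∀ j c, M *ᵥ W j c = W j (c + 1)) (t : ℕ) :
    sw W J M (2 * t) = cone (W (J t) 0) (2 * t) (YY W J t) ∧
    sw W J M (2 * t + 1) = cone (W (J t) 0) (2 * t + 1) (cone (W (J t) 1) (2 * t) (YY W J t)) := by
  induction t with
  | zero =>
    have h0 : (Finsupp.single (fun _ => W (J 0) 0) 1 : T (Fin n → ℝ) 1) =
        cone (W (J 0) 0) 0 (Finsupp.single default 1) := by
      rw [cone_single]
      congr 1
      funext i
      fin_cases i
      rfl
    refine ⟨h0, ?_⟩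
    change sw W J M (0 + 1) = _
    rw [sw, if_pos Even.zero]
    have h1 : bd 0 (sw W J M 0) = Finsupp.single default 1 := by
      change bd 0 (Finsupp.single (fun _ => W (J 0) 0) 1 : T (Fin n → ℝ) 1) = _
      rw [h0, bd_cone_zero]
    rw [h1]
    rfl
  | succ t ih =>
    obtain ⟨_, ih2⟩ := ih
    have hodd : ¬ Even (2 * t + 1) := by simp
    have hA : sw W J M (2 * (t + 1)) = cone (W (J (t + 1)) 0) (2 * (t + 1)) (YY W J (t + 1)) := by
      change sw W J M (2 * t + 1 + 1) = _
      rw [sw, if_neg hodd, ih2, norm_cc hM]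
      have : (2 * t + 1 + 1) / 2 = t + 1 := by omega
      rw [this]
      rfl
    refine ⟨hA, ?_⟩
    have heven : Even (2 * (t + 1)) := even_two_mul _
    rw [sw, if_pos heven, hA]
    have h1 : bd (2 * (t + 1)) (cone (W (J (t + 1)) 0) (2 * (t + 1)) (YY W J (t + 1))) =
        YY W J (t + 1) := by
      have h2 := bd_cone (W (J (t + 1)) 0) (2 * t + 1) (YY W J (t + 1))
      rw [bd_YY, map_zero, sub_zero] at h2
      exact h2
    have h3 : 2 * (t + 1) / 2 = t + 1 := by omega
    rw [h1, h3]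

theorem bd_sw_zero : bd 0 (sw W J M 0) = Finsupp.single default 1 := by
  have h0 : (Finsupp.single (fun _ => W (J 0) 0) 1 : T (Fin n → ℝ) 1) =
      cone (W (J 0) 0) 0 (Finsupp.single default 1) := by
    rw [cone_single]
    congr 1
    funext i
    fin_cases i
    rfl
  change bd 0 (Finsupp.single (fun _ => W (J 0) 0) 1 : T (Fin n → ℝ) 1) = _
  rw [h0, bd_cone_zero]

theorem bd_sw (hM : ∀ j c, M *ᵥ W j c = W j (c + 1)) (k : ℕ) :
    bd (k + 1) (sw W J M (k + 1)) = sl M l k (k + 1) (sw W J M k) := by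
  rcases Nat.even_or_odd' k with ⟨t, ht | ht⟩
  · subst ht
    have heven : Even (2 * t) := even_two_mul _
    rw [(sw_eq hM t).1, (sw_eq hM t).2, sl_even _ _ _ _ heven, lm_cone, hM, zero_add,
      YY_inv W J M hM]
    refine bd_cone_cone _ _ t _ (fun s h => ?_)
    obtain ⟨t', rfl⟩ : ∃ t', t = t' + 1 := ⟨t - 1, by omega⟩
    have hs : s = 2 * t' + 1 := by omega
    subst hs
    exact bd_YY W J t'
  · subst ht
    rw [(sw_eq hM t).2, norm_cc hM]
    have h1 : sw W J M (2 * t + 1 + 1) = cone (W (J (t + 1)) 0) (2 * (t + 1)) (YY W J (t + 1)) :=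
      (sw_eq hM (t + 1)).1
    rw [h1]
    have h2 := bd_cone (W (J (t + 1)) 0) (2 * t + 1) (YY W J (t + 1))
    rw [bd_YY, map_zero, sub_zero] at h2
    exact h2

/-- The shape of the tuples. -/
def ShJ (W : Fin d → ZMod l → Fin n → ℝ) (J : ℕ → Fin d) (k : ℕ) (v : Fin k → Fin n → ℝ) : Prop :=
  ∀ i : Fin k, ∃ c, v i = W (J ((k - 1 - i) / 2)) c

theorem shJ_cons {k : ℕ} {v : Fin k → Fin n → ℝ} (hv : ShJ W J k v) (c : ZMod l) :
    ShJ W J (k + 1) (Fin.cons (W (J (k / 2)) c) v) := by
  intro i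
  refine Fin.cases ?_ (fun j => ?_) i
  · exact ⟨c, by simp⟩
  · obtain ⟨c', hc'⟩ := hv j
    refine ⟨c', ?_⟩
    have : (k + 1 - 1 - ((j.succ : Fin (k + 1)) : ℕ)) / 2 = (k - 1 - (j : ℕ)) / 2 := by
      rw [Fin.val_succ]; congr 1; omega
    rw [this, ← hc']
    simp

theorem cone_shJ {k : ℕ} {x : T (Fin n → ℝ) k} (hx : ∀ v ∈ x.support, ShJ W J k v) (c : ZMod l) :
    ∀ v ∈ (cone (W (J (k / 2)) c) k x).support, ShJ W J (k + 1) v := by
  classical
  intro v hv
  have h1 : v ∈ x.support.image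
      (fun u => (Fin.cons (W (J (k / 2)) c) u : Fin (k + 1) → Fin n → ℝ)) :=
    Finsupp.mapDomain_support hv
  rw [Finset.mem_image] at h1
  obtain ⟨u, hu, rfl⟩ := h1
  exact shJ_cons (hx u hu) c

theorem YY_shJ (t : ℕ) : ∀ v ∈ (YY W J t).support, ShJ W J (2 * t) v := by
  classical
  induction t with
  | zero =>
    intro v _ i
    exact absurd i.isLt (by omega)
  | succ t ih =>
    intro v hv
    rw [YY_succ] at hv
    have h1 := Finsupp.support_finsetSum hv
    rw [Finset.mem_biUnion] at h1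
    obtain ⟨c, _, hc⟩ := h1
    have h2 : (2 * t + 1) / 2 = t := by omega
    have h3 : (2 * t) / 2 = t := by omega
    have h4 := cone_shJ (W := W) (J := J) ih (c + 1)
    rw [h3] at h4
    have h5 := cone_shJ (W := W) (J := J) h4 c
    rw [h2] at h5
    exact h5 v hc

theorem sw_shJ (hM : ∀ j c, M *ᵥ W j c = W j (c + 1)) (k : ℕ) :
    ∀ v ∈ (sw W J M k).support, ShJ W J (k + 1) v := by
  rcases Nat.even_or_odd' k with ⟨t, ht | ht⟩
  · subst ht
    rw [(sw_eq hM t).1]
    have h3 : (2 * t) / 2 = t := by omega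
    have h4 := cone_shJ (W := W) (J := J) (YY_shJ t) 0
    rw [h3] at h4
    exact h4
  · subst ht
    rw [(sw_eq hM t).2]
    have h2 : (2 * t + 1) / 2 = t := by omega
    have h3 : (2 * t) / 2 = t := by omega
    have h4 := cone_shJ (W := W) (J := J) (YY_shJ t) 1
    rw [h3] at h4
    have h5 := cone_shJ (W := W) (J := J) h4 0
    rw [h2] at h5
    exact h5

theorem shJ_off (hind : Ind W) {μ : ℕ} (hl : l = 2 * μ + 1)
    (hJ : ∀ t, t < μ * d → ((J t : Fin d) : ℕ) = t / μ) {k : ℕ} (hk : k ≤ 2 * (μ * d))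
    {v : Fin k → Fin n → ℝ} (hv : ShJ W J k v) : v ∈ Off n k := by
  classical
  choose c hc using hv
  refine off_of_labels W hind v (fun i => (J ((k - 1 - i) / 2), c i)) hc (fun j => ?_)
  -- count the positions in the block `j`
  have hμ : 0 < μ ∨ k = 0 := by
    rcases Nat.eq_zero_or_pos μ with h | h
    · right; subst h; omega
    · left; exact h
  rcases hμ with hμ | hk0
  · have hle : (Finset.univ.filter (fun i : Fin k => J ((k - 1 - i) / 2) = j)).card ≤
        (Finset.Ico (2 * μ * j) (2 * μ * j + 2 * μ)).card := by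
      refine Finset.card_le_card_of_injOn (fun i : Fin k => k - 1 - i) ?_ ?_
      · intro i hi
        rw [Finset.mem_coe, Finset.mem_filter] at hi
        have hik := i.isLt
        have h1 : (k - 1 - (i : ℕ)) / 2 < μ * d := by
          rw [Nat.div_lt_iff_lt_mul (by norm_num)]
          have : μ * d * 2 = 2 * (μ * d) := by ring
          rw [this]
          omega
        have h2 := hJ _ h1
        rw [hi.2] at h2
        have h3 : (k - 1 - (i : ℕ)) / 2 / μ = (k - 1 - (i : ℕ)) / (2 * μ) := by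
          rw [Nat.div_div_eq_div_mul]
        rw [h3] at h2
        rw [Finset.mem_coe, Finset.mem_Ico]
        have h4 := Nat.div_add_mod (k - 1 - (i : ℕ)) (2 * μ)
        have h5 := Nat.mod_lt (k - 1 - (i : ℕ)) (show 0 < 2 * μ by omega)
        rw [← h2] at h4
        change 2 * μ * (j : ℕ) ≤ k - 1 - (i : ℕ) ∧ k - 1 - (i : ℕ) < 2 * μ * (j : ℕ) + 2 * μ
        constructor
        · omega
        · omega
      · intro a _ b _ hab
        have ha := a.isLt
        have hb := b.isLt
        apply Fin.ext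
        simp only at hab
        omega
    refine lt_of_le_of_lt hle ?_
    rw [Nat.card_Ico]
    omega
  · subst hk0
    simp only [Finset.univ_eq_empty, Finset.filter_empty, Finset.card_empty]
    omega

end model2

end Pool.Agent.HL
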