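import Pool.Agent.Lib_helper43.HL.Model2
import Pool.Agent.Lib_helper43.HL.Comb

/-!
Part D: the winding number of the join of polygons is prime to `l`.
-/

namespace Pool.Agent.HL

open Finsupp Matrix CategoryTheory

section model3

variable {n d l : ℕ} [NeZero l]

/-- The simplices occurring in `Y_t`. -/
def tup (W : Fin d → ZMod l → Fin n → ℝ) (J : ℕ → Fin d) (t : ℕ) (b : Fin t → ZMod l) :
    Fin (2 * t) → Fin n → ℝ :=
  fun i => W (J ((2 * t - 1 - i) / 2)) (b ⟨i / 2, by have := i.isLt; omega⟩ + ((i % 2 : ℕ) : ZMod l))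

theorem tup_cons (W : Fin d → ZMod l → Fin n → ℝ) (J : ℕ → Fin d) (t : ℕ) (c : ZMod l)
    (b : Fin t → ZMod l) :
    tup W J (t + 1) (Fin.cons c b) =
      (Fin.cons (W (J t) c) (Fin.cons (W (J t) (c + 1)) (tup W J t b) :
        Fin (2 * t + 1) → Fin n → ℝ) : Fin (2 * t + 1 + 1) → Fin n → ℝ) := by
  have key : ∀ i : Fin (2 * t + 1 + 1), tup W J (t + 1) (Fin.cons c b) i =
      (Fin.cons (W (J t) c) (Fin.cons (W (J t) (c + 1)) (tup W J t b) :
        Fin (2 * t + 1) → Fin n → ℝ) : Fin (2 * t + 1 + 1) → Fin n → ℝ) i := by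
    intro i
    refine Fin.cases ?_ (fun i => ?_) i
    · simp only [tup, Fin.cons_zero]
      have h1 : (2 * (t + 1) - 1 - ((0 : Fin (2 * t + 1 + 1)) : ℕ)) / 2 = t := by
        simp only [Fin.val_zero]; omega
      rw [h1]
      congr 1
      have h2 : (⟨((0 : Fin (2 * t + 1 + 1)) : ℕ) / 2, by simp⟩ : Fin (t + 1)) = 0 := by
        apply Fin.ext; simp
      rw [h2]
      simp
    · refine Fin.cases ?_ (fun i => ?_) i
      · simp only [tup, Fin.cons_zero, Fin.cons_succ]
        have h1 : (2 * (t + 1) - 1 - (((0 : Fin (2 * t + 1)).succ : Fin (2 * t + 1 + 1)) : ℕ)) / 2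
            = t := by
          simp only [Fin.val_succ, Fin.val_zero]; omega
        rw [h1]
        congr 1
        have h2 : (⟨((((0 : Fin (2 * t + 1)).succ : Fin (2 * t + 1 + 1)) : ℕ)) / 2, by simp⟩ :
            Fin (t + 1)) = 0 := by
          apply Fin.ext; simp
        rw [h2]
        simp
      · simp only [tup, Fin.cons_succ]
        have h1 : (2 * (t + 1) - 1 - ((i.succ.succ : Fin (2 * t + 1 + 1)) : ℕ)) / 2 =
            (2 * t - 1 - (i : ℕ)) / 2 := by
          simp only [Fin.val_succ]; congr 1; omega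
        rw [h1]
        congr 1
        have hi := i.isLt
        have h2 : (⟨(((i.succ.succ : Fin (2 * t + 1 + 1)) : ℕ)) / 2, by
            simp only [Fin.val_succ]; omega⟩ : Fin (t + 1)) =
            Fin.succ ⟨(i : ℕ) / 2, by omega⟩ := by
          apply Fin.ext
          simp only [Fin.val_succ]
          omega
        rw [h2, Fin.cons_succ]
        have h3 : ((i.succ.succ : Fin (2 * t + 1 + 1)) : ℕ) % 2 = (i : ℕ) % 2 := by
          simp only [Fin.val_succ]; omega
        rw [h3]
  funext i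
  exact key i

theorem YY_eq (W : Fin d → ZMod l → Fin n → ℝ) (J : ℕ → Fin d) (t : ℕ) :
    YY W J t = ∑ b : Fin t → ZMod l, Finsupp.single (tup W J t b) (1 : ℤ) := by
  induction t with
  | zero =>
    rw [Fintype.sum_unique]
    change (Finsupp.single default 1 : T (Fin n → ℝ) 0) = _
    congr 1
    exact Subsingleton.elim _ _
  | succ t ih =>
    rw [YY_succ, ih]
    simp only [map_sum, cone_single]
    have h1 : ∀ b : Fin (t + 1) → ZMod l, (Finsupp.single (tup W J (t + 1) b) (1 : ℤ) :
        T (Fin n → ℝ) (2 * t + 1 + 1)) = Finsupp.single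
        (Fin.cons (W (J t) (b 0)) (Fin.cons (W (J t) (b 0 + 1)) (tup W J t (Fin.tail b)) :
        Fin (2 * t + 1) → Fin n → ℝ) : Fin (2 * t + 1 + 1) → Fin n → ℝ) (1 : ℤ) := by
      intro b
      have h2 := tup_cons W J t (b 0) (Fin.tail b)
      rw [Fin.cons_self_tail] at h2
      exact congrArg (fun v => Finsupp.single v (1 : ℤ)) h2
    have h2 : (∑ b : Fin (t + 1) → ZMod l, (Finsupp.single (tup W J (t + 1) b) (1 : ℤ) :
        T (Fin n → ℝ) (2 * t + 1 + 1))) = ∑ b : Fin (t + 1) → ZMod l, Finsupp.single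
        (Fin.cons (W (J t) (b 0)) (Fin.cons (W (J t) (b 0 + 1)) (tup W J t (Fin.tail b)) :
        Fin (2 * t + 1) → Fin n → ℝ) : Fin (2 * t + 1 + 1) → Fin n → ℝ) (1 : ℤ) :=
      Finset.sum_congr rfl fun b _ => h1 b
    refine Eq.trans ?_ h2.symm
    rw [← Equiv.sum_comp (Fin.consEquiv (fun _ : Fin (t + 1) => ZMod l)), Fintype.sum_prod_type]
    rfl

/-- The slots. -/
def slot (g : ℕ) : Fin g × Fin 2 ≃ Fin (2 * g) :=
  finProdFinEquiv.trans (finCongr (mul_comm g 2))

theorem slot_val (g : ℕ) (s : Fin g) (e : Fin 2) : ((slot g (s, e) : Fin (2 * g)) : ℕ) =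
    e + 2 * s := by
  simp [slot]

theorem tup_slot (W : Fin d → ZMod l → Fin n → ℝ) (J : ℕ → Fin d) (g : ℕ) (b : Fin g → ZMod l)
    (s : Fin g) (e : Fin 2) : tup W J g b (slot g (s, e)) =
      W (J (g - 1 - s)) (b s + ((e : ℕ) : ZMod l)) := by
  have hs := s.isLt
  have he := e.isLt
  have h0 := slot_val g s e
  rw [tup]
  have h1 : (2 * g - 1 - ((slot g (s, e) : Fin (2 * g)) : ℕ)) / 2 = g - 1 - s := by
    rw [h0]; omega
  have h2 : (⟨((slot g (s, e) : Fin (2 * g)) : ℕ) / 2, by rw [h0]; omega⟩ : Fin g) = s := by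
    apply Fin.ext
    rw [Fin.val_mk, h0]
    omega
  have h3 : ((slot g (s, e) : Fin (2 * g)) : ℕ) % 2 = e := by rw [h0]; omega
  rw [h1, h2, h3]

/-- The test point. -/
noncomputable def tp (W : Fin d → ZMod l → Fin n → ℝ) : Fin n → ℝ :=
  ∑ j, ∑ c : ZMod l, (c.val : ℝ) • W j c

/-- Comparison of coefficients. -/
theorem coeff_cmp (W : Fin d → ZMod l → Fin n → ℝ) (hind : Ind W) {ι : Type*} [Fintype ι]
    (f : ι → Fin d × ZMod l) (β : ι → ℝ)
    (h : tp W = ∑ i, β i • W (f i).1 (f i).2) (j : Fin d) (c : ZMod l) :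
    (c.val : ℝ) - (∑ i, open Classical in if f i = (j, c) then β i else 0) =
      - (∑ i, open Classical in if f i = (j, 0) then β i else 0) := by
  classical
  let X : Fin d → ZMod l → ℝ := fun j c => (c.val : ℝ) - ∑ i, if f i = (j, c) then β i else 0
  have hX : ∑ j, ∑ c, X j c • W j c = 0 := by
    simp only [X, sub_smul, Finset.sum_sub_distrib]
    rw [sub_eq_zero]
    change tp W = _
    rw [h, ← Fintype.sum_prod_type' (f := fun j c => (∑ i, if f i = (j, c) then β i else 0) • W j c)]
    simp only [Finset.sum_smul, ite_smul, zero_smul]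
    rw [Finset.sum_comm]
    refine Finset.sum_congr rfl fun i _ => ?_
    rw [Finset.sum_eq_single (f i)]
    · rw [if_pos rfl]
    · intro b _ hb
      rw [if_neg (fun h => hb h.symm)]
    · intro h; exact absurd (Finset.mem_univ _) h
  have h1 := hind X hX j c
  simp only [X, ZMod.val_zero, Nat.cast_zero, zero_sub] at h1
  convert h1 using 2

end model3

section top

variable {g d l μ : ℕ} [NeZero l]

/-- Membership in the open cone forces a good configuration. -/
theorem good_of_cone (W : Fin d → ZMod l → Fin (2 * g) → ℝ) (hind : Ind W) (J : ℕ → Fin d)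
    (b : Fin g → ZMod l) (β : Fin (2 * g) → ℝ) (hβ : ∀ i, 0 < β i)
    (h : tp W = ∑ i, β i • tup W J g b i) : Good (fun s => J (g - 1 - s)) b := by
  classical
  intro j c hc
  by_contra hcon
  push Not at hcon
  have h1 : tp W = ∑ x : Fin g × Fin 2, β (slot g x) •
      W (Psi (fun s => J (g - 1 - s)) b x).1 (Psi (fun s => J (g - 1 - s)) b x).2 := by
    rw [h, ← Equiv.sum_comp (slot g)]
    refine Finset.sum_congr rfl fun x _ => ?_
    obtain ⟨s, e⟩ := x
    rw [tup_slot]
    rfl
  have h2 := coeff_cmp W hind (Psi (fun s => J (g - 1 - s)) b) (fun x => β (slot g x)) h1 j c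
  rw [Finset.sum_eq_zero fun x _ => if_neg (hcon x), sub_zero] at h2
  have h3 : 0 ≤ ∑ x : Fin g × Fin 2,
      if Psi (fun s => J (g - 1 - s)) b x = (j, 0) then β (slot g x) else 0 := by
    refine Finset.sum_nonneg fun x _ => ?_
    split_ifs
    · exact (hβ _).le
    · exact le_rfl
  have h4 : 0 < (c.val : ℝ) := by exact_mod_cast val_pos' hc
  have h5 : (∑ x : Fin g × Fin 2,
      if Psi (fun s => J (g - 1 - s)) b x = (j, 0) then β (slot g x) else 0) =
      (∑ i, open Classical in if Psi (fun s => J (g - 1 - s)) b i = (j, 0) then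
        (fun x => β (slot g x)) i else 0) := by
    refine Finset.sum_congr rfl fun x _ => ?_
    congr 1
  rw [h5] at h3
  linarith

/-- A good configuration has the test point in its open cone. -/
theorem cone_of_good (hl : l = 2 * μ + 1) (hg : g = μ * d)
    (W : Fin d → ZMod l → Fin (2 * g) → ℝ) (J : ℕ → Fin d)
    (b : Fin g → ZMod l) (h : Good (fun s => J (g - 1 - s)) b) :
    ∃ β : Fin (2 * g) → ℝ, (∀ i, 0 < β i) ∧ tp W = ∑ i, β i • tup W J g b i := by
  classical
  obtain ⟨hinj, hne⟩ := good_bij hl hg h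
  refine ⟨fun i => ((Psi (fun s => J (g - 1 - s)) b ((slot g).symm i)).2.val : ℝ), fun i => ?_, ?_⟩
  · exact Nat.cast_pos.mpr (val_pos' (hne _))
  · rw [← Equiv.sum_comp (slot g)]
    simp only [Equiv.symm_apply_apply]
    have h1 : ∀ x : Fin g × Fin 2, tup W J g b (slot g x) =
        W (Psi (fun s => J (g - 1 - s)) b x).1 (Psi (fun s => J (g - 1 - s)) b x).2 := by
      rintro ⟨s, e⟩
      rw [tup_slot]; rfl
    simp only [h1]
    rw [tp, ← Fintype.sum_prod_type' (f := fun j (c : ZMod l) => (c.val : ℝ) • W j c)]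
    have h2 := Finset.sum_image (s := Finset.univ) (g := Psi (fun s => J (g - 1 - s)) b)
      (f := fun y : Fin d × ZMod l => (y.2.val : ℝ) • W y.1 y.2) (fun x _ y _ h => hinj h)
    rw [← h2]
    symm
    refine Finset.sum_subset (Finset.subset_univ _) fun y _ hy => ?_
    by_cases hc : y.2 = 0
    · rw [hc]; simp
    · exfalso
      apply hy
      obtain ⟨x, hx⟩ := h y.1 y.2 hc
      exact Finset.mem_image.mpr ⟨x, Finset.mem_univ _, hx⟩

/-- The determinants of good configurations agree. -/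
theorem det_good (hl : l = 2 * μ + 1) (hg : g = μ * d)
    (W : Fin d → ZMod l → Fin (2 * g) → ℝ) (J : ℕ → Fin d)
    (b b' : Fin g → ZMod l) (h : Good (fun s => J (g - 1 - s)) b)
    (h' : Good (fun s => J (g - 1 - s)) b') :
    (Matrix.of (tup W J g b)).det = (Matrix.of (tup W J g b')).det := by
  obtain ⟨β, hβ1, hβ2⟩ := good_perm hl hg h h'
  let π : Equiv.Perm (Fin (2 * g)) := (slot g).permCongr (Equiv.prodCongrLeft fun _ : Fin 2 => β)
  have h1 : Matrix.of (tup W J g b) = (Matrix.of (tup W J g b')).submatrix π id := by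
    ext i a
    obtain ⟨⟨s, e⟩, rfl⟩ := (slot g).surjective i
    have h2 : π (slot g (s, e)) = slot g (β s, e) := by
      simp [π, Equiv.permCongr_apply]
    rw [Matrix.submatrix_apply, Matrix.of_apply, Matrix.of_apply, h2, tup_slot, tup_slot]
    have h3 := congrFun hβ1 s
    have h4 := congrFun hβ2 s
    simp only [Function.comp_apply] at h3 h4
    rw [h3, h4]
    rfl
  rw [h1, Matrix.det_permute]
  have h2 : Equiv.Perm.sign π = 1 := by
    simp only [π, Equiv.Perm.sign_permCongr, Equiv.Perm.sign_prodCongrLeft]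
    rw [Finset.prod_const, Finset.card_univ, Fintype.card_fin]
    exact Int.units_sq _
  rw [h2]
  simp

end top

end Pool.Agent.HL
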