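import Pool.Agent.Lib_helper43.HL.Model3

/-!
Part D: the winding number of the join of polygons is prime to `l`.
-/

namespace Pool.Agent.HL

open Finsupp Matrix CategoryTheory

section top2

variable {g d l μ : ℕ} [NeZero l]

theorem det_good_ne (hl : l = 2 * μ + 1) (hg : g = μ * d)
    (W : Fin d → ZMod l → Fin (2 * g) → ℝ) (hind : Ind W) (J : ℕ → Fin d)
    (b : Fin g → ZMod l) (h : Good (fun s => J (g - 1 - s)) b) :
    (Matrix.of (tup W J g b)).det ≠ 0 := by
  classical
  obtain ⟨hinj, hne⟩ := good_bij hl hg h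
  rw [← isUnit_iff_ne_zero, ← Matrix.isUnit_iff_isUnit_det, ← Matrix.linearIndependent_rows_iff_isUnit,
    Fintype.linearIndependent_iff]
  intro β hβ i
  have hβ' : ∑ x : Fin g × Fin 2, β (slot g x) •
      W (Psi (fun s => J (g - 1 - s)) b x).1 (Psi (fun s => J (g - 1 - s)) b x).2 = 0 := by
    rw [← hβ, ← Equiv.sum_comp (slot g)]
    refine Finset.sum_congr rfl fun x _ => ?_
    obtain ⟨s, e⟩ := x
    have := tup_slot W J g b s e
    change _ = β (slot g (s, e)) • tup W J g b (slot g (s, e))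
    rw [this]
    rfl
  let X : Fin d → ZMod l → ℝ := fun j c =>
    ∑ x : Fin g × Fin 2, if Psi (fun s => J (g - 1 - s)) b x = (j, c) then β (slot g x) else 0
  have hX : ∑ j, ∑ c, X j c • W j c = 0 := by
    rw [← Fintype.sum_prod_type' (f := fun j c => X j c • W j c)]
    simp only [X, Finset.sum_smul, ite_smul, zero_smul]
    rw [Finset.sum_comm]
    refine Eq.trans (Finset.sum_congr rfl fun x _ => ?_) hβ'
    rw [Finset.sum_eq_single (Psi (fun s => J (g - 1 - s)) b x)]
    · rw [if_pos rfl]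
    · intro y _ hy
      rw [if_neg (fun h => hy h.symm)]
    · intro h; exact absurd (Finset.mem_univ _) h
  obtain ⟨x, rfl⟩ := (slot g).surjective i
  have h1 := hind X hX (Psi (fun s => J (g - 1 - s)) b x).1 (Psi (fun s => J (g - 1 - s)) b x).2
  have h2 : X (Psi (fun s => J (g - 1 - s)) b x).1 0 = 0 := by
    refine Finset.sum_eq_zero fun y _ => if_neg fun hy => ?_
    exact hne y (congrArg Prod.snd hy)
  have h3 : X (Psi (fun s => J (g - 1 - s)) b x).1 (Psi (fun s => J (g - 1 - s)) b x).2 =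
      β (slot g x) := by
    simp only [X]
    rw [Finset.sum_eq_single x]
    · rw [if_pos rfl]
    · intro y _ hy
      rw [if_neg (fun h => hy (hinj h))]
    · intro h; exact absurd (Finset.mem_univ _) h
  rw [← h3, h1, h2]

theorem gen_tp (hl : l = 2 * μ + 1)
    (W : Fin d → ZMod l → Fin (2 * g) → ℝ) (hind : Ind W) (J : ℕ → Fin d)
    (hB : ∀ j, Fintype.card {s : Fin g // J (g - 1 - s) = j} = μ) (b : Fin g → ZMod l) :
    Gen1 (tp W) (tup W J g b) := by
  classical
  intro i0 hmem
  obtain ⟨x0, rfl⟩ := (slot g).surjective i0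
  have hrange : tup W J g b '' {k | k ≠ slot g x0} =
      Set.range (fun x : {x : Fin g × Fin 2 // x ≠ x0} => tup W J g b (slot g x.1)) := by
    ext y
    constructor
    · rintro ⟨k, hk, rfl⟩
      obtain ⟨x, rfl⟩ := (slot g).surjective k
      exact ⟨⟨x, fun h => hk (by rw [h])⟩, rfl⟩
    · rintro ⟨x, rfl⟩
      exact ⟨slot g x.1, fun h => x.2 ((slot g).injective h), rfl⟩
  rw [hrange, Submodule.mem_span_range_iff_exists_fun] at hmem
  obtain ⟨β, hβ⟩ := hmem
  set B : Fin g → Fin d := fun s => J (g - 1 - s) with hBdef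
  let f : {x : Fin g × Fin 2 // x ≠ x0} → Fin d × ZMod l := fun x => Psi B b x.1
  have h1 : tp W = ∑ x : {x : Fin g × Fin 2 // x ≠ x0}, β x • W (f x).1 (f x).2 := by
    rw [← hβ]
    refine Finset.sum_congr rfl fun x _ => ?_
    obtain ⟨⟨s, e⟩, hx⟩ := x
    simp only [f, tup_slot]
    rfl
  -- the covered labels of the block of `x0`
  let j0 := B x0.1
  let C : Finset (ZMod l) := ((Finset.univ.filter fun x : Fin g × Fin 2 => B x.1 = j0).erase x0).image
    fun x => (Psi B b x).2
  have hcard : (Finset.univ.filter fun x : Fin g × Fin 2 => B x.1 = j0).card = 2 * μ := by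
    have h2 : (Finset.univ.filter fun x : Fin g × Fin 2 => B x.1 = j0) =
        (Finset.univ.filter fun s : Fin g => B s = j0) ×ˢ (Finset.univ : Finset (Fin 2)) := by
      ext x; simp
    rw [h2, Finset.card_product, ← Fintype.card_subtype, hB j0, Finset.card_univ, Fintype.card_fin,
      mul_comm]
  have hC : C.card + 1 ≤ 2 * μ := by
    have h2 : C.card ≤ ((Finset.univ.filter fun x : Fin g × Fin 2 => B x.1 = j0).erase x0).card :=
      Finset.card_image_le
    rw [Finset.card_erase_of_mem (by simp [j0]), hcard] at h2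
    have : 0 < 2 * μ := by
      rw [← hcard]
      exact Finset.card_pos.mpr ⟨x0, by simp [j0]⟩
    omega
  have hC2 : 1 < (Finset.univ \ C).card := by
    rw [Finset.card_sdiff_of_subset (Finset.subset_univ _), Finset.card_univ, ZMod.card]
    omega
  obtain ⟨c, hc, c', hc', hne⟩ := Finset.one_lt_card.mp hC2
  have hunc : ∀ c, c ∈ Finset.univ \ C → ∀ x : {x : Fin g × Fin 2 // x ≠ x0}, f x ≠ (j0, c) := by
    intro c hc x hx
    rw [Finset.mem_sdiff] at hc
    apply hc.2
    refine Finset.mem_image.mpr ⟨x.1, ?_, congrArg Prod.snd hx⟩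
    rw [Finset.mem_erase, Finset.mem_filter]
    exact ⟨x.2, Finset.mem_univ _, congrArg Prod.fst hx⟩
  have e1 := coeff_cmp W hind f β h1 j0 c
  have e2 := coeff_cmp W hind f β h1 j0 c'
  rw [Finset.sum_eq_zero fun x _ => if_neg (hunc c hc x), sub_zero] at e1
  rw [Finset.sum_eq_zero fun x _ => if_neg (hunc c' hc' x), sub_zero] at e2
  apply hne
  apply ZMod.val_injective
  have : (c.val : ℝ) = c'.val := by rw [e1, e2]
  exact_mod_cast this

theorem fiber_card (hg : g = μ * d) (J : ℕ → Fin d)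
    (hJ : ∀ t, t < μ * d → ((J t : Fin d) : ℕ) = t / μ) (j : Fin d) :
    Fintype.card {s : Fin g // J (g - 1 - s) = j} = μ := by
  have hj := j.isLt
  have hlt : ∀ r : Fin μ, μ * j + r < μ * d := by
    intro r
    have hr := r.isLt
    calc μ * j + r < μ * j + μ := by omega
      _ = μ * (j + 1) := by ring
      _ ≤ μ * d := Nat.mul_le_mul_left _ hj
  have hdiv : ∀ r : Fin μ, (μ * j + r) / μ = j := by
    intro r
    have hr := r.isLt
    rw [Nat.mul_add_div (by omega), Nat.div_eq_of_lt hr, add_zero]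
  let F : Fin μ → {s : Fin g // J (g - 1 - s) = j} := fun r =>
    ⟨⟨g - 1 - (μ * j + r), by have := hlt r; omega⟩, by
      have h1 := hlt r
      have h2 : g - 1 - (g - 1 - (μ * j + r)) = μ * j + r := by omega
      apply Fin.ext
      change ((J (g - 1 - (g - 1 - (μ * j + r))) : Fin d) : ℕ) = j
      rw [h2, hJ _ h1, hdiv]⟩
  have hF : Function.Bijective F := by
    constructor
    · intro r r' h
      have h1 := congrArg (fun x => ((x.1 : Fin g) : ℕ)) h
      have h2 := hlt r
      have h3 := hlt r'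
      simp only [F] at h1
      apply Fin.ext
      omega
    · rintro ⟨s, hs⟩
      have hsl := s.isLt
      have h1 : g - 1 - (s : ℕ) < μ * d := by omega
      have h2 := hJ _ h1
      rw [hs] at h2
      have hμ : 0 < μ := by
        rcases Nat.eq_zero_or_pos μ with h | h
        · subst h; omega
        · exact h
      have h3 := Nat.div_add_mod (g - 1 - (s : ℕ)) μ
      rw [← h2] at h3
      refine ⟨⟨(g - 1 - (s : ℕ)) % μ, Nat.mod_lt _ hμ⟩, ?_⟩
      apply Subtype.ext
      apply Fin.ext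
      change g - 1 - (μ * j + (g - 1 - (s : ℕ)) % μ) = s
      omega
  have := Fintype.card_of_bijective hF
  rw [← this, Fintype.card_fin]

theorem exists_good (hl : l = 2 * μ + 1) (hg : g = μ * d) (J : ℕ → Fin d)
    (hJ : ∀ t, t < μ * d → ((J t : Fin d) : ℕ) = t / μ) :
    ∃ b : Fin g → ZMod l, Good (fun s => J (g - 1 - s)) b := by
  refine ⟨fun s => ((2 * ((g - 1 - s) % μ) + 1 : ℕ) : ZMod l), ?_⟩
  intro j c hc
  have hv := val_pos' hc
  have hvl := ZMod.val_lt c
  have hj := j.isLt
  have hr : (c.val - 1) / 2 < μ := by omega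
  have hlt : μ * j + (c.val - 1) / 2 < μ * d := by
    calc μ * j + (c.val - 1) / 2 < μ * j + μ := by omega
      _ = μ * (j + 1) := by ring
      _ ≤ μ * d := Nat.mul_le_mul_left _ hj
  have hdiv : (μ * j + (c.val - 1) / 2) / μ = j := by
    rw [Nat.mul_add_div (by omega), Nat.div_eq_of_lt hr, add_zero]
  have hmod : (μ * j + (c.val - 1) / 2) % μ = (c.val - 1) / 2 := by
    rw [Nat.mul_add_mod, Nat.mod_eq_of_lt hr]
  refine ⟨(⟨g - 1 - (μ * j + (c.val - 1) / 2), by omega⟩, ⟨(c.val - 1) % 2, by omega⟩), ?_⟩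
  have h2 : g - 1 - (g - 1 - (μ * j + (c.val - 1) / 2)) = μ * j + (c.val - 1) / 2 := by omega
  simp only [Psi, Prod.mk.injEq]
  refine ⟨?_, ?_⟩
  · apply Fin.ext
    rw [h2, hJ _ hlt, hdiv]
  · rw [h2, hmod, ← Nat.cast_add]
    have : 2 * ((c.val - 1) / 2) + 1 + (c.val - 1) % 2 = c.val := by omega
    rw [this, ZMod.natCast_zmod_val]

/-- **The winding number of the join of polygons is prime to `l`.** -/
theorem wind_YY (hlp : l.Prime) (hl : l = 2 * μ + 1) (hg : g = μ * d) (hg0 : g ≠ 0)
    (W : Fin d → ZMod l → Fin (2 * g) → ℝ) (hind : Ind W) (J : ℕ → Fin d)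
    (hJ : ∀ t, t < μ * d → ((J t : Fin d) : ℕ) = t / μ) :
    ¬ (l : ℤ) ∣ wind (YY W J g) := by
  classical
  have hB := fiber_card hg J hJ
  obtain ⟨b0, hb0⟩ := exists_good (l := l) hl hg J hJ
  -- membership in `KC` and cycle condition
  have hK : YY W J g ∈ KC (2 * g) (2 * g) := by
    rw [mem_KC]
    intro v hv
    exact shJ_off hind hl hJ (by rw [hg]) (YY_shJ g v hv)
  have hgen : GenC (tp W) (YY W J g) := by
    intro v hv
    rw [YY_eq] at hv
    have h1 := Finsupp.support_finsetSum hv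
    rw [Finset.mem_biUnion] at h1
    obtain ⟨b, _, hb⟩ := h1
    have h2 := Finsupp.support_single_subset hb
    rw [Finset.mem_singleton] at h2
    rw [h2]
    exact gen_tp hl W hind J hB b
  obtain ⟨g', rfl⟩ : ∃ g', g = g' + 1 := ⟨g - 1, by omega⟩
  have hw : wind (YY W J (g' + 1)) = windAt (tp W) (YY W J (g' + 1)) :=
    wind_eq (2 * g' + 1) (YY W J (g' + 1)) hK (bd_YY W J g') (tp W) hgen
  rw [hw, YY_eq, map_sum]
  simp only [windAt_single, one_mul]
  set ε : ℤ := (SignType.sign ((Matrix.of (tup W J (g' + 1) b0)).det) : ℤ) with hε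
  have hεu : ε = 1 ∨ ε = -1 := by
    rcases lt_or_gt_of_ne (det_good_ne hl hg W hind J b0 hb0) with h | h
    · right; rw [hε, sign_neg h]; rfl
    · left; rw [hε, sign_pos h]; rfl
  have hterm : ∀ b : Fin (g' + 1) → ZMod l, phi (tp W) (tup W J (g' + 1) b) =
      if Good (fun s => J (g' + 1 - 1 - s)) b then ε else 0 := by
    intro b
    by_cases hgood : Good (fun s => J (g' + 1 - 1 - s)) b
    · rw [if_pos hgood, phi, if_pos (cone_of_good hl hg W J b hgood),
        det_good hl hg W J b b0 hgood hb0]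
    · rw [if_neg hgood, phi, if_neg]
      rintro ⟨β, hβ, hp⟩
      exact hgood (good_of_cone W hind J b β hβ hp)
  simp only [hterm]
  rw [← Finset.sum_filter, Finset.sum_const, nsmul_eq_mul]
  intro hd
  have h3 : (l : ℤ) ∣ (((Finset.univ.filter (fun b' : Fin (g' + 1) → ZMod l =>
      Good (fun s => J (g' + 1 - 1 - s)) b')).card : ℕ) : ℤ) := by
    rcases hεu with h | h
    · rw [h, mul_one] at hd; exact hd
    · rw [h, mul_neg, mul_one, dvd_neg] at hd; exact hd
  exact good_count_prime hlp hl hg hB hb0 (Int.natCast_dvd_natCast.mp h3)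

end top2

end Pool.Agent.HL
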