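import Pool.Agent.Lib_helper43.HL.Sp4

/-!
Part D: the odd part of the order of `λ_g`.
-/

namespace Pool.Agent.HL

open Matrix Finsupp CategoryTheory

section oddpart

/-- For a class killed by `M` and an element `h` of order dividing `l ^ (a + 1)`, if the value of
the cocycle on the top chain of `h ^ (l ^ a)` is prime to `l`, then `l ^ (a + 1)` divides `M`. -/
theorem key_odd {G : Type} [Group G] (k : ℕ) (hk : Even k) (e : (Fin (k + 2) → G) → ℤ)
    (he : inhomogeneousCochains.d (ZRep G) (k + 2) e = 0) (h : G) (l a : ℕ) (hl : l.Prime)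
    (hN : h ^ (l ^ a * l) = 1) (M : ℤ) (h0 : M • cls e he = 0)
    (hprime : ¬ (l : ℤ) ∣ hom (k + 2) e (cn (h ^ (l ^ a)) l (k + 2))) :
    ((l : ℤ) ^ (a + 1)) ∣ M := by
  have h1 : groupCohomology.π (ZRep G) (k + 2) (M • groupCohomology.cocyclesMk e he) = 0 := by
    rw [map_zsmul]; exact h0
  obtain ⟨f, hf⟩ := pi_eq_zero (k + 1) _ h1
  rw [map_zsmul, groupCohomology.iCocycles_mk] at hf
  refine cyc_dvd h l a hl hN k hk (hom (k + 1) f) (hom (k + 2) e)
    (fun g x => hom_ac _ _ _ _) (fun g x => hom_ac _ _ _ _) (fun x => ?_) M (fun x => ?_) hprime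
  · rw [hom_bd, he]
    have : hom (k + 2 + 1) (0 : (Fin (k + 2 + 1) → G) → ℤ) = 0 := by
      have := hom_smul (G := G) (k + 2 + 1) 0 0
      simpa using this
    rw [this]
    simp
  · rw [hom_bd, hf]
    have := hom_smul (G := G) (k + 2) M e
    exact LinearMap.congr_fun this x

/-- The value of the Euler cocycle on a cyclic group acting by permutations of polygons. -/
theorem eCo_cyc_prime {G : Type} [Group G] {μ d l g : ℕ} [NeZero l] (hlp : l.Prime)
    (hl : l = 2 * μ + 1) (hg : g + 1 = μ * d)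
    (ρ : G →* Matrix (Fin (2 * (g + 1))) (Fin (2 * (g + 1))) ℝ) (hρ : ∀ g, 0 < (ρ g).det)
    {F : (k : ℕ) → T G k →ₗ[ℤ] T (Fin (2 * (g + 1)) → ℝ) k} (hF : Adm ρ F)
    (u : G) (hu : u ^ l = 1) (W : Fin d → ZMod l → Fin (2 * (g + 1)) → ℝ) (hind : Ind W)
    (hM : ∀ j c, ρ u *ᵥ W j c = W j (c + 1)) :
    ¬ (l : ℤ) ∣ hom (2 * (g + 1)) (eCo F) (cn u l (2 * (g + 1))) := by
  have hμ : 0 < μ := by
    rcases Nat.eq_zero_or_pos μ with h | h
    · subst h; omega
    · exact h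
  have hd : 0 < d := by
    rcases Nat.eq_zero_or_pos d with h | h
    · subst h; omega
    · exact h
  let J : ℕ → Fin d := fun t => if h : t / μ < d then ⟨t / μ, h⟩ else ⟨0, hd⟩
  have hJ : ∀ t, t < μ * d → ((J t : Fin d) : ℕ) = t / μ := by
    intro t ht
    have h : t / μ < d := by
      rw [Nat.div_lt_iff_lt_mul hμ, mul_comm]; exact ht
    simp only [J, dif_pos h]
  have htopeq : sl (ρ u) l (2 * g + 1) (2 * g + 1 + 1) (sw W J (ρ u) (2 * g + 1)) =
      YY W J (g + 1) := by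
    rw [(sw_eq hM g).2]
    exact norm_cc hM g
  obtain ⟨t, ht⟩ := eCo_cyc (m := 2 * g + 1) ⟨g, rfl⟩ ρ hρ hF u l hu (fun k => sw W J (ρ u) k)
    (fun k hk => by
      rw [mem_KC]
      intro v hv
      exact shJ_off hind hl hJ (by omega) (sw_shJ hM k v hv))
    bd_sw_zero (fun k _ => bd_sw hM k) (by rw [htopeq]; exact bd_YY W J g)
  have hw := wind_YY hlp hl hg (Nat.succ_ne_zero g) W hind J hJ
  intro hdvd
  apply hw
  rw [htopeq] at ht
  have h2 : hom (2 * g + 1 + 1) (eCo F) (cn u l (2 * g + 1 + 1)) = hom (2 * (g + 1)) (eCo F) (cn u l (2 * (g + 1))) := rfl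
  rw [h2] at ht
  have h3 : wind (YY W J (g + 1)) = hom (2 * (g + 1)) (eCo F) (cn u l (2 * (g + 1))) - l * t := by
    rw [ht]; ring
  rw [h3]
  exact dvd_sub hdvd ⟨t, rfl⟩

/-- **The odd part.** If `l` is an odd prime with `l - 1 ∣ 2g`, then every integer killing `λ_g` is
divisible by `l ^ (v_l(2g) + 1)`. -/
theorem odd_part (g : ℕ) (hg : 2 * g ≠ 0) (l : ℕ) (hlp : l.Prime) (hl2 : l ≠ 2)
    (hdvd : l - 1 ∣ 2 * g) (M : ℤ) (h0 : M • hodgeTop g hg = 0) :
    ((l : ℤ) ^ (padicValNat l (2 * g) + 1)) ∣ M := by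
  haveI : NeZero l := ⟨hlp.ne_zero⟩
  haveI : Fact l.Prime := ⟨hlp⟩
  obtain ⟨μ, hl⟩ : ∃ μ, l = 2 * μ + 1 := by
    have := hlp.eq_two_or_odd'
    rcases this with h | h
    · exact absurd h hl2
    · exact h
  have hμ : 0 < μ := by
    have := hlp.two_le
    omega
  obtain ⟨g', rfl⟩ : ∃ g', g = g' + 1 := ⟨g - 1, by omega⟩
  have hdvd' : μ ∣ g' + 1 := by
    have h1 : 2 * μ ∣ 2 * (g' + 1) := by
      have : l - 1 = 2 * μ := by omega
      rw [← this]; exact hdvd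
    exact Nat.dvd_of_mul_dvd_mul_left (by norm_num) h1
  obtain ⟨d, hd⟩ := hdvd'
  have hd0 : d ≠ 0 := by
    rintro rfl
    omega
  set a := padicValNat l (2 * (g' + 1)) with ha
  have hcop : Nat.Coprime (l ^ a) (2 * μ) := by
    apply Nat.Coprime.pow_left
    rw [Nat.Prime.coprime_iff_not_dvd hlp]
    intro h
    have := Nat.le_of_dvd (by omega) h
    omega
  have hLd : l ^ a ∣ d := by
    have h1 : l ^ a ∣ 2 * (g' + 1) := pow_padicValNat_dvd
    rw [hd, ← mul_assoc] at h1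
    exact hcop.dvd_of_dvd_mul_left h1
  obtain ⟨q, hq⟩ := hLd
  haveI : NeZero (l ^ a) := ⟨pow_ne_zero _ hlp.ne_zero⟩
  have hcard1 : Fintype.card (Fin q × ZMod (l ^ a)) = d := by
    rw [Fintype.card_prod, Fintype.card_fin, ZMod.card, hq, mul_comm]
  have hcard2 : Fintype.card (Fin μ × (Fin q × ZMod (l ^ a))) = g' + 1 := by
    rw [Fintype.card_prod, Fintype.card_fin, hcard1, hd]
  let E : Fin q × ZMod (l ^ a) ≃ Fin d := Fintype.equivFinOfCardEq hcard1
  let e : Fin μ × (Fin q × ZMod (l ^ a)) ≃ Fin (g' + 1) := Fintype.equivFinOfCardEq hcard2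
  let h : Spl (Fin (g' + 1)) := reS e (hE μ q (l ^ a))
  have hN : h ^ (l ^ a * l) = 1 := by
    rw [← map_pow, hE_pow_order hl, map_one]
  have hM : ∀ j c, spRep (g' + 1) (h ^ (l ^ a)) *ᵥ Wv l e E j c = Wv l e E j (c + 1) := by
    intro j c
    rw [← map_pow, Wv, spRep_toR, hE_pow_L, u0_wv hl]
    rfl
  refine key_odd (2 * g') (even_two_mul g') _ _ h l a hlp hN M h0 ?_
  exact eCo_cyc_prime hlp hl hd (spRep (g' + 1)) (spRep_pos (g' + 1))
    (FF_adm (spRep (g' + 1)) fun x => (spRep_pos (g' + 1) x).ne') (h ^ (l ^ a))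
    (by rw [← pow_mul]; exact hN) (Wv l e E) (Wv_ind hl e E) hM

end oddpart

end Pool.Agent.HL
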