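import Pool.Agent.Lib_helper43.HL.Euler2

/-!
The Euler class of a representation in which a central element acts by `-1` is odd at that element.
-/

namespace Pool.Agent.HL

open Finsupp Matrix CategoryTheory

section tl

variable {n : ℕ}

/-- The operator `(-1)_* + (-1)^k` on chains of vectors. -/
noncomputable def tl (k j : ℕ) : T (Fin n → ℝ) j →ₗ[ℤ] T (Fin n → ℝ) j :=
  lm (-1) j + ((-1 : ℤ) ^ k) • LinearMap.id

theorem tl_apply (k j : ℕ) (x : T (Fin n → ℝ) j) :
    tl k j x = lm (-1) j x + ((-1 : ℤ) ^ k) • x := rfl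

theorem bd_tl (k j : ℕ) (x : T (Fin n → ℝ) (j + 1)) :
    bd j (tl k (j + 1) x) = tl k j (bd j x) := by
  rw [tl_apply, tl_apply, map_add, map_smul, bd_lm]

theorem tl_tl (k j : ℕ) (x : T (Fin n → ℝ) j) : tl (k + 1) j (tl k j x) = 0 := by
  rw [tl_apply, tl_apply, map_add, map_smul, ← lm_mul]
  have : (-1 : Matrix (Fin n) (Fin n) ℝ) * -1 = 1 := by simp
  rw [this, lm_one, pow_succ]
  rcases neg_one_pow_eq_or ℤ k with h | h <;> rw [h] <;> simp

theorem det_neg_one_ne : (-1 : Matrix (Fin n) (Fin n) ℝ).det ≠ 0 := by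
  rw [Matrix.det_neg, Matrix.det_one, mul_one]
  exact pow_ne_zero _ (by norm_num)

theorem tl_KC (k j : ℕ) (x : T (Fin n → ℝ) j) (hx : x ∈ KC n j) : tl k j x ∈ KC n j :=
  Submodule.add_mem _ (lm_KC _ det_neg_one_ne x hx) (Submodule.smul_mem _ _ hx)

theorem lm_zero_deg (M : Matrix (Fin n) (Fin n) ℝ) (x : T (Fin n → ℝ) 0) : lm M 0 x = x := by
  rw [T_zero_ext x, map_smul, lm_single]
  congr 2
  exact Subsingleton.elim _ _

theorem tl_one_zero (x : T (Fin n → ℝ) 0) : tl (0 + 1) 0 x = 0 := by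
  rw [tl_apply, lm_zero_deg]; simp

/-- Comparison lemma. -/
theorem compare (m : ℕ) (r : ∀ k, T (Fin (m + 1) → ℝ) (k + 1))
    (hK : ∀ k ≤ m, r k ∈ KC (m + 1) (k + 1)) (h0 : bd 0 (r 0) = 0)
    (hr : ∀ k, k + 1 ≤ m → bd (k + 1) (r (k + 1)) = tl (k + 1) (k + 1) (r k)) :
    ∃ ζ : T (Fin (m + 1) → ℝ) (m + 1), ζ ∈ KC (m + 1) (m + 1) ∧ bd m ζ = 0 ∧
      tl (m + 1) (m + 1) (r m) = tl (m + 1) (m + 1) ζ := by
  let y : ∀ k, T (Fin (m + 1) → ℝ) (k + 1) := fun k =>
    Nat.rec (motive := fun k => T (Fin (m + 1) → ℝ) (k + 1)) 0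
    (fun k yk => fil (k + 1) (r k - tl k (k + 1) yk)) k
  have hy : ∀ k, y (k + 1) = fil (k + 1) (r k - tl k (k + 1) (y k)) := fun k => rfl
  have hy0 : y 0 = 0 := rfl
  have hyK : ∀ k ≤ m, y k ∈ KC (m + 1) (k + 1) := by
    intro k
    induction k with
    | zero => intro _; rw [hy0]; exact Submodule.zero_mem _
    | succ k ih =>
      intro hk
      rw [hy]
      exact fil_KC _ (Submodule.sub_mem _ (hK k (by omega)) (tl_KC _ _ _ (ih (by omega))))
  have hcyc : ∀ k ≤ m, bd k (r k - tl k (k + 1) (y k)) = 0 := by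
    intro k
    induction k with
    | zero => intro _; rw [hy0, map_zero, sub_zero, h0]
    | succ k ih =>
      intro hk
      have h1 : bd (k + 1) (y (k + 1)) = r k - tl k (k + 1) (y k) := by
        rw [hy, bd_fil (by omega) _ (ih (by omega))]
      rw [map_sub, hr k hk, bd_tl, h1, map_sub, tl_tl, sub_zero, sub_self]
  refine ⟨r m - tl m (m + 1) (y m), Submodule.sub_mem _ (hK m le_rfl)
    (tl_KC _ _ _ (hyK m le_rfl)), hcyc m le_rfl, ?_⟩
  rw [map_sub, tl_tl, sub_zero]

/-- The standard basis vectors, indexed by natural numbers. -/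
def bb (n k : ℕ) : Fin n → ℝ := fun i => if (i : ℕ) = k then 1 else 0

/-- The hemisphere chains of the cross-polytope. -/
noncomputable def sg (n : ℕ) : (k : ℕ) → T (Fin n → ℝ) (k + 1)
  | 0 => Finsupp.single (fun _ => bb n 0) 1
  | (k + 1) => cone (bb n (k + 1)) (k + 1) (tl (k + 1) (k + 1) (sg n k))

theorem bd_sg_zero : bd 0 (sg n 0) = Finsupp.single default 1 := by
  have : (Finsupp.single (fun _ => bb n 0) 1 : T (Fin n → ℝ) 1) =
      cone (bb n 0) 0 (Finsupp.single default 1) := by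
    rw [cone_single]
    congr 1
    funext i
    fin_cases i
    rfl
  rw [sg, this, bd_cone_zero]

theorem bd_sg (k : ℕ) : bd (k + 1) (sg n (k + 1)) = tl (k + 1) (k + 1) (sg n k) := by
  rw [sg, bd_cone, bd_tl]
  cases k with
  | zero => rw [bd_sg_zero, tl_one_zero, map_zero, sub_zero]
  | succ k => rw [bd_sg k, tl_tl, map_zero, sub_zero]

/-- The shape of the tuples occurring in `sg`. -/
def Sh (n k : ℕ) (v : Fin (k + 1) → Fin n → ℝ) : Prop :=
  ∀ i : Fin (k + 1), v i = bb n (k - i) ∨ v i = - bb n (k - i)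

theorem lm_neg_supp (k : ℕ) (x : T (Fin n → ℝ) k) (v : Fin k → Fin n → ℝ)
    (hv : v ∈ (lm (-1) k x).support) : -v ∈ x.support := by
  classical
  have h1 : v ∈ x.support.image (fun u => (fun x => (-1 : Matrix (Fin n) (Fin n) ℝ) *ᵥ x) ∘ u) :=
    Finsupp.mapDomain_support hv
  rw [Finset.mem_image] at h1
  obtain ⟨u, hu, rfl⟩ := h1
  have : -((fun x => (-1 : Matrix (Fin n) (Fin n) ℝ) *ᵥ x) ∘ u) = u := by
    funext i
    simp [Matrix.neg_mulVec]
  rw [this]
  exact hu

theorem tl_supp (k j : ℕ) (x : T (Fin n → ℝ) j) (v : Fin j → Fin n → ℝ)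
    (hv : v ∈ (tl k j x).support) : -v ∈ x.support ∨ v ∈ x.support := by
  classical
  rw [tl_apply] at hv
  rcases Finset.mem_union.mp (Finsupp.support_add hv) with h | h
  · left; exact lm_neg_supp j x v h
  · right; exact Finsupp.support_smul h

theorem sh_neg {k : ℕ} {v : Fin (k + 1) → Fin n → ℝ} (h : Sh n k (-v)) : Sh n k v := by
  intro i
  rcases h i with h | h
  · right
    rw [← h]; simp
  · left
    have h2 : -(v i) = - bb n (k - i) := h
    exact neg_injective h2

theorem sg_supp (k : ℕ) (v : Fin (k + 1) → Fin n → ℝ) (hv : v ∈ (sg n k).support) :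
    Sh n k v ∧ v 0 = bb n k := by
  classical
  induction k with
  | zero =>
    rw [sg] at hv
    have := Finsupp.support_single_subset hv
    rw [Finset.mem_singleton] at this
    subst this
    exact ⟨fun i => Or.inl (by simp), rfl⟩
  | succ k ih =>
    rw [sg] at hv
    have h1 : v ∈ (tl (k + 1) (k + 1) (sg n k)).support.image
        (fun u => (Fin.cons (bb n (k + 1)) u : Fin (k + 1 + 1) → Fin n → ℝ)) :=
      Finsupp.mapDomain_support hv
    rw [Finset.mem_image] at h1
    obtain ⟨u, hu, rfl⟩ := h1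
    have hsh : Sh n k u := by
      rcases tl_supp _ _ _ _ hu with h | h
      · exact sh_neg (ih _ h).1
      · exact (ih _ h).1
    refine ⟨fun i => ?_, by simp⟩
    refine Fin.cases ?_ (fun j => ?_) i
    · left; simp
    · have := hsh j
      simpa using this

/-- The all-positive simplex. -/
def be (n k : ℕ) : Fin (k + 1) → Fin n → ℝ := fun i => bb n (k - i)

theorem be_succ (k : ℕ) : be n (k + 1) = Fin.cons (bb n (k + 1)) (be n k) := by
  funext i
  refine Fin.cases ?_ (fun j => ?_) i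
  · simp [be]
  · simp [be]

theorem bb_ne_neg {k : ℕ} (hk : k < n) : bb n k ≠ - bb n k := by
  intro h
  have := congrFun h ⟨k, hk⟩
  simp [bb] at this
  norm_num at this

theorem sg_neg_be {k : ℕ} (hk : k < n) : sg n k (-(be n k)) = 0 := by
  by_contra h
  have h1 := (sg_supp k _ (Finsupp.mem_support_iff.mpr h)).2
  have h2 : (-be n k) 0 = - bb n k := by simp [be]
  rw [h2] at h1
  exact bb_ne_neg hk h1.symm

theorem lm_neg_apply (k : ℕ) (x : T (Fin n → ℝ) k) (v : Fin k → Fin n → ℝ) :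
    lm (-1) k x v = x (-v) := by
  have hinj : Function.Injective (fun u : Fin k → Fin n → ℝ =>
      (fun x => (-1 : Matrix (Fin n) (Fin n) ℝ) *ᵥ x) ∘ u) := by
    intro a b hab
    funext i
    have := congrFun hab i
    simpa [Matrix.neg_mulVec] using this
  have h1 : v = (fun u : Fin k → Fin n → ℝ =>
      (fun x => (-1 : Matrix (Fin n) (Fin n) ℝ) *ᵥ x) ∘ u) (-v) := by
    funext i
    simp [Matrix.neg_mulVec]
  conv_lhs => rw [h1]
  exact Finsupp.mapDomain_apply hinj x (-v)

theorem sg_be {k : ℕ} (hk : k < n) : sg n k (be n k) = 1 ∨ sg n k (be n k) = -1 := by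
  induction k with
  | zero =>
    left
    have : be n 0 = fun _ => bb n 0 := by funext i; simp [be]
    rw [sg, this, Finsupp.single_eq_same]
  | succ k ih =>
    have hinj : Function.Injective (fun u : Fin (k + 1) → Fin n → ℝ =>
        (Fin.cons (bb n (k + 1)) u : Fin (k + 1 + 1) → Fin n → ℝ)) :=
      Fin.cons_right_injective (α := fun _ => Fin n → ℝ) (bb n (k + 1))
    have h1 : sg n (k + 1) (be n (k + 1)) = tl (k + 1) (k + 1) (sg n k) (be n k) := by
      rw [be_succ, sg]
      exact Finsupp.mapDomain_apply hinj _ _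
    rw [h1, tl_apply, Finsupp.add_apply, lm_neg_apply, sg_neg_be (by omega), zero_add,
      Finsupp.smul_apply, smul_eq_mul]
    rcases ih (by omega) with h | h <;> rcases neg_one_pow_eq_or ℤ (k + 1) with h2 | h2 <;>
      rw [h, h2] <;> simp

end tl

end Pool.Agent.HL
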