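import Pool.Agent.Lib_helper43.HL.Parity

/-!
The Euler class of a representation in which a central element acts by `-1` is odd at that element.
-/

namespace Pool.Agent.HL

open Finsupp Matrix CategoryTheory

section sphere

variable {n : ℕ}

theorem bb_off {k : ℕ} (hk : k < n) (v : Fin (k + 1) → Fin n → ℝ) (hv : Sh n k v) :
    v ∈ Off n (k + 1) := by
  induction k with
  | zero =>
    intro h
    have h1 : Set.range v = {v 0} := by
      ext x
      constructor
      · rintro ⟨i, rfl⟩
        have : i = 0 := Fin.ext (by have := i.isLt; simp only [Fin.val_zero]; omega)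
        rw [this]; rfl
      · rintro rfl
        exact ⟨0, rfl⟩
    rw [h1, convexHull_singleton, Set.mem_singleton_iff] at h
    have h2 := congrFun h ⟨0, hk⟩
    rcases hv 0 with h3 | h3
    · rw [h3] at h2
      simp [bb] at h2
    · rw [h3] at h2
      simp [bb] at h2
  | succ k ih =>
    have hv0 := hv 0
    have h1 : v = Fin.cons (v 0) (Fin.tail v) := (Fin.cons_self_tail v).symm
    have hsh : Sh n k (Fin.tail v) := by
      intro i
      have := hv i.succ
      simpa [Fin.tail] using this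
    rw [h1]
    apply off_cons (ih (by omega) _ hsh)
    -- the vector `v 0 = ± b_{k+1}` is not in the span of `± b_i`, `i ≤ k`
    intro hmem
    have hle : Submodule.span ℝ (Set.range (Fin.tail v)) ≤
        LinearMap.ker (LinearMap.proj (R := ℝ) (φ := fun _ : Fin n => ℝ) ⟨k + 1, hk⟩) := by
      rw [Submodule.span_le]
      rintro x ⟨i, rfl⟩
      rw [SetLike.mem_coe, LinearMap.mem_ker, LinearMap.proj_apply]
      have hne : ¬ (k + 1 = k - (i : ℕ)) := by omega
      rcases hsh i with h3 | h3
      · rw [h3]; simp [bb, hne]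
      · rw [h3]; simp [bb, hne]
    have h2 := hle hmem
    rw [LinearMap.mem_ker, LinearMap.proj_apply] at h2
    rcases hv0 with h3 | h3
    · rw [h3] at h2; simp [bb] at h2
    · rw [h3] at h2; simp [bb] at h2

theorem sg_KC {k : ℕ} (hk : k < n) : sg n k ∈ KC n (k + 1) := by
  rw [mem_KC]
  intro v hv
  exact bb_off hk v (sg_supp k v hv).1

/-- The point `(1, …, 1)`. -/
def one1 (n : ℕ) : Fin n → ℝ := fun _ => 1

theorem one1_gen (m : ℕ) (v : Fin (m + 1) → Fin (m + 1) → ℝ) (hv : Sh (m + 1) m v) :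
    Gen1 (one1 (m + 1)) v := by
  intro i hmem
  have him : m - (i : ℕ) < m + 1 := by omega
  have hle : Submodule.span ℝ (v '' {k | k ≠ i}) ≤
      LinearMap.ker (LinearMap.proj (R := ℝ) (φ := fun _ : Fin (m + 1) => ℝ) ⟨m - i, him⟩) := by
    rw [Submodule.span_le]
    rintro x ⟨j, hj, rfl⟩
    rw [SetLike.mem_coe, LinearMap.mem_ker, LinearMap.proj_apply]
    have hne : ¬ (m - (i : ℕ) = m - (j : ℕ)) := by
      intro h
      apply hj
      apply Fin.ext
      have := i.isLt
      have := j.isLt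
      omega
    rcases hv j with h3 | h3
    · rw [h3]; simp [bb, hne]
    · rw [h3]; simp [bb, hne]
  have h2 := hle hmem
  rw [LinearMap.mem_ker, LinearMap.proj_apply] at h2
  simp [one1] at h2

/-- Only the all-positive simplex has `(1, …, 1)` in its open cone. -/
theorem phi_sh (m : ℕ) (v : Fin (m + 1) → Fin (m + 1) → ℝ) (hv : Sh (m + 1) m v)
    (hne : v ≠ be (m + 1) m) : phi (one1 (m + 1)) v = 0 := by
  classical
  rw [phi, if_neg]
  rintro ⟨c, hc, hp⟩
  apply hne
  funext i
  rcases hv i with h3 | h3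
  · exact h3
  · exfalso
    have him : m - (i : ℕ) < m + 1 := by omega
    have h1 := congrFun hp ⟨m - i, him⟩
    rw [Finset.sum_apply, Finset.sum_eq_single i] at h1
    · rw [Pi.smul_apply, h3] at h1
      simp [one1, bb] at h1
      have := hc i
      linarith
    · intro j _ hj
      have hne : ¬ (m - (i : ℕ) = m - (j : ℕ)) := by
        intro h
        apply hj
        apply Fin.ext
        have := i.isLt
        have := j.isLt
        omega
      rw [Pi.smul_apply]
      rcases hv j with h4 | h4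
      · rw [h4]; simp [bb, hne]
      · rw [h4]; simp [bb, hne]
    · intro h; exact absurd (Finset.mem_univ _) h

theorem det_be (m : ℕ) : (Matrix.of (be (m + 1) m)).det ≠ 0 := by
  have h1 : Matrix.of (be (m + 1) m) * (Matrix.of (be (m + 1) m))ᵀ = 1 := by
    ext i j
    rw [Matrix.mul_apply, Matrix.one_apply]
    have him : m - (i : ℕ) < m + 1 := by omega
    rw [Finset.sum_eq_single ⟨m - i, him⟩]
    · simp only [Matrix.of_apply, be, bb, Matrix.transpose_apply]
      have h2 : (m - (i : ℕ) = m - (j : ℕ)) ↔ i = j := by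
        constructor
        · intro h
          apply Fin.ext
          have := i.isLt
          have := j.isLt
          omega
        · rintro rfl; rfl
      simp [h2]
    · intro k _ hk
      have : ¬ ((k : ℕ) = m - (i : ℕ)) := by
        intro h
        apply hk
        exact Fin.ext h
      simp [be, bb, this]
    · intro h; exact absurd (Finset.mem_univ _) h
  intro h0
  have h2 := congrArg Matrix.det h1
  rw [Matrix.det_mul, h0, zero_mul, Matrix.det_one] at h2
  exact zero_ne_one h2

theorem phi_be (m : ℕ) : phi (one1 (m + 1)) (be (m + 1) m) = 1 ∨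
    phi (one1 (m + 1)) (be (m + 1) m) = -1 := by
  classical
  have hrep : one1 (m + 1) = ∑ j, (1 : ℝ) • be (m + 1) m j := by
    funext a
    rw [Finset.sum_apply]
    have ham : m - (a : ℕ) < m + 1 := by omega
    rw [Finset.sum_eq_single ⟨m - a, ham⟩]
    · have : (a : ℕ) = m - (m - (a : ℕ)) := by have := a.isLt; omega
      simp [one1, be, bb, ← this]
    · intro j _ hj
      have : ¬ ((a : ℕ) = m - (j : ℕ)) := by
        intro h
        apply hj
        apply Fin.ext
        have := j.isLt
        simp only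
        omega
      simp [be, bb, this]
    · intro h; exact absurd (Finset.mem_univ _) h
  rw [phi, if_pos ⟨fun _ => 1, fun _ => one_pos, hrep⟩]
  rcases lt_or_gt_of_ne (det_be m) with h | h
  · right; rw [sign_neg h]; rfl
  · left; rw [sign_pos h]; rfl

/-- The winding number of the cross-polytope is odd. -/
theorem wind_sphere (m : ℕ) (hm : 1 ≤ m) : Odd (wind (tl (m + 1) (m + 1) (sg (m + 1) m))) := by
  classical
  have hK : tl (m + 1) (m + 1) (sg (m + 1) m) ∈ KC (m + 1) (m + 1) :=
    tl_KC _ _ _ (sg_KC (Nat.lt_succ_self m))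
  have hb : bd m (tl (m + 1) (m + 1) (sg (m + 1) m)) = 0 := by
    obtain ⟨k, rfl⟩ : ∃ k, m = k + 1 := ⟨m - 1, by omega⟩
    rw [bd_tl, bd_sg, tl_tl]
  have hsh : ∀ v ∈ (tl (m + 1) (m + 1) (sg (m + 1) m)).support, Sh (m + 1) m v := by
    intro v hv
    rcases tl_supp _ _ _ _ hv with h | h
    · exact sh_neg (sg_supp _ _ h).1
    · exact (sg_supp _ _ h).1
  rw [wind_eq m _ hK hb (one1 (m + 1)) (fun v hv => one1_gen m v (hsh v hv)), windAt_apply,
    Finset.sum_eq_single (be (m + 1) m)]
  · have h1 : tl (m + 1) (m + 1) (sg (m + 1) m) (be (m + 1) m) =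
        (-1) ^ (m + 1) * sg (m + 1) m (be (m + 1) m) := by
      rw [tl_apply, Finsupp.add_apply, lm_neg_apply, sg_neg_be (Nat.lt_succ_self m), zero_add,
        Finsupp.smul_apply, smul_eq_mul]
    rw [h1]
    rcases sg_be (n := m + 1) (Nat.lt_succ_self m) with h | h <;>
      rcases phi_be m with h2 | h2 <;> rcases neg_one_pow_eq_or ℤ (m + 1) with h3 | h3 <;>
      rw [h, h2, h3] <;> decide
  · intro v hv hne
    rw [phi_sh m v (hsh v hv) hne, mul_zero]
  · intro h
    rw [Finsupp.notMem_support_iff] at h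
    rw [h, zero_mul]

end sphere

section euler

variable {G : Type} [Group G]

/-- If the element `z` with `z^2 = 1` acts by `-1` on `ℝ^n`, `n` even, then the obstruction
cocycle takes an odd value on the `z`-chain. -/
theorem odd_eCo {m : ℕ} (hm : Odd m) (ρ : G →* Matrix (Fin (m + 1)) (Fin (m + 1)) ℝ)
    (hρ : ∀ g, 0 < (ρ g).det) {F : (k : ℕ) → T G k →ₗ[ℤ] T (Fin (m + 1) → ℝ) k} (hF : Adm ρ F)
    (z : G) (hz2 : z * z = 1) (hz : ρ z = -1) : Odd (hom (m + 1) (eCo F) (cz z (m + 1))) := by
  have hm1 : 1 ≤ m := hm.pos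
  have heven : Even (m + 1) := hm.add_one
  rw [hom_eCo hρ hF, bd_cz z hz2]
  -- the images of the chains of `z`
  let s : ∀ k, T (Fin (m + 1) → ℝ) (k + 1) := fun k => F (k + 1) (cz z k)
  have hFtt : ∀ k j, j ≤ m + 1 → ∀ x, F j (tt z k j x) = tl k j (F j x) := by
    intro k j hj x
    rw [tt_apply, map_add, map_smul, hF.equi j hj, hz, tl_apply]
  have hsbd : ∀ k, k + 1 ≤ m → bd (k + 1) (s (k + 1)) = tl (k + 1) (k + 1) (s k) := by
    intro k hk
    change bd (k + 1) (F (k + 1 + 1) (cz z (k + 1))) = _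
    rw [hF.bdF (k + 1) (by omega), bd_cz z hz2, hFtt _ _ (by omega)]
  have hs0 : bd 0 (s 0) = Finsupp.single default 1 := by
    change bd 0 (F (0 + 1) (cz z 0)) = _
    rw [hF.bdF 0 (by omega), bd_cz_zero, hF.aug]
  obtain ⟨ζ, hζK, hζb, hζ⟩ := compare m (fun k => s k - sg (m + 1) k)
    (fun k hk => Submodule.sub_mem _ (hF.off _ (by omega) _) (sg_KC (by omega)))
    (by rw [map_sub, hs0, bd_sg_zero, sub_self])
    (fun k hk => by rw [map_sub, hsbd k hk, bd_sg, map_sub])
  have h1 : F (m + 1) (tt z (m + 1) (m + 1) (cz z m)) =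
      tl (m + 1) (m + 1) (sg (m + 1) m) + tl (m + 1) (m + 1) ζ := by
    rw [hFtt _ _ le_rfl, ← hζ, map_sub]
    change tl (m + 1) (m + 1) (s m) = _
    abel
  have hK : tl (m + 1) (m + 1) (sg (m + 1) m) ∈ KC (m + 1) (m + 1) :=
    tl_KC _ _ _ (sg_KC (Nat.lt_succ_self m))
  have hb : bd m (tl (m + 1) (m + 1) (sg (m + 1) m)) = 0 := by
    obtain ⟨k, rfl⟩ : ∃ k, m = k + 1 := ⟨m - 1, by omega⟩
    rw [bd_tl, bd_sg, tl_tl]
  have hdet : 0 < (-1 : Matrix (Fin (m + 1)) (Fin (m + 1)) ℝ).det := by
    rw [Matrix.det_neg, Matrix.det_one, Fintype.card_fin, heven.neg_one_pow]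
    norm_num
  have h2 : wind (tl (m + 1) (m + 1) ζ) = 2 * wind ζ := by
    rw [tl_apply, heven.neg_one_pow, one_smul,
      wind_add m _ _ (lm_KC _ hdet.ne' _ hζK) hζK (by rw [bd_lm, hζb, map_zero]) hζb,
      wind_lm m _ hdet ζ hζK hζb]
    ring
  rw [h1, wind_add m _ _ hK (tl_KC _ _ _ hζK) hb (by rw [bd_tl, hζb, map_zero]), h2]
  exact (wind_sphere m hm1).add_even (even_two_mul _)

end euler

end Pool.Agent.HL
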