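import Pool.Agent.Lib_helper43.HL.Grp
import Pool.Agent.Lib_helper43.HL.Comb

/-!
Part D: the element of order `l = 2μ + 1` of `Sp_{2μ}(ℤ)` and its orbit of vectors.
-/

namespace Pool.Agent.HL

open Matrix

section sp0

variable (μ : ℕ)

/-- Upper right block. -/
def bB : Matrix (Fin μ) (Fin μ) ℤ := Matrix.of fun i k => if i ≤ k then -1 else 0

/-- Lower left block. -/
def bC : Matrix (Fin μ) (Fin μ) ℤ := Matrix.of fun r i =>
  (if r = i then 1 else 0) - (if (r : ℕ) = i + 1 then 1 else 0)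

/-- Lower right block. -/
def bD : Matrix (Fin μ) (Fin μ) ℤ := Matrix.of fun r _ => if (r : ℕ) = 0 then -1 else 0

theorem bD_symm : (bB μ)ᵀ * bD μ = (bD μ)ᵀ * bB μ := by
  ext k k'
  rw [Matrix.mul_apply, Matrix.mul_apply]
  refine Finset.sum_congr rfl fun i _ => ?_
  simp only [Matrix.transpose_apply, bB, bD, Matrix.of_apply]
  by_cases h : (i : ℕ) = 0
  · have h1 : i ≤ k := by rw [Fin.le_def]; omega
    have h2 : i ≤ k' := by rw [Fin.le_def]; omega
    simp [h, h1, h2]
  · simp [h]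

theorem bC_bB : (bC μ)ᵀ * bB μ = -1 := by
  ext i k
  rw [Matrix.mul_apply]
  simp only [Matrix.transpose_apply, bB, bC, Matrix.of_apply, sub_mul, Finset.sum_sub_distrib,
    ite_mul, one_mul, zero_mul, Matrix.neg_apply, Matrix.one_apply]
  rw [Finset.sum_ite_eq' Finset.univ i]
  simp only [Finset.mem_univ, if_true]
  have h2 : (∑ x : Fin μ, if (x : ℕ) = i + 1 then (if x ≤ k then (-1 : ℤ) else 0) else 0) =
      if (i : ℕ) + 1 ≤ k then -1 else 0 := by
    by_cases hi : (i : ℕ) + 1 < μ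
    · rw [Finset.sum_eq_single ⟨i + 1, hi⟩]
      · simp [Fin.le_def]
      · intro b _ hb
        rw [if_neg]
        intro h
        exact hb (Fin.ext h)
      · intro h; exact absurd (Finset.mem_univ _) h
    · rw [Finset.sum_eq_zero]
      · rw [if_neg]
        have := k.isLt
        omega
      · intro x _
        rw [if_neg]
        have := x.isLt
        omega
  rw [h2]
  by_cases h : i = k
  · subst h
    simp
  · by_cases h3 : i ≤ k
    · have : (i : ℕ) + 1 ≤ k := by
        rw [Fin.le_def] at h3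
        have : (i : ℕ) ≠ k := fun h' => h (Fin.ext h')
        omega
      simp [h, h3, this]
    · have : ¬ (i : ℕ) + 1 ≤ k := by
        rw [Fin.le_def] at h3
        omega
      simp [h, h3, this]

/-- The element of order `2μ + 1`. -/
def u0 : Spl (Fin μ) :=
  ⟨fromBlocks 0 (bB μ) (bC μ) (bD μ), by
    rw [SymplecticGroup.fromBlocks_mem_iff]
    refine ⟨by simp, bD_symm μ, ?_⟩
    rw [bC_bB]
    simp⟩

variable {μ} {l : ℕ} [NeZero l]

/-- The vectors `w_c`. -/
def wv (μ : ℕ) {l : ℕ} (c : ZMod l) : Fin μ ⊕ Fin μ → ℤ :=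
  Sum.elim
    (fun i => (if c.val = 2 * (i : ℕ) then 1 else 0) - (if c.val = 2 * μ then 1 else 0))
    (fun i => (if c.val = 2 * (i : ℕ) + 1 then 1 else 0) -
      (if c.val + 1 = 2 * (i : ℕ) then 1 else 0) -
      (if (i : ℕ) = 0 ∧ c.val = 2 * μ then 1 else 0))

theorem u0_mulVec_inl (v : Fin μ ⊕ Fin μ → ℤ) (i : Fin μ) :
    ((u0 μ : Matrix (Fin μ ⊕ Fin μ) (Fin μ ⊕ Fin μ) ℤ) *ᵥ v) (Sum.inl i) =
      - ∑ k : Fin μ, if i ≤ k then v (Sum.inr k) else 0 := by
  simp only [u0, Matrix.mulVec, dotProduct, Fintype.sum_sum_type, fromBlocks_apply₁₁,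
    fromBlocks_apply₁₂, Matrix.zero_apply, zero_mul, Finset.sum_const_zero, zero_add, bB,
    Matrix.of_apply, ite_mul, neg_mul, one_mul]
  rw [← Finset.sum_neg_distrib]
  refine Finset.sum_congr rfl fun k _ => ?_
  split_ifs <;> simp

theorem u0_mulVec_inr (v : Fin μ ⊕ Fin μ → ℤ) (r : Fin μ) :
    ((u0 μ : Matrix (Fin μ ⊕ Fin μ) (Fin μ ⊕ Fin μ) ℤ) *ᵥ v) (Sum.inr r) =
      v (Sum.inl r) - (∑ i : Fin μ, if (r : ℕ) = i + 1 then v (Sum.inl i) else 0) -
        (if (r : ℕ) = 0 then ∑ k : Fin μ, v (Sum.inr k) else 0) := by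
  simp only [u0, Matrix.mulVec, dotProduct, Fintype.sum_sum_type, fromBlocks_apply₂₁,
    fromBlocks_apply₂₂, bC, bD, Matrix.of_apply, sub_mul, ite_mul, neg_mul, one_mul, zero_mul,
    Finset.sum_sub_distrib]
  rw [Finset.sum_ite_eq Finset.univ r]
  simp only [Finset.mem_univ, if_true]
  by_cases h : (r : ℕ) = 0
  · simp only [h, if_true, Finset.sum_neg_distrib]
    ring
  · simp only [h, if_false, Finset.sum_const_zero]
    ring

/-- Sums over `Fin μ` of a function supported at one index given by its value. -/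
theorem sum_val {A : Type*} [AddCommMonoid A] (a : ℕ) (x : A) (P : Fin μ → Prop)
    [DecidablePred P] (hP : ∀ k : Fin μ, P k ↔ (k : ℕ) = a) :
    (∑ k : Fin μ, if P k then x else 0) = if a < μ then x else 0 := by
  by_cases h : a < μ
  · rw [if_pos h, Finset.sum_eq_single ⟨a, h⟩]
    · rw [if_pos ((hP _).mpr rfl)]
    · intro b _ hb
      rw [if_neg]
      intro h'
      exact hb (Fin.ext ((hP b).mp h'))
    · intro h'; exact absurd (Finset.mem_univ _) h'
  · rw [if_neg h]
    refine Finset.sum_eq_zero fun k _ => if_neg fun h' => h ?_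
    have := (hP k).mp h'
    have := k.isLt
    omega

end sp0

end Pool.Agent.HL
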