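import Pool.Agent.Lib_helper43.HL.Sp0

/-!
Part D: `u0` shifts the vectors `w_c`.
-/

namespace Pool.Agent.HL

open Matrix

section sp1

variable {μ : ℕ}

theorem sum_one (a : ℕ) (Q : Fin μ → Prop) [DecidablePred Q] (h : ∀ k : Fin μ, Q k → (k : ℕ) = a)
    (R : Prop) [Decidable R] (hR : R ↔ ∃ k : Fin μ, (k : ℕ) = a ∧ Q k) :
    (∑ k : Fin μ, if Q k then (1 : ℤ) else 0) = if R then 1 else 0 := by
  by_cases hr : R
  · rw [if_pos hr]
    obtain ⟨k, hk, hq⟩ := hR.mp hr
    rw [Finset.sum_eq_single k]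
    · rw [if_pos hq]
    · intro b _ hb
      rw [if_neg]
      intro h'
      exact hb (Fin.ext ((h b h').trans hk.symm))
    · intro h'; exact absurd (Finset.mem_univ _) h'
  · rw [if_neg hr]
    refine Finset.sum_eq_zero fun k _ => if_neg fun h' => hr (hR.mpr ⟨k, h k h', h'⟩)

variable {l : ℕ} [NeZero l]

theorem sum_inr_ge (v : ℕ) (i : Fin μ) (hv : v ≤ 2 * μ) :
    (∑ k : Fin μ, if i ≤ k then (((if v = 2 * (k : ℕ) + 1 then 1 else 0) -
      (if v + 1 = 2 * (k : ℕ) then 1 else 0) -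
      (if (k : ℕ) = 0 ∧ v = 2 * μ then 1 else 0) : ℤ)) else 0) =
    (if v % 2 = 1 ∧ (i : ℕ) ≤ (v - 1) / 2 then 1 else 0) -
      (if v % 2 = 1 ∧ (i : ℕ) ≤ (v + 1) / 2 ∧ (v + 1) / 2 < μ then 1 else 0) -
      (if (i : ℕ) = 0 ∧ v = 2 * μ then 1 else 0) := by
  have hi := i.isLt
  have h1 : ∀ k : Fin μ, (if i ≤ k then (((if v = 2 * (k : ℕ) + 1 then 1 else 0) -
      (if v + 1 = 2 * (k : ℕ) then 1 else 0) -
      (if (k : ℕ) = 0 ∧ v = 2 * μ then 1 else 0) : ℤ)) else 0) =
      (if (i ≤ k ∧ v = 2 * (k : ℕ) + 1) then 1 else 0) -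
      (if (i ≤ k ∧ v + 1 = 2 * (k : ℕ)) then 1 else 0) -
      (if (i ≤ k ∧ (k : ℕ) = 0 ∧ v = 2 * μ) then 1 else 0) := by
    intro k
    by_cases hik : i ≤ k <;> simp [hik]
  simp only [h1, Finset.sum_sub_distrib]
  congr 1
  · congr 1
    · refine sum_one ((v - 1) / 2) _ (fun k hk => by omega) _ ?_
      constructor
      · rintro ⟨h2, h3⟩
        refine ⟨⟨(v - 1) / 2, by omega⟩, rfl, ?_, ?_⟩
        · rw [Fin.le_def]; exact h3
        · simp only; omega
      · rintro ⟨k, hk, h2, h3⟩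
        rw [Fin.le_def] at h2
        omega
    · refine sum_one ((v + 1) / 2) _ (fun k hk => by omega) _ ?_
      constructor
      · rintro ⟨h2, h3, h4⟩
        refine ⟨⟨(v + 1) / 2, h4⟩, rfl, ?_, ?_⟩
        · rw [Fin.le_def]; exact h3
        · simp only; omega
      · rintro ⟨k, hk, h2, h3⟩
        rw [Fin.le_def] at h2
        have := k.isLt
        omega
  · refine sum_one 0 _ (fun k hk => hk.2.1) _ ?_
    constructor
    · rintro ⟨h2, h3⟩
      exact ⟨i, h2, le_rfl, h2, h3⟩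
    · rintro ⟨k, hk, h2, h3, h4⟩
      rw [Fin.le_def] at h2
      omega

theorem val_cases (hl : l = 2 * μ + 1) (c : ZMod l) :
    (c.val < 2 * μ ∧ (c + 1).val = c.val + 1) ∨ (c.val = 2 * μ ∧ (c + 1).val = 0) := by
  have h1 := ZMod.val_lt c
  by_cases h : c + 1 = 0
  · right
    refine ⟨?_, by rw [h, ZMod.val_zero]⟩
    by_contra hne
    have h2 : (((c.val + 1 : ℕ)) : ZMod l) = 0 := by push_cast; rw [ZMod.natCast_zmod_val, h]
    have h3 := (ZMod.natCast_eq_zero_iff (c.val + 1) l).mp h2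
    have h4 := Nat.le_of_dvd (by omega) h3
    omega
  · left
    have h2 := val_add_one_lt h
    exact ⟨by omega, val_succ h⟩

theorem aux1 (v μ : ℕ) (hμ : 0 < μ) (h2 : v < 2 * μ) :
    ((if v = 2 * 0 then 1 else 0) - (if v = 2 * μ then 1 else 0) -
      ((if v + 2 = 2 * 0 then 1 else 0) - (if 0 < 0 ∧ v = 2 * μ then 1 else 0)) -
      ((if v % 2 = 1 then 1 else 0) - (if v % 2 = 1 ∧ (v + 1) / 2 < μ then 1 else 0) -
          (if v = 2 * μ then 1 else 0)) : ℤ) =
      (if v + 1 = 2 * 0 + 1 then 1 else 0) - (if v + 1 + 1 = 2 * 0 then 1 else 0) -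
      (if 0 = 0 ∧ v + 1 = 2 * μ then 1 else 0) := by
  split_ifs <;> first | contradiction | omega

theorem aux2 (v μ : ℕ) (hμ : 0 < μ) (h2 : v = 2 * μ) :
    ((if v = 2 * 0 then 1 else 0) - (if v = 2 * μ then 1 else 0) -
      ((if v + 2 = 2 * 0 then 1 else 0) - (if 0 < 0 ∧ v = 2 * μ then 1 else 0)) -
      ((if v % 2 = 1 then 1 else 0) - (if v % 2 = 1 ∧ (v + 1) / 2 < μ then 1 else 0) -
          (if v = 2 * μ then 1 else 0)) : ℤ) =
      (if 0 = 2 * 0 + 1 then 1 else 0) - (if 0 + 1 = 2 * 0 then 1 else 0) -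
      (if 0 = 0 ∧ 0 = 2 * μ then 1 else 0) := by
  split_ifs <;> first | contradiction | omega

theorem aux3 (v μ r : ℕ) (hr : r < μ) (hr0 : r ≠ 0) (h2 : v < 2 * μ) :
    ((if v = 2 * r then 1 else 0) - (if v = 2 * μ then 1 else 0) -
      ((if v + 2 = 2 * r then 1 else 0) - (if 0 < r ∧ v = 2 * μ then 1 else 0)) - 0 : ℤ) =
      (if v + 1 = 2 * r + 1 then 1 else 0) - (if v + 1 + 1 = 2 * r then 1 else 0) -
      (if r = 0 ∧ v + 1 = 2 * μ then 1 else 0) := by
  split_ifs <;> first | contradiction | omega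

theorem aux4 (v μ r : ℕ) (hr : r < μ) (hr0 : r ≠ 0) (h2 : v = 2 * μ) :
    ((if v = 2 * r then 1 else 0) - (if v = 2 * μ then 1 else 0) -
      ((if v + 2 = 2 * r then 1 else 0) - (if 0 < r ∧ v = 2 * μ then 1 else 0)) - 0 : ℤ) =
      (if 0 = 2 * r + 1 then 1 else 0) - (if 0 + 1 = 2 * r then 1 else 0) -
      (if r = 0 ∧ 0 = 2 * μ then 1 else 0) := by
  split_ifs <;> first | contradiction | omega

/-- `u0` shifts the vectors `w_c`. -/
theorem u0_wv (hl : l = 2 * μ + 1) (c : ZMod l) :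
    ((u0 μ : Matrix (Fin μ ⊕ Fin μ) (Fin μ ⊕ Fin μ) ℤ) *ᵥ wv μ c) = wv μ (c + 1) := by
  have hc := val_cases hl c
  have hcl : c.val ≤ 2 * μ := by have := ZMod.val_lt c; omega
  funext x
  rcases x with i | r
  · rw [u0_mulVec_inl]
    have hi := i.isLt
    have h1 := sum_inr_ge c.val i hcl
    simp only [wv, Sum.elim_inr, Sum.elim_inl]
    rw [h1]
    rcases hc with ⟨h2, h3⟩ | ⟨h2, h3⟩
    · rw [h3]
      split_ifs <;> first | contradiction | omega
    · rw [h3, h2]
      split_ifs <;> first | contradiction | omega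
  · rw [u0_mulVec_inr]
    have hr := r.isLt
    have h1 : (∑ k : Fin μ, wv μ c (Sum.inr k)) =
        (if c.val % 2 = 1 then 1 else 0) - (if c.val % 2 = 1 ∧ (c.val + 1) / 2 < μ then 1 else 0) -
          (if c.val = 2 * μ then 1 else 0) := by
      have h2 := sum_inr_ge c.val (⟨0, by omega⟩ : Fin μ) hcl
      have h3 : (∑ k : Fin μ, wv μ c (Sum.inr k)) =
        (∑ k : Fin μ, if (⟨0, by omega⟩ : Fin μ) ≤ k then
          (((if c.val = 2 * (k : ℕ) + 1 then 1 else 0) -
          (if c.val + 1 = 2 * (k : ℕ) then 1 else 0) -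
          (if (k : ℕ) = 0 ∧ c.val = 2 * μ then 1 else 0) : ℤ)) else 0) := by
        refine Finset.sum_congr rfl fun k _ => ?_
        rw [if_pos (by rw [Fin.le_def]; exact Nat.zero_le _)]
        rfl
      rw [h3, h2]
      simp
    have h4 : (∑ i : Fin μ, if (r : ℕ) = i + 1 then wv μ c (Sum.inl i) else 0) =
        (if c.val + 2 = 2 * (r : ℕ) then 1 else 0) -
          (if 0 < (r : ℕ) ∧ c.val = 2 * μ then 1 else 0) := by
      by_cases hr0 : (r : ℕ) = 0
      · rw [Finset.sum_eq_zero]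
        · rw [if_neg (by omega), if_neg (by omega), sub_zero]
        · intro i _
          rw [if_neg (by omega)]
      · rw [Finset.sum_eq_single (⟨(r : ℕ) - 1, by omega⟩ : Fin μ)]
        · rw [if_pos (by simp only; omega)]
          simp only [wv, Sum.elim_inl]
          split_ifs <;> first | contradiction | omega
        · intro b _ hb
          rw [if_neg]
          intro h
          apply hb
          apply Fin.ext
          simp only
          omega
        · intro h; exact absurd (Finset.mem_univ _) h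
    rw [h1, h4]
    simp only [wv, Sum.elim_inr, Sum.elim_inl]
    by_cases hr0 : (r : ℕ) = 0
    · rw [if_pos hr0]
      rcases hc with ⟨h2, h3⟩ | ⟨h2, h3⟩
      · rw [h3, hr0]
        exact aux1 _ _ (by omega) h2
      · rw [h3, hr0]
        exact aux2 _ _ (by omega) h2
    · rw [if_neg hr0]
      rcases hc with ⟨h2, h3⟩ | ⟨h2, h3⟩
      · rw [h3]
        exact aux3 _ _ _ hr (by omega) h2
      · rw [h3]
        exact aux4 _ _ _ hr (by omega) h2

end sp1

end Pool.Agent.HL
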