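import Pool.Agent.Lib_helper43.HL.Sp1

/-!
Part D: `u0` has order dividing `l`; block diagonal and permuted symplectic matrices.
-/

namespace Pool.Agent.HL

open Matrix

section u0ord

variable {μ : ℕ} {l : ℕ} [NeZero l]

theorem u0_pow_wv (hl : l = 2 * μ + 1) (k : ℕ) (c : ZMod l) :
    (((u0 μ) ^ k : Spl (Fin μ)) : Matrix (Fin μ ⊕ Fin μ) (Fin μ ⊕ Fin μ) ℤ) *ᵥ wv μ c =
      wv μ (c + (k : ZMod l)) := by
  induction k with
  | zero => simp
  | succ k ih =>
    rw [pow_succ', Submonoid.coe_mul, ← Matrix.mulVec_mulVec, ih, u0_wv hl]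
    congr 1
    push_cast
    ring

/-- The basis vectors `e_i` are vectors `w_c`. -/
theorem single_inl (hl : l = 2 * μ + 1) (i : Fin μ) :
    (Pi.single (Sum.inl i) 1 : Fin μ ⊕ Fin μ → ℤ) = wv μ (((2 * (i : ℕ) : ℕ)) : ZMod l) := by
  have hi := i.isLt
  have hv : (((2 * (i : ℕ) : ℕ)) : ZMod l).val = 2 * i := ZMod.val_cast_of_lt (by omega)
  funext x
  rcases x with j | j
  · simp only [wv, Sum.elim_inl, hv]
    by_cases h : j = i
    · subst h
      rw [Pi.single_eq_same, if_pos rfl, if_neg (by omega)]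
      rfl
    · rw [Pi.single_eq_of_ne (by simpa using h), if_neg, if_neg (by omega)]
      · rfl
      · intro h'
        apply h
        apply Fin.ext
        omega
  · simp only [wv, Sum.elim_inr, hv]
    rw [Pi.single_eq_of_ne (by simp), if_neg (by omega), if_neg (by omega), if_neg (by omega)]
    rfl

/-- The basis vectors `f_k` are sums of vectors `w_c`. -/
theorem single_inr (hl : l = 2 * μ + 1) (k : Fin μ) :
    (Pi.single (Sum.inr k) 1 : Fin μ ⊕ Fin μ → ℤ) =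
      ∑ j : Fin μ, if k ≤ j then wv μ (((2 * (j : ℕ) + 1 : ℕ)) : ZMod l) else 0 := by
  have hv : ∀ j : Fin μ, (((2 * (j : ℕ) + 1 : ℕ)) : ZMod l).val = 2 * j + 1 := fun j =>
    ZMod.val_cast_of_lt (by have := j.isLt; omega)
  funext x
  rw [Finset.sum_apply]
  rcases x with i | i
  · rw [Pi.single_eq_of_ne (by simp), Finset.sum_eq_zero]
    intro j _
    have hj := j.isLt
    split_ifs
    · simp only [wv, Sum.elim_inl, hv]
      rw [if_neg (by omega), if_neg (by omega)]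
      rfl
    · rfl
  · have h1 : ∀ j : Fin μ, (if k ≤ j then wv μ (((2 * (j : ℕ) + 1 : ℕ)) : ZMod l) else 0)
        (Sum.inr i) = (if k ≤ j ∧ j = i then 1 else 0) - (if k ≤ j ∧ (j : ℕ) + 1 = i then 1 else 0) := by
      intro j
      have hj := j.isLt
      by_cases hk : k ≤ j
      · simp only [hk, if_true, true_and, wv, Sum.elim_inr, hv]
        have e1 : (2 * (j : ℕ) + 1 = 2 * (i : ℕ) + 1) ↔ j = i := by
          constructor
          · intro h; exact Fin.ext (by omega)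
          · rintro rfl; rfl
        have e2 : (2 * (j : ℕ) + 1 + 1 = 2 * (i : ℕ)) ↔ (j : ℕ) + 1 = i := by omega
        have e3 : ¬ ((i : ℕ) = 0 ∧ 2 * (j : ℕ) + 1 = 2 * μ) := by omega
        simp only [e1, e2, e3, if_false, sub_zero]
      · simp [hk]
    simp only [h1, Finset.sum_sub_distrib]
    have hi := i.isLt
    rw [sum_one (i : ℕ) (fun j : Fin μ => k ≤ j ∧ j = i) (fun j hj => by rw [hj.2]) (k ≤ i) (by
        constructor
        · intro h; exact ⟨i, rfl, h, rfl⟩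
        · rintro ⟨j, _, h, rfl⟩; exact h),
      sum_one ((i : ℕ) - 1) (fun j : Fin μ => k ≤ j ∧ (j : ℕ) + 1 = i) (fun j hj => by omega)
        ((k : ℕ) + 1 ≤ i) (by
        constructor
        · intro h
          refine ⟨⟨(i : ℕ) - 1, by omega⟩, rfl, ?_, ?_⟩
          · rw [Fin.le_def]; simp only; omega
          · simp only; omega
        · rintro ⟨j, _, h, h'⟩
          rw [Fin.le_def] at h
          omega)]
    by_cases h : i = k
    · subst h
      rw [Pi.single_eq_same]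
      simp
    · rw [Pi.single_eq_of_ne (by simpa using h)]
      have hne : (i : ℕ) ≠ k := fun h' => h (Fin.ext h')
      by_cases hki : k ≤ i
      · have : (k : ℕ) + 1 ≤ i := by rw [Fin.le_def] at hki; omega
        simp [hki, this]
      · have : ¬ (k : ℕ) + 1 ≤ i := by rw [Fin.le_def] at hki; omega
        simp [hki, this]

theorem u0_pow_l (hl : l = 2 * μ + 1) : (u0 μ) ^ l = 1 := by
  apply Subtype.ext
  set A : Matrix (Fin μ ⊕ Fin μ) (Fin μ ⊕ Fin μ) ℤ := (((u0 μ) ^ l : Spl (Fin μ)) :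
    Matrix (Fin μ ⊕ Fin μ) (Fin μ ⊕ Fin μ) ℤ) with hA
  have hw : ∀ c : ZMod l, A *ᵥ wv μ c = wv μ c := by
    intro c
    rw [hA, u0_pow_wv hl]
    congr 1
    simp
  have hbasis : ∀ x, A *ᵥ (Pi.single x 1) = Pi.single x 1 := by
    intro x
    rcases x with i | k
    · rw [single_inl hl i, hw]
    · rw [single_inr hl k, Matrix.mulVec_sum]
      refine Finset.sum_congr rfl fun j _ => ?_
      split_ifs
      · exact hw _
      · exact Matrix.mulVec_zero _
  rw [Submonoid.coe_one]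
  ext a b
  have := congrFun (hbasis b) a
  rw [Matrix.mulVec_single_one] at this
  rw [Matrix.col_apply] at this
  rw [this, Matrix.one_apply, Pi.single_apply]

end u0ord

section blocks

variable {μ : ℕ} {o : Type*} [Fintype o] [DecidableEq o]

/-- The block diagonal symplectic matrix. -/
def DD (A : o → Spl (Fin μ)) : Spl (Fin μ × o) :=
  ⟨fromBlocks
    (blockDiagonal fun j => ((A j : Matrix (Fin μ ⊕ Fin μ) (Fin μ ⊕ Fin μ) ℤ)).toBlocks₁₁)
    (blockDiagonal fun j => ((A j : Matrix (Fin μ ⊕ Fin μ) (Fin μ ⊕ Fin μ) ℤ)).toBlocks₁₂)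
    (blockDiagonal fun j => ((A j : Matrix (Fin μ ⊕ Fin μ) (Fin μ ⊕ Fin μ) ℤ)).toBlocks₂₁)
    (blockDiagonal fun j => ((A j : Matrix (Fin μ ⊕ Fin μ) (Fin μ ⊕ Fin μ) ℤ)).toBlocks₂₂), by
    have h : ∀ j, _ := fun j => SymplecticGroup.fromBlocks_mem_iff.mp
      ((fromBlocks_toBlocks (A j : Matrix (Fin μ ⊕ Fin μ) (Fin μ ⊕ Fin μ) ℤ)).symm ▸ (A j).2)
    rw [SymplecticGroup.fromBlocks_mem_iff]
    simp only [blockDiagonal_transpose, ← blockDiagonal_mul, ← blockDiagonal_sub]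
    refine ⟨?_, ?_, ?_⟩
    · congr 1; funext j; exact (h j).1
    · congr 1; funext j; exact (h j).2.1
    · rw [← blockDiagonal_one]
      congr 1; funext j; exact (h j).2.2⟩

/-- A vector placed in the block `j`. -/
def blk (j : o) (w : Fin μ ⊕ Fin μ → ℤ) : (Fin μ × o) ⊕ (Fin μ × o) → ℤ :=
  Sum.elim (fun x => if x.2 = j then w (Sum.inl x.1) else 0)
    (fun x => if x.2 = j then w (Sum.inr x.1) else 0)

theorem blockDiagonal_mulVec_blk (B : o → Matrix (Fin μ) (Fin μ) ℤ) (j : o) (v : Fin μ → ℤ) :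
    (blockDiagonal B) *ᵥ (fun x : Fin μ × o => if x.2 = j then v x.1 else 0) =
      fun x => if x.2 = j then (B j *ᵥ v) x.1 else 0 := by
  funext x
  obtain ⟨a, j'⟩ := x
  simp only [Matrix.mulVec, dotProduct, Fintype.sum_prod_type, blockDiagonal_apply]
  by_cases h : j' = j
  · subst h
    rw [if_pos rfl]
    refine Finset.sum_congr rfl fun b _ => ?_
    rw [Finset.sum_eq_single j']
    · simp
    · intro c _ hc
      simp [hc]
    · intro h; exact absurd (Finset.mem_univ _) h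
  · rw [if_neg h]
    refine Finset.sum_eq_zero fun b _ => Finset.sum_eq_zero fun c _ => ?_
    by_cases hc : c = j
    · subst hc
      simp [h]
    · simp [hc]

theorem DD_blk (A : o → Spl (Fin μ)) (j : o) (w : Fin μ ⊕ Fin μ → ℤ) :
    ((DD A : Spl (Fin μ × o)) : Matrix _ _ ℤ) *ᵥ blk j w =
      blk j ((A j : Matrix (Fin μ ⊕ Fin μ) (Fin μ ⊕ Fin μ) ℤ) *ᵥ w) := by
  have hA : (A j : Matrix (Fin μ ⊕ Fin μ) (Fin μ ⊕ Fin μ) ℤ) *ᵥ w =
      Sum.elim
        ((A j : Matrix (Fin μ ⊕ Fin μ) (Fin μ ⊕ Fin μ) ℤ).toBlocks₁₁ *ᵥ (fun i => w (Sum.inl i)) +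
          (A j : Matrix (Fin μ ⊕ Fin μ) (Fin μ ⊕ Fin μ) ℤ).toBlocks₁₂ *ᵥ (fun i => w (Sum.inr i)))
        ((A j : Matrix (Fin μ ⊕ Fin μ) (Fin μ ⊕ Fin μ) ℤ).toBlocks₂₁ *ᵥ (fun i => w (Sum.inl i)) +
          (A j : Matrix (Fin μ ⊕ Fin μ) (Fin μ ⊕ Fin μ) ℤ).toBlocks₂₂ *ᵥ (fun i => w (Sum.inr i))) := by
    conv_lhs => rw [← fromBlocks_toBlocks (A j : Matrix (Fin μ ⊕ Fin μ) (Fin μ ⊕ Fin μ) ℤ)]
    exact fromBlocks_mulVec _ _ _ _ _
  rw [hA]
  have h1 : blk j w = Sum.elim (fun x : Fin μ × o => if x.2 = j then (fun i => w (Sum.inl i)) x.1 else 0)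
    (fun x => if x.2 = j then (fun i => w (Sum.inr i)) x.1 else 0) := rfl
  rw [h1]
  refine (fromBlocks_mulVec _ _ _ _ _).trans ?_
  have c1 : ∀ (f g : Fin μ × o → ℤ), Sum.elim f g ∘ Sum.inl = f := fun f g => rfl
  have c2 : ∀ (f g : Fin μ × o → ℤ), Sum.elim f g ∘ Sum.inr = g := fun f g => rfl
  rw [c1, c2]
  have b11 := blockDiagonal_mulVec_blk (fun j => ((A j : Matrix (Fin μ ⊕ Fin μ) (Fin μ ⊕ Fin μ) ℤ)).toBlocks₁₁)
    j (fun i => w (Sum.inl i))
  have b12 := blockDiagonal_mulVec_blk (fun j => ((A j : Matrix (Fin μ ⊕ Fin μ) (Fin μ ⊕ Fin μ) ℤ)).toBlocks₁₂)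
    j (fun i => w (Sum.inr i))
  have b21 := blockDiagonal_mulVec_blk (fun j => ((A j : Matrix (Fin μ ⊕ Fin μ) (Fin μ ⊕ Fin μ) ℤ)).toBlocks₂₁)
    j (fun i => w (Sum.inl i))
  have b22 := blockDiagonal_mulVec_blk (fun j => ((A j : Matrix (Fin μ ⊕ Fin μ) (Fin μ ⊕ Fin μ) ℤ)).toBlocks₂₂)
    j (fun i => w (Sum.inr i))
  refine (congrArg₂ Sum.elim (congrArg₂ (· + ·) b11 b12) (congrArg₂ (· + ·) b21 b22)).trans ?_
  funext x
  rcases x with x | x
  · simp only [Sum.elim_inl, Pi.add_apply, blk]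
    split_ifs <;> simp
  · simp only [Sum.elim_inr, Pi.add_apply, blk]
    split_ifs <;> simp

theorem pm_blk (π : Equiv.Perm o) (j : o) (w : Fin μ ⊕ Fin μ → ℤ) :
    ((pm ((Equiv.refl (Fin μ)).prodCongr π) : Spl (Fin μ × o)) : Matrix _ _ ℤ) *ᵥ blk (π j) w =
      blk j w := by
  have h0 : ∀ v : Fin μ × o → ℤ,
      (Equiv.Perm.permMatrix ℤ ((Equiv.refl (Fin μ)).prodCongr π : Equiv.Perm (Fin μ × o))) *ᵥ v =
      fun x => v (x.1, π x.2) := by
    intro v
    rw [Matrix.permMatrix_mulVec]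
    rfl
  have h1 : blk (π j) w = Sum.elim (fun x : Fin μ × o => if x.2 = π j then w (Sum.inl x.1) else 0)
    (fun x => if x.2 = π j then w (Sum.inr x.1) else 0) := rfl
  rw [h1]
  refine (fromBlocks_mulVec _ _ _ _ _).trans ?_
  have c1 : ∀ (f g : Fin μ × o → ℤ), Sum.elim f g ∘ Sum.inl = f := fun f g => rfl
  have c2 : ∀ (f g : Fin μ × o → ℤ), Sum.elim f g ∘ Sum.inr = g := fun f g => rfl
  rw [c1, c2]
  simp only [h0, Matrix.zero_mulVec, add_zero, zero_add]
  funext x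
  rcases x with x | x
  · simp only [Sum.elim_inl, blk, π.injective.eq_iff]
  · simp only [Sum.elim_inr, blk, π.injective.eq_iff]

end blocks

end Pool.Agent.HL
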