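import Pool.Agent.Lib_helper43.HL.Sp2
import Pool.Agent.Lib_helper43.HL.Hodge
import Pool.Agent.Lib_helper43.HL.Model2

/-!
Part D: the element `h` of order `L * l` with `h ^ L` block diagonal.
-/

namespace Pool.Agent.HL

open Matrix

section helt

variable {μ q L : ℕ} [NeZero L]

/-- The rotation of the blocks. -/
def rotP (q L : ℕ) : Equiv.Perm (Fin q × ZMod L) :=
  (Equiv.refl (Fin q)).prodCongr (Equiv.subRight (1 : ZMod L))

/-- `u0` in the last blocks, `1` in the others. -/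
def Aj (μ : ℕ) {q L : ℕ} (j : Fin q × ZMod L) : Spl (Fin μ) := if j.2 + 1 = 0 then u0 μ else 1

/-- The element `h`. -/
def hE (μ q L : ℕ) [NeZero L] : Spl (Fin μ × (Fin q × ZMod L)) :=
  pm ((Equiv.refl (Fin μ)).prodCongr (rotP q L)) * DD (Aj μ)

theorem hE_blk (κ : Fin q) (r : ZMod L) (w : Fin μ ⊕ Fin μ → ℤ) :
    ((hE μ q L : Spl (Fin μ × (Fin q × ZMod L))) : Matrix _ _ ℤ) *ᵥ blk (κ, r) w =
      blk (κ, r + 1)
        ((Aj μ (κ, r) : Matrix (Fin μ ⊕ Fin μ) (Fin μ ⊕ Fin μ) ℤ) *ᵥ w) := by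
  rw [hE, Submonoid.coe_mul, ← Matrix.mulVec_mulVec, DD_blk]
  have h1 : ((κ, r) : Fin q × ZMod L) = rotP q L (κ, r + 1) := by
    simp [rotP]
  have h2 := pm_blk (μ := μ) (rotP q L) (κ, r + 1)
    ((Aj μ (κ, r) : Matrix (Fin μ ⊕ Fin μ) (Fin μ ⊕ Fin μ) ℤ) *ᵥ w)
  rw [← h1] at h2
  exact h2

theorem hE_pow_blk (κ : Fin q) (r : ZMod L) (w : Fin μ ⊕ Fin μ → ℤ) (k : ℕ) :
    (((hE μ q L) ^ k : Spl (Fin μ × (Fin q × ZMod L))) : Matrix _ _ ℤ) *ᵥ blk (κ, r) w =
      blk (κ, r + (k : ZMod L))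
        ((((u0 μ) ^ ((r.val + k) / L) : Spl (Fin μ)) : Matrix (Fin μ ⊕ Fin μ) (Fin μ ⊕ Fin μ) ℤ)
          *ᵥ w) := by
  induction k with
  | zero =>
    have : r.val / L = 0 := Nat.div_eq_of_lt (ZMod.val_lt r)
    simp [this]
  | succ k ih =>
    rw [pow_succ', Submonoid.coe_mul, ← Matrix.mulVec_mulVec, ih, hE_blk, Matrix.mulVec_mulVec,
      ← Submonoid.coe_mul]
    have h1 : (r + (k : ZMod L) + 1 = 0) ↔ L ∣ r.val + k + 1 := by
      rw [← ZMod.natCast_eq_zero_iff]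
      push_cast
      rw [ZMod.natCast_zmod_val]
    have h2 : (r.val + (k + 1)) / L = (r.val + k) / L + if L ∣ r.val + k + 1 then 1 else 0 := by
      rw [← Nat.succ_div]
      rfl
    have h3 : Aj μ ((κ, r + (k : ZMod L)) : Fin q × ZMod L) * (u0 μ) ^ ((r.val + k) / L) =
        (u0 μ) ^ ((r.val + (k + 1)) / L) := by
      rw [h2, Aj]
      by_cases hd : L ∣ r.val + k + 1
      · rw [if_pos hd, if_pos (h1.mpr hd), pow_succ']
      · rw [if_neg hd, if_neg (fun h => hd (h1.mp h)), one_mul, add_zero]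
    rw [h3]
    congr 2
    push_cast
    ring

theorem hE_pow_L (j : Fin q × ZMod L) (w : Fin μ ⊕ Fin μ → ℤ) :
    (((hE μ q L) ^ L : Spl (Fin μ × (Fin q × ZMod L))) : Matrix _ _ ℤ) *ᵥ blk j w =
      blk j ((u0 μ : Matrix (Fin μ ⊕ Fin μ) (Fin μ ⊕ Fin μ) ℤ) *ᵥ w) := by
  obtain ⟨κ, r⟩ := j
  rw [hE_pow_blk]
  have h1 : (r.val + L) / L = 1 := by
    rw [Nat.add_div_right _ (Nat.pos_of_ne_zero (NeZero.ne L)), Nat.div_eq_of_lt (ZMod.val_lt r)]
  rw [h1, pow_one]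
  congr 2
  simp

theorem hE_pow_mul (j : Fin q × ZMod L) (w : Fin μ ⊕ Fin μ → ℤ) (n : ℕ) :
    (((hE μ q L) ^ (L * n) : Spl (Fin μ × (Fin q × ZMod L))) : Matrix _ _ ℤ) *ᵥ blk j w =
      blk j ((((u0 μ) ^ n : Spl (Fin μ)) : Matrix (Fin μ ⊕ Fin μ) (Fin μ ⊕ Fin μ) ℤ) *ᵥ w) := by
  induction n with
  | zero => simp
  | succ n ih =>
    rw [Nat.mul_succ, Nat.add_comm, pow_add, Submonoid.coe_mul, ← Matrix.mulVec_mulVec, ih,
      hE_pow_L, Matrix.mulVec_mulVec, ← Submonoid.coe_mul, ← pow_succ']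

theorem hE_pow_order {l : ℕ} [NeZero l] (hl : l = 2 * μ + 1) : (hE μ q L) ^ (L * l) = 1 := by
  apply Subtype.ext
  rw [Submonoid.coe_one]
  have hb : ∀ x, (((hE μ q L) ^ (L * l) : Spl (Fin μ × (Fin q × ZMod L))) :
      Matrix ((Fin μ × (Fin q × ZMod L)) ⊕ (Fin μ × (Fin q × ZMod L)))
        ((Fin μ × (Fin q × ZMod L)) ⊕ (Fin μ × (Fin q × ZMod L))) ℤ) *ᵥ
      (Pi.single x 1) = Pi.single x 1 := by
    intro x
    rcases x with ⟨a, j⟩ | ⟨a, j⟩
    · have h1 : (Pi.single (Sum.inl (a, j)) 1 :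
          (Fin μ × (Fin q × ZMod L)) ⊕ (Fin μ × (Fin q × ZMod L)) → ℤ) =
          blk j (Pi.single (Sum.inl a) 1) := by
        funext y
        rcases y with ⟨b, j'⟩ | ⟨b, j'⟩
        · simp only [blk, Sum.elim_inl, Pi.single_apply, Sum.inl.injEq, Prod.mk.injEq]
          by_cases h2 : j' = j <;> by_cases h3 : b = a <;> simp [h2, h3]
        · simp [blk, Pi.single_apply]
      rw [h1, hE_pow_mul, u0_pow_l hl, Submonoid.coe_one, Matrix.one_mulVec]
    · have h1 : (Pi.single (Sum.inr (a, j)) 1 :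
          (Fin μ × (Fin q × ZMod L)) ⊕ (Fin μ × (Fin q × ZMod L)) → ℤ) =
          blk j (Pi.single (Sum.inr a) 1) := by
        funext y
        rcases y with ⟨b, j'⟩ | ⟨b, j'⟩
        · simp [blk, Pi.single_apply]
        · simp only [blk, Sum.elim_inr, Pi.single_apply, Sum.inr.injEq, Prod.mk.injEq]
          by_cases h2 : j' = j <;> by_cases h3 : b = a <;> simp [h2, h3]
      rw [h1, hE_pow_mul, u0_pow_l hl, Submonoid.coe_one, Matrix.one_mulVec]
  ext a b
  have := congrFun (hb b) a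
  rw [Matrix.mulVec_single_one] at this
  rw [Matrix.col_apply] at this
  rw [this, Matrix.one_apply, Pi.single_apply]

end helt

section reindexing

variable {m n : Type*} [Fintype m] [DecidableEq m] [Fintype n] [DecidableEq n]

theorem J_reindex (e : m ≃ n) :
    (J m ℤ).submatrix (e.sumCongr e).symm (e.sumCongr e).symm = J n ℤ := by
  ext x y
  rcases x with x | x <;> rcases y with y | y <;>
    simp [J, Matrix.one_apply]

/-- Change of the index set of the symplectic group. -/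
def reS (e : m ≃ n) : Spl m →* Spl n where
  toFun A := ⟨(A : Matrix (m ⊕ m) (m ⊕ m) ℤ).submatrix (e.sumCongr e).symm (e.sumCongr e).symm, by
    have h := SymplecticGroup.mem_iff.mp A.2
    rw [SymplecticGroup.mem_iff, ← J_reindex e, Matrix.transpose_submatrix,
      Matrix.submatrix_mul_equiv, Matrix.submatrix_mul_equiv, h]⟩
  map_one' := by
    apply Subtype.ext
    simp
  map_mul' A B := by
    apply Subtype.ext
    simp only [Submonoid.coe_mul]
    rw [Matrix.submatrix_mul_equiv]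

variable {g : ℕ} (e : m ≃ Fin g)

/-- An integral vector as a real vector in the standard coordinates. -/
def toR (v : m ⊕ m → ℤ) : Fin (2 * g) → ℝ :=
  fun i => ((v ((e.sumCongr e).symm ((crd g).symm i)) : ℤ) : ℝ)

theorem spRep_toR (A : Spl m) (v : m ⊕ m → ℤ) :
    spRep g (reS e A) *ᵥ toR e v = toR e ((A : Matrix (m ⊕ m) (m ⊕ m) ℤ) *ᵥ v) := by
  funext i
  simp only [spRep, MonoidHom.coe_mk, OneHom.coe_mk, Matrix.reindex_apply, reS, toR,
    Matrix.mulVec, dotProduct, Matrix.submatrix_apply, Matrix.map_apply]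
  push_cast
  rw [← Equiv.sum_comp (crd g)]
  rw [← Equiv.sum_comp (e.sumCongr e)]
  simp only [Equiv.symm_apply_apply]

end reindexing

end Pool.Agent.HL
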