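import Pool.Agent.Lib_helper43.HL.Sp3
import Pool.Agent.Lib_helper43.HL.Model4

/-!
Part D: independence of the vectors, and the odd part of the order of `λ_g`.
-/

namespace Pool.Agent.HL

open Matrix Finsupp

section indep

variable {μ g d l : ℕ} [NeZero l] {o : Type*} [Fintype o] [DecidableEq o]

/-- The vectors of the model. -/
def Wv (l : ℕ) (e : Fin μ × o ≃ Fin g) (E : o ≃ Fin d) (j : Fin d) (c : ZMod l) : Fin (2 * g) → ℝ :=
  toR e (blk (E.symm j) (wv μ c))

theorem Wv_apply_inl (e : Fin μ × o ≃ Fin g) (E : o ≃ Fin d) (j j' : Fin d) (c : ZMod l)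
    (a : Fin μ) : Wv l e E j' c (crd g (Sum.inl (e (a, E.symm j)))) =
      if j = j' then ((wv μ c (Sum.inl a) : ℤ) : ℝ) else 0 := by
  simp only [Wv, toR, Equiv.symm_apply_apply, Equiv.sumCongr_symm, Equiv.sumCongr_apply,
    Sum.map_inl, blk, Sum.elim_inl, E.symm.injective.eq_iff]
  split_ifs <;> simp

theorem Wv_apply_inr (e : Fin μ × o ≃ Fin g) (E : o ≃ Fin d) (j j' : Fin d) (c : ZMod l)
    (a : Fin μ) : Wv l e E j' c (crd g (Sum.inr (e (a, E.symm j)))) =
      if j = j' then ((wv μ c (Sum.inr a) : ℤ) : ℝ) else 0 := by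
  simp only [Wv, toR, Equiv.symm_apply_apply, Equiv.sumCongr_symm, Equiv.sumCongr_apply,
    Sum.map_inr, blk, Sum.elim_inr, E.symm.injective.eq_iff]
  split_ifs <;> simp

theorem sum_wv_inl (hl : l = 2 * μ + 1) (X : ZMod l → ℝ) (a : Fin μ) :
    ∑ c, X c * ((wv μ c (Sum.inl a) : ℤ) : ℝ) =
      X ((2 * (a : ℕ) : ℕ) : ZMod l) - X ((2 * μ : ℕ) : ZMod l) := by
  have ha := a.isLt
  rw [← sum_range_zmod (fun c => X c * ((wv μ c (Sum.inl a) : ℤ) : ℝ))]
  have h1 : ∀ i ∈ Finset.range l, X (i : ZMod l) * ((wv μ (i : ZMod l) (Sum.inl a) : ℤ) : ℝ) =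
      (if i = 2 * (a : ℕ) then X (i : ZMod l) else 0) - (if i = 2 * μ then X (i : ZMod l) else 0) := by
    intro i hi
    have hv : ((i : ZMod l)).val = i := ZMod.val_cast_of_lt (Finset.mem_range.mp hi)
    simp only [wv, Sum.elim_inl, hv]
    split_ifs <;> simp
  rw [Finset.sum_congr rfl h1, Finset.sum_sub_distrib, Finset.sum_ite_eq' , Finset.sum_ite_eq',
    if_pos (Finset.mem_range.mpr (by omega)), if_pos (Finset.mem_range.mpr (by omega))]

theorem sum_wv_inr (hl : l = 2 * μ + 1) (X : ZMod l → ℝ) (a : Fin μ) :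
    ∑ c, X c * ((wv μ c (Sum.inr a) : ℤ) : ℝ) =
      X ((2 * (a : ℕ) + 1 : ℕ) : ZMod l) -
        (if (a : ℕ) = 0 then X ((2 * μ : ℕ) : ZMod l) else X ((2 * (a : ℕ) - 1 : ℕ) : ZMod l)) := by
  have ha := a.isLt
  rw [← sum_range_zmod (fun c => X c * ((wv μ c (Sum.inr a) : ℤ) : ℝ))]
  have h1 : ∀ i ∈ Finset.range l, X (i : ZMod l) * ((wv μ (i : ZMod l) (Sum.inr a) : ℤ) : ℝ) =
      (if i = 2 * (a : ℕ) + 1 then X (i : ZMod l) else 0) -
        (if i = (if (a : ℕ) = 0 then 2 * μ else 2 * (a : ℕ) - 1) then X (i : ZMod l) else 0) := by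
    intro i hi
    have hv : ((i : ZMod l)).val = i := ZMod.val_cast_of_lt (Finset.mem_range.mp hi)
    simp only [wv, Sum.elim_inr, hv]
    by_cases ha0 : (a : ℕ) = 0
    · rw [if_pos ha0]
      simp only [ha0, true_and]
      have : ¬ (i + 1 = 2 * 0) := by omega
      rw [if_neg this]
      split_ifs <;> simp
    · rw [if_neg ha0]
      simp only [ha0, false_and, if_false, sub_zero]
      have e1 : (i + 1 = 2 * (a : ℕ)) ↔ i = 2 * (a : ℕ) - 1 := by omega
      simp only [e1]
      split_ifs <;> simp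
  rw [Finset.sum_congr rfl h1, Finset.sum_sub_distrib, Finset.sum_ite_eq' , Finset.sum_ite_eq',
    if_pos (Finset.mem_range.mpr (by omega)), if_pos (Finset.mem_range.mpr (by split_ifs <;> omega))]
  split_ifs <;> rfl

theorem Wv_ind (hl : l = 2 * μ + 1) (e : Fin μ × o ≃ Fin g) (E : o ≃ Fin d) :
    Ind (Wv l e E) := by
  intro X hX j
  have hL : ∀ a : Fin μ, X j ((2 * (a : ℕ) : ℕ) : ZMod l) = X j ((2 * μ : ℕ) : ZMod l) := by
    intro a
    have h1 := congrFun hX (crd g (Sum.inl (e (a, E.symm j))))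
    simp only [Finset.sum_apply, Pi.smul_apply, smul_eq_mul, Wv_apply_inl, mul_ite, mul_zero,
      Pi.zero_apply] at h1
    rw [Finset.sum_eq_single j] at h1
    · simp only [if_true] at h1
      rw [sum_wv_inl hl] at h1
      linarith
    · intro b _ hb
      exact Finset.sum_eq_zero fun c _ => if_neg (fun h => hb h.symm)
    · intro h; exact absurd (Finset.mem_univ _) h
  have hR : ∀ a : Fin μ, X j ((2 * (a : ℕ) + 1 : ℕ) : ZMod l) =
      (if (a : ℕ) = 0 then X j ((2 * μ : ℕ) : ZMod l) else X j ((2 * (a : ℕ) - 1 : ℕ) : ZMod l)) := by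
    intro a
    have h1 := congrFun hX (crd g (Sum.inr (e (a, E.symm j))))
    simp only [Finset.sum_apply, Pi.smul_apply, smul_eq_mul, Wv_apply_inr, mul_ite, mul_zero,
      Pi.zero_apply] at h1
    rw [Finset.sum_eq_single j] at h1
    · simp only [if_true] at h1
      rw [sum_wv_inr hl] at h1
      linarith
    · intro b _ hb
      exact Finset.sum_eq_zero fun c _ => if_neg (fun h => hb h.symm)
    · intro h; exact absurd (Finset.mem_univ _) h
  -- all values are equal to the value at `2 * μ`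
  have hR' : ∀ a : ℕ, a < μ → X j ((2 * a + 1 : ℕ) : ZMod l) = X j ((2 * μ : ℕ) : ZMod l) := by
    intro a
    induction a with
    | zero => intro ha; simpa using hR ⟨0, ha⟩
    | succ a ih =>
      intro ha
      have h1 := hR ⟨a + 1, ha⟩
      simp only [Nat.succ_ne_zero, if_false] at h1
      have h2 : 2 * (a + 1) - 1 = 2 * a + 1 := by omega
      rw [h2] at h1
      rw [h1, ih (by omega)]
  have hall : ∀ c : ZMod l, X j c = X j ((2 * μ : ℕ) : ZMod l) := by
    intro c
    have hc := ZMod.val_lt c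
    rcases Nat.even_or_odd' c.val with ⟨a, ha | ha⟩
    · by_cases h : a < μ
      · have h1 := hL ⟨a, h⟩
        simp only at h1
        rw [← ha, ZMod.natCast_zmod_val] at h1
        exact h1
      · have h1 : a = μ := by omega
        subst h1
        rw [← ha, ZMod.natCast_zmod_val]
    · have h1 := hR' a (by omega)
      rw [← ha, ZMod.natCast_zmod_val] at h1
      exact h1
  intro c
  rw [hall c, hall 0]

end indep

end Pool.Agent.HL
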