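import Pool.Agent.Lib_helper43.HL.KCh

/-!
The winding number of affine `(n-1)`-cycles in `ℝ^n ∖ {0}`.
-/

namespace Pool.Agent.HL

open Finsupp Matrix

variable {n : ℕ}

/-- The signed number of simplices whose open cone contains `p`. -/
noncomputable def windAt (p : Fin n → ℝ) : T (Fin n → ℝ) n →ₗ[ℤ] ℤ :=
  Finsupp.linearCombination ℤ (phi p)

theorem windAt_single (p : Fin n → ℝ) (v : Fin n → Fin n → ℝ) (a : ℤ) :
    windAt p (Finsupp.single v a) = a * phi p v := by
  simp [windAt]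

theorem windAt_apply (p : Fin n → ℝ) (x : T (Fin n → ℝ) n) :
    windAt p x = ∑ v ∈ x.support, x v * phi p v := by
  rw [windAt, Finsupp.linearCombination_apply, Finsupp.sum]
  rfl

/-- `p` is in general position with respect to all simplices of `x`. -/
def GenC (p : Fin n → ℝ) (x : T (Fin n → ℝ) n) : Prop := ∀ v ∈ x.support, Gen1 p v

theorem span_omit {k : ℕ} (hk : k < n) {ι : Type*} [Fintype ι] (v : ι → Fin n → ℝ) (s : Set ι)
    (hs : s.ncard ≤ k) : Module.finrank ℝ (Submodule.span ℝ (v '' s)) < n := by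
  classical
  have hfin : (v '' s).Finite := Set.toFinite _
  haveI : Fintype (v '' s) := hfin.fintype
  have h1 := finrank_span_le_card (R := ℝ) (v '' s)
  have h2 : (v '' s).toFinset.card ≤ k := by
    rw [← Set.ncard_eq_toFinset_card']
    exact (Set.ncard_image_le (Set.toFinite s)).trans hs
  exact lt_of_le_of_lt (h1.trans h2) hk

theorem ncard_omit (m : ℕ) (i : Fin (m + 1)) : {k : Fin (m + 1) | k ≠ i}.ncard = m := by
  have : {k : Fin (m + 1) | k ≠ i} = {i}ᶜ := rfl
  rw [this, Set.ncard_compl, Set.ncard_singleton, Nat.card_eq_fintype_card, Fintype.card_fin]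
  rfl

theorem ncard_omit2 (m : ℕ) (i j : Fin (m + 1)) (hij : i ≠ j) :
    {k : Fin (m + 1) | k ≠ i ∧ k ≠ j}.ncard + 1 = m := by
  have h0 : {k : Fin (m + 1) | k ≠ i ∧ k ≠ j} = ({i, j} : Set (Fin (m + 1)))ᶜ := by
    ext k; simp
  rw [h0, Set.ncard_compl, Set.ncard_pair hij, Nat.card_eq_fintype_card, Fintype.card_fin]
  have : 2 ≤ m + 1 := by
    have h1 := i.isLt
    have h2 := j.isLt
    have h3 : (i : ℕ) ≠ j := fun h => hij (Fin.ext h)
    omega
  omega

theorem exists_genC (m : ℕ) (x : T (Fin (m + 1) → ℝ) (m + 1)) : ∃ p, GenC p x := by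
  obtain ⟨w, hw⟩ := exists_generic (n := m + 1) (ι := x.support × Fin (m + 1))
    (fun a => Submodule.span ℝ (a.1.1 '' {k | k ≠ a.2}))
    (fun a => span_omit (Nat.lt_succ_self m) a.1.1 _ (ncard_omit m a.2).le)
  exact ⟨w, fun v hv i => hw (⟨v, hv⟩, i)⟩

/-- Exchange: if `p` is generic for `v`, then a vector `w` generic for `v` with respect to the
hyperplanes through `p` makes `p` generic for `(w, v)`. -/
theorem gen2_cons (m : ℕ) (p w : Fin (m + 1) → ℝ) (v : Fin (m + 1) → Fin (m + 1) → ℝ)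
    (hp : Gen1 p v)
    (hw : ∀ i j : Fin (m + 1), i ≠ j →
      w ∉ Submodule.span ℝ (insert p (v '' {k | k ≠ i ∧ k ≠ j}))) :
    Gen2 p (Fin.cons w v : Fin (m + 1 + 1) → Fin (m + 1) → ℝ) := by
  intro i j hij
  have key : ∀ j : Fin (m + 1), (Fin.cons w v : Fin (m + 1 + 1) → Fin (m + 1) → ℝ) ''
      {k | k ≠ 0 ∧ k ≠ j.succ} = v '' {k | k ≠ j} := by
    intro j
    ext y
    constructor
    · rintro ⟨k, ⟨hk0, hkj⟩, rfl⟩
      obtain ⟨l, rfl⟩ := Fin.exists_succ_eq.mpr hk0
      exact ⟨l, fun h => hkj (by rw [h]), by simp⟩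
    · rintro ⟨k, hk, rfl⟩
      exact ⟨k.succ, ⟨Fin.succ_ne_zero k, fun h => hk (Fin.succ_injective _ h)⟩, by simp⟩
  by_cases hi : i = 0
  · subst hi
    obtain ⟨j', rfl⟩ := Fin.exists_succ_eq.mpr hij.symm
    rw [key]
    exact hp j'
  · obtain ⟨i', rfl⟩ := Fin.exists_succ_eq.mpr hi
    by_cases hj : j = 0
    · subst hj
      have : {k : Fin (m + 1 + 1) | k ≠ i'.succ ∧ k ≠ 0} = {k | k ≠ 0 ∧ k ≠ i'.succ} := by
        ext k; exact and_comm
      rw [this, key]
      exact hp i'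
    · obtain ⟨j', rfl⟩ := Fin.exists_succ_eq.mpr hj
      have hij' : i' ≠ j' := fun h => hij (by rw [h])
      intro hmem
      have hset : (Fin.cons w v : Fin (m + 1 + 1) → Fin (m + 1) → ℝ) ''
          {k | k ≠ i'.succ ∧ k ≠ j'.succ} = insert w (v '' {k | k ≠ i' ∧ k ≠ j'}) := by
        ext y
        constructor
        · rintro ⟨k, ⟨hk1, hk2⟩, rfl⟩
          by_cases hk : k = 0
          · subst hk; left; simp
          · obtain ⟨l, rfl⟩ := Fin.exists_succ_eq.mpr hk
            right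
            exact ⟨l, ⟨fun h => hk1 (by rw [h]), fun h => hk2 (by rw [h])⟩, by simp⟩
        · rintro (rfl | ⟨k, ⟨hk1, hk2⟩, rfl⟩)
          · exact ⟨0, ⟨(Fin.succ_ne_zero _).symm, (Fin.succ_ne_zero _).symm⟩, by simp⟩
          · exact ⟨k.succ, ⟨fun h => hk1 (Fin.succ_injective _ h),
              fun h => hk2 (Fin.succ_injective _ h)⟩, by simp⟩
      rw [hset, Submodule.mem_span_insert] at hmem
      obtain ⟨a, y, hy, hpy⟩ := hmem
      by_cases ha : a = 0
      · rw [ha, zero_smul, zero_add] at hpy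
        apply hp i'
        rw [hpy]
        exact Submodule.span_mono (Set.image_mono fun k hk => hk.1) hy
      · apply hw i' j' hij'
        rw [Submodule.mem_span_insert]
        refine ⟨a⁻¹, -(a⁻¹ • y), Submodule.neg_mem _ (Submodule.smul_mem _ _ hy), ?_⟩
        rw [hpy, smul_add, smul_smul, inv_mul_cancel₀ ha, one_smul]
        abel

theorem span_insert_omit (m : ℕ) (p : Fin (m + 1) → ℝ) (v : Fin (m + 1) → Fin (m + 1) → ℝ)
    (i j : Fin (m + 1)) (hij : i ≠ j) :
    Module.finrank ℝ (Submodule.span ℝ (insert p (v '' {k | k ≠ i ∧ k ≠ j}))) < m + 1 := by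
  classical
  have hfin : (insert p (v '' {k | k ≠ i ∧ k ≠ j})).Finite := Set.toFinite _
  haveI : Fintype (insert p (v '' {k | k ≠ i ∧ k ≠ j}) : Set (Fin (m + 1) → ℝ)) := hfin.fintype
  have h1 := finrank_span_le_card (R := ℝ) (insert p (v '' {k | k ≠ i ∧ k ≠ j}))
  have h2 : (insert p (v '' {k | k ≠ i ∧ k ≠ j})).toFinset.card ≤ m := by
    rw [← Set.ncard_eq_toFinset_card']
    refine (Set.ncard_insert_le _ _).trans ?_
    have := Set.ncard_image_le (f := v) (Set.toFinite {k : Fin (m + 1) | k ≠ i ∧ k ≠ j})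
    have h3 := ncard_omit2 m i j hij
    omega
  omega

/-- The cone formula for cycles. -/
theorem windAt_cone (m : ℕ) (x : T (Fin (m + 1) → ℝ) (m + 1)) (hx : x ∈ KC (m + 1) (m + 1))
    (hb : bd m x = 0) (w p : Fin (m + 1) → ℝ) (hw : GenC w x)
    (hg : ∀ v ∈ x.support, Gen2 p (Fin.cons w v : Fin (m + 1 + 1) → Fin (m + 1) → ℝ)) :
    windAt p x = windAt (-w) x := by
  have hx' := mem_KC.mp hx
  -- the functional `v ↦ ∑ (-1)^i phi p (faces of (w, v))`
  have h1 : windAt p (bd (m + 1) (cone w (m + 1) x)) = windAt (-w) x := by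
    have hsum : x = ∑ v ∈ x.support, Finsupp.single v (x v) := (Finsupp.sum_single x).symm
    have hv : ∀ v ∈ x.support, windAt p (bd (m + 1) (cone w (m + 1) (Finsupp.single v (x v)))) =
        windAt (-w) (Finsupp.single v (x v)) := by
      intro v hv
      have h2 := cone_face v w p (hx' v hv) (hw v hv) (hg v hv)
      have h3 : Finsupp.single v (x v) = x v • Finsupp.single v (1 : ℤ) := by simp
      rw [h3, map_smul, map_smul, map_smul, map_smul, cone_single, bd_single, map_sum]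
      simp only [windAt_single]
      rw [h2, one_mul]
    rw [hsum]
    simp only [map_sum]
    exact Finset.sum_congr rfl hv
  rw [bd_cone, hb, map_zero, sub_zero] at h1
  exact h1

theorem windAt_indep (m : ℕ) (x : T (Fin (m + 1) → ℝ) (m + 1)) (hx : x ∈ KC (m + 1) (m + 1))
    (hb : bd m x = 0) (p q : Fin (m + 1) → ℝ) (hp : GenC p x) (hq : GenC q x) :
    windAt p x = windAt q x := by
  obtain ⟨w, hw⟩ := exists_generic (n := m + 1)
    (ι := (x.support × Fin (m + 1)) ⊕
      (Bool × x.support × {a : Fin (m + 1) × Fin (m + 1) // a.1 ≠ a.2}))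
    (fun a => match a with
      | Sum.inl a => Submodule.span ℝ (a.1.1 '' {k | k ≠ a.2})
      | Sum.inr a => Submodule.span ℝ (insert (if a.1 then p else q)
          (a.2.1.1 '' {k | k ≠ a.2.2.1.1 ∧ k ≠ a.2.2.1.2})))
    (fun a => by
      rcases a with a | a
      · exact span_omit (Nat.lt_succ_self m) a.1.1 _ (ncard_omit m a.2).le
      · exact span_insert_omit m _ _ _ _ a.2.2.2)
  have hw1 : GenC w x := fun v hv i => hw (Sum.inl (⟨v, hv⟩, i))
  have hwp : ∀ v ∈ x.support, Gen2 p (Fin.cons w v : Fin (m + 1 + 1) → Fin (m + 1) → ℝ) := by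
    intro v hv
    exact gen2_cons m p w v (hp v hv) fun i j hij =>
      hw (Sum.inr (true, ⟨v, hv⟩, ⟨(i, j), hij⟩))
  have hwq : ∀ v ∈ x.support, Gen2 q (Fin.cons w v : Fin (m + 1 + 1) → Fin (m + 1) → ℝ) := by
    intro v hv
    exact gen2_cons m q w v (hq v hv) fun i j hij =>
      hw (Sum.inr (false, ⟨v, hv⟩, ⟨(i, j), hij⟩))
  rw [windAt_cone m x hx hb w p hw1 hwp, windAt_cone m x hx hb w q hw1 hwq]

/-- The winding number around the origin. -/
noncomputable def wind (x : T (Fin n → ℝ) n) : ℤ := by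
  classical
  exact if h : ∃ p, GenC p x then windAt h.choose x else 0

theorem wind_eq (m : ℕ) (x : T (Fin (m + 1) → ℝ) (m + 1)) (hx : x ∈ KC (m + 1) (m + 1))
    (hb : bd m x = 0) (p : Fin (m + 1) → ℝ) (hp : GenC p x) : wind x = windAt p x := by
  have h : ∃ p, GenC p x := ⟨p, hp⟩
  rw [wind, dif_pos h]
  exact windAt_indep m x hx hb _ _ h.choose_spec hp

theorem wind_zero : wind (0 : T (Fin n → ℝ) n) = 0 := by
  rw [wind]
  split_ifs with h
  · simp
  · rfl

theorem genC_of_subset {p : Fin n → ℝ} {x : T (Fin n → ℝ) n} {s : Finset (Fin n → Fin n → ℝ)}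
    (h : ∀ v ∈ s, Gen1 p v) (hs : x.support ⊆ s) : GenC p x := fun v hv => h v (hs hv)

theorem wind_add (m : ℕ) (x y : T (Fin (m + 1) → ℝ) (m + 1)) (hx : x ∈ KC (m + 1) (m + 1))
    (hy : y ∈ KC (m + 1) (m + 1)) (hbx : bd m x = 0) (hby : bd m y = 0) :
    wind (x + y) = wind x + wind y := by
  classical
  obtain ⟨p, hp⟩ := exists_generic (n := m + 1) (ι := (x.support ∪ y.support : Finset _) × Fin (m + 1))
    (fun a => Submodule.span ℝ (a.1.1 '' {k | k ≠ a.2}))
    (fun a => span_omit (Nat.lt_succ_self m) a.1.1 _ (ncard_omit m a.2).le)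
  have hp' : ∀ v ∈ x.support ∪ y.support, Gen1 p v := fun v hv i => hp (⟨v, hv⟩, i)
  rw [wind_eq m x hx hbx p (genC_of_subset hp' Finset.subset_union_left),
    wind_eq m y hy hby p (genC_of_subset hp' Finset.subset_union_right),
    wind_eq m (x + y) (Submodule.add_mem _ hx hy) (by rw [map_add, hbx, hby, add_zero]) p
      (genC_of_subset hp' Finsupp.support_add), map_add]

theorem wind_smul (m : ℕ) (a : ℤ) (x : T (Fin (m + 1) → ℝ) (m + 1)) (hx : x ∈ KC (m + 1) (m + 1))
    (hbx : bd m x = 0) : wind (a • x) = a * wind x := by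
  obtain ⟨p, hp⟩ := exists_genC m x
  rw [wind_eq m x hx hbx p hp, wind_eq m (a • x) (Submodule.smul_mem _ _ hx)
    (by rw [map_smul, hbx, smul_zero]) p (genC_of_subset hp Finsupp.support_smul), map_smul,
    smul_eq_mul]

theorem wind_neg (m : ℕ) (x : T (Fin (m + 1) → ℝ) (m + 1)) (hx : x ∈ KC (m + 1) (m + 1))
    (hbx : bd m x = 0) : wind (-x) = - wind x := by
  have := wind_smul m (-1) x hx hbx
  simpa using this

theorem wind_sub (m : ℕ) (x y : T (Fin (m + 1) → ℝ) (m + 1)) (hx : x ∈ KC (m + 1) (m + 1))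
    (hy : y ∈ KC (m + 1) (m + 1)) (hbx : bd m x = 0) (hby : bd m y = 0) :
    wind (x - y) = wind x - wind y := by
  rw [sub_eq_add_neg, wind_add m x (-y) hx (Submodule.neg_mem _ hy) hbx (by rw [map_neg, hby, neg_zero]),
    wind_neg m y hy hby, sub_eq_add_neg]

/-- Transformation of `phi` under a linear map of positive determinant. -/
theorem phi_lm (M : Matrix (Fin n) (Fin n) ℝ) (hM : 0 < M.det) (p : Fin n → ℝ)
    (v : Fin n → Fin n → ℝ) : phi (M *ᵥ p) (fun i => M *ᵥ v i) = phi p v := by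
  have h1 : (∃ b : Fin n → ℝ, (∀ j, 0 < b j) ∧ M *ᵥ p = ∑ j, b j • (M *ᵥ v j)) ↔
      (∃ b : Fin n → ℝ, (∀ j, 0 < b j) ∧ p = ∑ j, b j • v j) := by
    have h2 : ∀ b : Fin n → ℝ, ∑ j, b j • (M *ᵥ v j) = M *ᵥ (∑ j, b j • v j) := by
      intro b
      rw [← Matrix.mulVecLin_apply, map_sum]
      simp
    constructor
    · rintro ⟨b, hb, h⟩
      refine ⟨b, hb, ?_⟩
      rw [h2] at h
      have h3 : M *ᵥ (p - ∑ j, b j • v j) = 0 := by rw [Matrix.mulVec_sub, h, sub_self]
      exact sub_eq_zero.mp (Matrix.eq_zero_of_mulVec_eq_zero hM.ne' h3)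
    · rintro ⟨b, hb, h⟩
      exact ⟨b, hb, by rw [h2, ← h]⟩
  have h4 : Matrix.det (Matrix.of fun i => M *ᵥ v i) = M.det * Matrix.det (Matrix.of v) := by
    have : (Matrix.of fun i => M *ᵥ v i) = Matrix.of v * Mᵀ := by
      ext i j
      simp [Matrix.mul_apply, Matrix.mulVec, dotProduct, mul_comm]
    rw [this, Matrix.det_mul, Matrix.det_transpose, mul_comm]
  rw [phi, phi, h4, sign_mul, sign_pos hM, one_mul]
  by_cases h : (∃ b : Fin n → ℝ, (∀ j, 0 < b j) ∧ p = ∑ j, b j • v j)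
  · rw [if_pos h, if_pos (h1.mpr h)]
  · rw [if_neg h, if_neg (fun h' => h (h1.mp h'))]

theorem gen1_lm (M : Matrix (Fin n) (Fin n) ℝ) (hM : M.det ≠ 0) (p : Fin n → ℝ)
    (v : Fin n → Fin n → ℝ) (hp : Gen1 p v) : Gen1 (M *ᵥ p) (fun i => M *ᵥ v i) := by
  intro i h
  apply hp i
  have h1 : (fun i => M *ᵥ v i) '' {k | k ≠ i} = M.mulVecLin '' (v '' {k | k ≠ i}) := by
    rw [Set.image_image]; rfl
  rw [h1, ← Submodule.map_span, Submodule.mem_map] at h
  obtain ⟨y, hy, hy2⟩ := h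
  have h3 : M *ᵥ (p - y) = 0 := by
    rw [Matrix.mulVec_sub, ← Matrix.mulVecLin_apply M y, hy2, sub_self]
  have h4 := sub_eq_zero.mp (Matrix.eq_zero_of_mulVec_eq_zero hM h3)
  rw [h4]; exact hy

theorem windAt_lm (M : Matrix (Fin n) (Fin n) ℝ) (hM : 0 < M.det) (p : Fin n → ℝ)
    (x : T (Fin n → ℝ) n) : windAt (M *ᵥ p) (lm M n x) = windAt p x := by
  have : (windAt (M *ᵥ p)).comp (lm M n) = windAt p := by
    refine Finsupp.lhom_ext' fun v => LinearMap.ext_ring ?_
    simp only [LinearMap.comp_apply, Finsupp.lsingle_apply, lm_single, windAt_single, one_mul]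
    exact phi_lm M hM p v
  exact LinearMap.congr_fun this x

/-- The winding number is invariant under linear maps of positive determinant. -/
theorem wind_lm (m : ℕ) (M : Matrix (Fin (m + 1)) (Fin (m + 1)) ℝ) (hM : 0 < M.det)
    (x : T (Fin (m + 1) → ℝ) (m + 1)) (hx : x ∈ KC (m + 1) (m + 1)) (hb : bd m x = 0) :
    wind (lm M (m + 1) x) = wind x := by
  classical
  obtain ⟨p, hp⟩ := exists_genC m x
  have hp' : GenC (M *ᵥ p) (lm M (m + 1) x) := by
    intro v hv
    have h1 : v ∈ x.support.image (fun u => (fun x => M *ᵥ x) ∘ u) :=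
      Finsupp.mapDomain_support hv
    rw [Finset.mem_image] at h1
    obtain ⟨u, hu, rfl⟩ := h1
    exact gen1_lm M hM.ne' p u (hp u hu)
  rw [wind_eq m x hx hb p hp, wind_eq m (lm M (m + 1) x) (lm_KC M hM.ne' x hx)
    (by rw [bd_lm, hb, map_zero]) (M *ᵥ p) hp', windAt_lm M hM]

end Pool.Agent.HL
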